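import Pool.Agent.Lib_helper80.OB.Stmts

/-!
# The algebraic core of the positivity lemma
-/

namespace Pool.Agent.OB

open Finset Pool.Agent.SR

section Alg38

variable {ι κ : Type} [Fintype ι] [DecidableEq ι] [Fintype κ] [DecidableEq κ]

theorem alg38_sg (b : Bool) : sg b = 1 ∨ sg b = -1 := by
  cases b <;> simp [sg]

theorem alg38_prod_pm {β : Type} (s : Finset β) (f : β → ℝ) (hf : ∀ i ∈ s, f i = 1 ∨ f i = -1) :
    ∏ i ∈ s, f i = 1 ∨ ∏ i ∈ s, f i = -1 := by
  classical
  induction s using Finset.induction_on with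
  | empty => left; simp
  | insert a s ha ih =>
    rw [prod_insert ha]
    have h1 := hf a (mem_insert_self _ _)
    have h2 := ih fun i hi => hf i (mem_insert_of_mem hi)
    rcases h1 with h1 | h1 <;> rcases h2 with h2 | h2 <;> rw [h1, h2] <;> simp

omit [Fintype ι] [DecidableEq ι] [Fintype κ] [DecidableEq κ] in
theorem alg38_rowv (E : κ → Fin 5 → ι) (b : κ → Bool) (c : κ) (ζ : ι → ℝ)
    (hζ : ∀ i, ζ i = 1 ∨ ζ i = -1) : rowv E b c ζ = 1 ∨ rowv E b c ζ = -1 := by
  unfold rowv
  have h1 := alg38_sg (b c)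
  have h2 := alg38_prod_pm univ (fun j => ζ (E c j)) (fun j _ => hζ _)
  rcases h1 with h1 | h1 <;> rcases h2 with h2 | h2 <;> rw [h1, h2] <;> simp

omit [Fintype ι] [DecidableEq ι] [Fintype κ] in
theorem alg38_prs_symmDiff (E : κ → Fin 5 → ι) (b : κ → Bool) (s t : Finset κ) (ζ : ι → ℝ)
    (hζ : ∀ i, ζ i = 1 ∨ ζ i = -1) :
    prs E b (symmDiff s t) ζ = prs E b s ζ * prs E b t ζ := by
  unfold prs
  have h1 : symmDiff s t = (s \ t) ∪ (t \ s) := rfl
  have hd : Disjoint (s \ t) (t \ s) := disjoint_sdiff_sdiff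
  have h2 := prod_inter_mul_prod_sdiff s t (fun c => rowv E b c ζ)
  have h3 := prod_inter_mul_prod_sdiff t s (fun c => rowv E b c ζ)
  rw [h1, prod_union hd, ← h2, ← h3, inter_comm t s]
  have h4 := alg38_prod_pm (s ∩ t) (fun c => rowv E b c ζ) (fun c _ => alg38_rowv E b c ζ hζ)
  rcases h4 with h4 | h4 <;> rw [h4] <;> ring

omit [Fintype κ] in
theorem alg38_os_symmDiff (E : κ → Fin 5 → ι) (s t : Finset κ) :
    os E (symmDiff s t) = symmDiff (os E s) (os E t) := by
  ext i
  have h1 : symmDiff s t = (s \ t) ∪ (t \ s) := rfl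
  have hd : Disjoint (s \ t) (t \ s) := disjoint_sdiff_sdiff
  let f : κ → ℕ := fun c => (univ.filter fun j => E c j = i).card
  have h2 : ∑ c ∈ s ∩ t, f c + ∑ c ∈ s \ t, f c = ∑ c ∈ s, f c := sum_inter_add_sum_sdiff s t f
  have h3 : ∑ c ∈ t ∩ s, f c + ∑ c ∈ t \ s, f c = ∑ c ∈ t, f c := sum_inter_add_sum_sdiff t s f
  rw [inter_comm t s] at h3
  have h4 : ∑ c ∈ symmDiff s t, f c = ∑ c ∈ s \ t, f c + ∑ c ∈ t \ s, f c := by
    rw [h1, sum_union hd]
  have h5 : i ∈ os E (symmDiff s t) ↔ Odd (∑ c ∈ symmDiff s t, f c) := by simp [os, f]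
  have h6 : i ∈ os E s ↔ Odd (∑ c ∈ s, f c) := by simp [os, f]
  have h7 : i ∈ os E t ↔ Odd (∑ c ∈ t, f c) := by simp [os, f]
  rw [mem_symmDiff, h5, h6, h7, h4, ← h2, ← h3]
  simp only [Nat.odd_iff]
  omega

end Alg38

theorem alg (hsupp : StmtSupp) : StmtAlg := by
  intro ι κ α i1 i2 i3 i4 E b q hE X ζ hζ I hI ε hε θ hθ0 hθ1 hθ2 hJ
  classical
  set 𝒮 : Finset (Finset κ) := univ.filter fun s => s.card ≤ 8 * q with h𝒮
  let a : Finset κ → ℝ := fun s => ∑ u ∈ X, prs E b s (ζ u)
  have htot : ∑ u ∈ X, dens E b (8 * q) (ζ u) = ∑ s ∈ 𝒮, a s := by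
    unfold dens
    exact sum_comm
  have hmem𝒮 : ∀ s, s ∈ 𝒮 ↔ s.card ≤ 8 * q := fun s => by simp [h𝒮]
  -- splitting the product
  have hsplit : ∀ s, ∃ c : ℝ, (c = 1 ∨ c = -1) ∧
      ∀ u ∈ X, prs E b s (ζ u) = c * ∏ i ∈ os E s \ I, ζ u i := by
    intro s
    by_cases hX : X.Nonempty
    · obtain ⟨u0, hu0⟩ := hX
      refine ⟨(∏ c ∈ s, sg (b c)) * ∏ i ∈ os E s ∩ I, ε i, ?_, fun u hu => ?_⟩
      · have h1 := alg38_prod_pm s (fun c => sg (b c)) (fun c _ => alg38_sg _)
        have h2 := alg38_prod_pm (os E s ∩ I) ε (fun i hi => by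
          rw [← hε u0 hu0 i (mem_inter.1 hi).2]; exact hζ _ _)
        rcases h1 with h1 | h1 <;> rcases h2 with h2 | h2 <;> rw [h1, h2] <;> simp
      · rw [hsupp ι κ i1 i2 i3 i4 E b s (ζ u) (hζ u), mul_assoc]
        congr 1
        rw [← prod_inter_mul_prod_sdiff (os E s) I (ζ u)]
        congr 1
        exact prod_congr rfl fun i hi => hε u hu i (mem_inter.1 hi).2
    · rw [not_nonempty_iff_eq_empty] at hX
      exact ⟨1, Or.inl rfl, fun u hu => by rw [hX] at hu; simp at hu⟩
  have habs : ∀ s, (os E s \ I).Nonempty → |a s| ≤ θ ^ (os E s \ I).card * X.card := by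
    intro s hs
    obtain ⟨c, hc, hcu⟩ := hsplit s
    have h1 : a s = c * ∑ u ∈ X, ∏ i ∈ os E s \ I, ζ u i := by
      rw [mul_sum]
      exact sum_congr rfl hcu
    have h2 : |c| = 1 := by rcases hc with rfl | rfl <;> simp
    rw [h1, abs_mul, h2, one_mul]
    exact hJ _ sdiff_disjoint hs
  -- the low part
  set Low : Finset (Finset κ) := 𝒮.filter fun s => (os E s \ I).card ≤ 2 * q with hLow
  set W : Finset (Finset κ) := 𝒮.filter fun s => os E s \ I = ∅ with hW
  have hLowcard : ∀ s ∈ Low, s.card ≤ 4 * q := by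
    intro s hs
    rw [hLow, mem_filter, hmem𝒮] at hs
    have h1 := hE s hs.1
    have h2 : (os E s).card ≤ (os E s \ I).card + I.card := by
      have := card_le_card (show os E s ⊆ (os E s \ I) ∪ I by
        intro i hi; by_cases hiI : i ∈ I <;> simp [hi, hiI])
      exact this.trans (card_union_le _ _)
    omega
  have hWLow : W ⊆ Low := by
    intro s hs
    rw [hW, mem_filter] at hs
    rw [hLow, mem_filter]
    refine ⟨hs.1, ?_⟩
    rw [hs.2, card_empty]
    exact Nat.zero_le _
  have hsdc : ∀ s t : Finset κ, (symmDiff s t).card ≤ s.card + t.card := by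
    intro s t
    have h1 : symmDiff s t = (s \ t) ∪ (t \ s) := rfl
    rw [h1]
    refine (card_union_le _ _).trans (add_le_add ?_ ?_) <;> exact card_le_card sdiff_subset
  have hJsd : ∀ s t : Finset κ, os E (symmDiff s t) \ I = symmDiff (os E s \ I) (os E t \ I) := by
    intro s t
    rw [alg38_os_symmDiff]
    ext i
    simp only [mem_sdiff, mem_symmDiff]
    tauto
  have hasd : ∀ s t : Finset κ, ∀ u, prs E b (symmDiff s t) (ζ u) =
      prs E b s (ζ u) * prs E b t (ζ u) :=
    fun s t u => alg38_prs_symmDiff E b s t (ζ u) (hζ u)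
  have hlow : 0 ≤ ∑ s ∈ Low, a s := by
    by_cases hcase : ∃ w ∈ W, ∃ c : ℝ, c = -1 ∧ ∀ u ∈ X, prs E b w (ζ u) = c
    · obtain ⟨w, hw, c, rfl, hcw⟩ := hcase
      have hw' := hw
      rw [hW, mem_filter] at hw'
      have hmaps : ∀ s ∈ Low, symmDiff s w ∈ Low := by
        intro s hs
        have h1 := hLowcard s hs
        have h2 := hLowcard w (hWLow hw)
        have h3 := hsdc s w
        rw [hLow, mem_filter, hmem𝒮] at hs ⊢
        refine ⟨by omega, ?_⟩
        rw [hJsd, hw'.2]
        have : symmDiff (os E s \ I) ∅ = os E s \ I := symmDiff_bot _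
        rw [this]
        exact hs.2
      have hinv : ∀ s, symmDiff (symmDiff s w) w = s := fun s => symmDiff_symmDiff_cancel_right _ _
      have h1 : ∑ s ∈ Low, a s = ∑ s ∈ Low, a (symmDiff s w) := by
        refine (sum_bij' (fun s _ => symmDiff s w) (fun s _ => symmDiff s w) hmaps hmaps
          (fun s _ => hinv s) (fun s _ => hinv s) (fun s _ => ?_)).symm
        rfl
      have h2 : ∀ s, a (symmDiff s w) = - a s := by
        intro s
        show ∑ u ∈ X, _ = - ∑ u ∈ X, _
        rw [← sum_neg_distrib]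
        refine sum_congr rfl fun u hu => ?_
        rw [hasd, hcw u hu]
        ring
      have h3 : ∑ s ∈ Low, a (symmDiff s w) = - ∑ s ∈ Low, a s := by
        rw [← sum_neg_distrib]
        exact sum_congr rfl fun s _ => h2 s
      linarith
    · push Not at hcase
      have hW1 : ∀ w ∈ W, ∀ u ∈ X, prs E b w (ζ u) = 1 := by
        intro w hw
        obtain ⟨c, hc, hcu⟩ := hsplit w
        have hw' := hw
        rw [hW, mem_filter] at hw'
        rw [hw'.2] at hcu
        rcases hc with rfl | rfl
        · intro u hu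
          rw [hcu u hu]
          simp
        · obtain ⟨u, hu, hne⟩ := hcase w hw (-1) rfl
          exact absurd (by rw [hcu u hu]; simp) hne
      have haW : ∀ w ∈ W, a w = X.card := by
        intro w hw
        show ∑ u ∈ X, prs E b w (ζ u) = X.card
        rw [sum_congr rfl (hW1 w hw)]
        simp
      -- group by `os s \ I`
      have hgroup : ∑ s ∈ Low, a s = ∑ J ∈ (univ : Finset ι).powerset,
          ∑ s ∈ Low.filter (fun s => os E s \ I = J), a s :=
        (sum_fiberwise_of_maps_to (fun s _ => mem_powerset.2 (subset_univ _)) _).symm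
      have hfib0 : ∑ s ∈ Low.filter (fun s => os E s \ I = ∅), a s = W.card * X.card := by
        have h1 : Low.filter (fun s => os E s \ I = ∅) = W := by
          ext s
          rw [mem_filter]
          constructor
          · rintro ⟨h1, h2⟩
            rw [hLow, mem_filter] at h1
            rw [hW, mem_filter]
            exact ⟨h1.1, h2⟩
          · intro h
            have h' := h
            rw [hW, mem_filter] at h'
            exact ⟨hWLow h, h'.2⟩
        rw [h1, sum_congr rfl haW, sum_const, nsmul_eq_mul]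
      have hfib : ∀ J : Finset ι, J.Nonempty →
          -(θ ^ J.card * (W.card * X.card)) ≤ ∑ s ∈ Low.filter (fun s => os E s \ I = J), a s := by
        intro J hJne
        have hcard : (Low.filter (fun s => os E s \ I = J)).card ≤ W.card := by
          by_cases hne : (Low.filter (fun s => os E s \ I = J)).Nonempty
          · obtain ⟨s0, hs0⟩ := hne
            refine card_le_card_of_injOn (fun s => symmDiff s0 s) ?_ ?_
            · intro s hs
              rw [mem_coe, mem_filter] at hs
              rw [mem_filter] at hs0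
              have h1 := hLowcard s hs.1
              have h2 := hLowcard s0 hs0.1
              have h3 := hsdc s0 s
              rw [mem_coe, hW, mem_filter, hmem𝒮]
              refine ⟨?_, ?_⟩
              · show (symmDiff s0 s).card ≤ 8 * q
                omega
              · show os E (symmDiff s0 s) \ I = ∅
                rw [hJsd, hs0.2, hs.2]
                exact symmDiff_self _
            · intro s _ s' _ h
              exact symmDiff_right_injective s0 h
          · rw [not_nonempty_iff_eq_empty] at hne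
            rw [hne, card_empty]
            exact Nat.zero_le _
        have h1 : ∀ s ∈ Low.filter (fun s => os E s \ I = J), -(θ ^ J.card * X.card) ≤ a s := by
          intro s hs
          rw [mem_filter] at hs
          have h2 := habs s (by rw [hs.2]; exact hJne)
          rw [hs.2] at h2
          exact (abs_le.1 h2).1
        have h2 := sum_le_sum h1
        rw [sum_const, nsmul_eq_mul] at h2
        refine le_trans ?_ h2
        have h3 : (0 : ℝ) ≤ θ ^ J.card * X.card := by positivity
        have h4 : ((Low.filter (fun s => os E s \ I = J)).card : ℝ) ≤ W.card := by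
          exact_mod_cast hcard
        nlinarith
      rw [hgroup]
      have hsumθ : ∑ J ∈ (univ : Finset ι).powerset, θ ^ J.card = (1 + θ) ^ Fintype.card ι := by
        have := Finset.sum_pow_mul_eq_add_pow θ 1 (univ : Finset ι)
        simp only [one_pow, mul_one, card_univ] at this
        rw [this, add_comm]
      have hempty : (∅ : Finset ι) ∈ (univ : Finset ι).powerset := empty_mem_powerset _
      rw [← add_sum_erase _ _ hempty] at hsumθ ⊢
      rw [hfib0]
      rw [card_empty, pow_zero] at hsumθ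
      have h1 : -(∑ J ∈ (univ : Finset ι).powerset.erase ∅, θ ^ J.card) * (W.card * X.card) ≤
          ∑ J ∈ (univ : Finset ι).powerset.erase ∅,
            ∑ s ∈ Low.filter (fun s => os E s \ I = J), a s := by
        rw [neg_mul, sum_mul, ← sum_neg_distrib]
        refine sum_le_sum fun J hJ' => ?_
        rw [mem_erase] at hJ'
        exact hfib J (nonempty_iff_ne_empty.2 hJ'.1)
      have h2 : ∑ J ∈ (univ : Finset ι).powerset.erase ∅, θ ^ J.card ≤ 1 := by linarith
      have h3 : (0 : ℝ) ≤ W.card * X.card := by positivity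
      nlinarith
  -- the rest
  have hrest : -((numS κ (8 * q) : ℝ) * θ ^ (2 * q)) * X.card ≤
      ∑ s ∈ 𝒮.filter (fun s => ¬ (os E s \ I).card ≤ 2 * q), a s := by
    have h1 : ∀ s ∈ 𝒮.filter (fun s => ¬ (os E s \ I).card ≤ 2 * q),
        -(θ ^ (2 * q) * X.card) ≤ a s := by
      intro s hs
      rw [mem_filter, not_le] at hs
      have h2 := habs s (card_pos.1 (by omega))
      have h3 : θ ^ (os E s \ I).card ≤ θ ^ (2 * q) :=
        pow_le_pow_of_le_one hθ0 hθ1 hs.2.le
      have h4 : θ ^ (os E s \ I).card * X.card ≤ θ ^ (2 * q) * X.card :=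
        mul_le_mul_of_nonneg_right h3 (Nat.cast_nonneg _)
      exact (abs_le.1 (h2.trans h4)).1
    have h2 := sum_le_sum h1
    rw [sum_const, nsmul_eq_mul] at h2
    refine le_trans ?_ h2
    have h3 : ((𝒮.filter (fun s => ¬ (os E s \ I).card ≤ 2 * q)).card : ℝ) ≤
        numS κ (8 * q) := by
      exact_mod_cast card_le_card (filter_subset _ _)
    have h4 : (0 : ℝ) ≤ θ ^ (2 * q) * X.card := by positivity
    nlinarith
  rw [htot, ← sum_filter_add_sum_filter_not 𝒮 (fun s => (os E s \ I).card ≤ 2 * q)]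
  linarith

end Pool.Agent.OB
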