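import Mathlib

/-!
# Tree-like OBDD refutations with conjunction, weakening and reordering: definitions
-/

namespace Pool.Agent.OB

/-- A literal over the variables `V`: a variable together with the value which makes the
literal true. -/
abbrev Lit (V : Type*) := V × Bool

/-- A clause is a finite set of literals, read as their disjunction. -/
abbrev Clause (V : Type*) := Finset (Lit V)

/-- A CNF is a finite set of clauses, read as their conjunction. -/
abbrev CNF (V : Type*) := Finset (Clause V)

/-- The total assignment `x` satisfies the clause `C`. -/
def Sat {V : Type*} (x : V → Bool) (C : Clause V) : Prop := ∃ l ∈ C, x l.1 = l.2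

/-- The CNF `F` is unsatisfiable: every total assignment falsifies one of its clauses. -/
def Unsat {V : Type*} (F : CNF V) : Prop := ∀ x : V → Bool, ∃ C ∈ F, ¬ Sat x C

/-- The clause `C` contains two complementary literals. -/
def Taut {V : Type*} (C : Clause V) : Prop := ∃ v, (v, true) ∈ C ∧ (v, false) ∈ C

/-- A binary decision diagram with `s` nodes over the variables `V`: a root, and for every node
either the output of this sink, or the variable tested there and the successors of the node for
the value false and for the value true of this variable. -/
structure BDD (V : Type*) (s : ℕ) where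
  /-- The root. -/
  root : Fin s
  /-- The label of a node and its successors. -/
  node : Fin s → Bool ⊕ (V × Fin s × Fin s)

/-- `D.Out x i b`: the computation of the diagram `D` on the assignment `x` started in the node
`i` ends in a sink with output `b`. -/
inductive BDD.Out {V : Type*} {s : ℕ} (D : BDD V s) (x : V → Bool) : Fin s → Bool → Prop
  | sink {i : Fin s} {b : Bool} : D.node i = Sum.inl b → BDD.Out D x i b
  | step {i lo hi : Fin s} {v : V} {b : Bool} : D.node i = Sum.inr (v, lo, hi) →
      BDD.Out D x (if x v = true then hi else lo) b → BDD.Out D x i b

/-- The diagram respects the order `σ` of the variables: along every edge between two nodes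
which test variables the position of the tested variable increases. -/
def BDD.Ordered {V : Type*} [Fintype V] {s : ℕ} (D : BDD V s)
    (σ : V ≃ Fin (Fintype.card V)) : Prop :=
  ∀ i v lo hi, D.node i = Sum.inr (v, lo, hi) → ∀ j, (j = lo ∨ j = hi) →
    ∀ v' lo' hi', D.node j = Sum.inr (v', lo', hi') → σ v < σ v'

/-- There is an ordered binary decision diagram (OBDD) with `s` nodes for the order `σ` which
computes the function `f`. -/
def HasOBDD {V : Type*} [Fintype V] (σ : V ≃ Fin (Fintype.card V)) (s : ℕ)
    (f : (V → Bool) → Bool) : Prop :=
  ∃ D : BDD V s, D.Ordered σ ∧ ∀ x, D.Out x D.root (f x)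

/-- `OTree F s σ f T`: there is a tree-like derivation from the CNF `F`, with `T` lines, of an
OBDD for the order `σ` which computes `f`. The lines are OBDDs with at most `s` nodes. The leaves
are OBDDs of clauses of `F` for any order. Rules: from one or two OBDDs with the same order derive
any OBDD with this order which they imply (weakening; conjunction and weakening), and from an
OBDD derive any OBDD of the same function for any other order (reordering). The number of
different orders is not bounded. -/
inductive OTree {V : Type*} [Fintype V] (F : CNF V) (s : ℕ) :
    (V ≃ Fin (Fintype.card V)) → ((V → Bool) → Bool) → ℕ → Prop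
  | ax {C : Clause V} {σ : V ≃ Fin (Fintype.card V)} {f : (V → Bool) → Bool} {s' : ℕ} :
      C ∈ F → (∀ x, f x = true ↔ Sat x C) → s' ≤ s → HasOBDD σ s' f → OTree F s σ f 1
  | weaken {σ : V ≃ Fin (Fintype.card V)} {f h : (V → Bool) → Bool} {T s' : ℕ} :
      OTree F s σ f T → (∀ x, f x = true → h x = true) → s' ≤ s → HasOBDD σ s' h →
      OTree F s σ h (T + 1)
  | join {σ : V ≃ Fin (Fintype.card V)} {f g h : (V → Bool) → Bool} {T T' s' : ℕ} :
      OTree F s σ f T → OTree F s σ g T' → (∀ x, f x = true → g x = true → h x = true) →
      s' ≤ s → HasOBDD σ s' h → OTree F s σ h (T + T' + 1)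
  | reorder {σ σ' : V ≃ Fin (Fintype.card V)} {f : (V → Bool) → Bool} {T s' : ℕ} :
      OTree F s σ f T → s' ≤ s → HasOBDD σ' s' f → OTree F s σ' f (T + 1)

end Pool.Agent.OB
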