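import Mathlib
import Pool.Agent.Lib_helper80.OB.ODefs

/-!
# Tree-like refutations with simple inferences: definitions
-/

namespace Pool.Agent.OB

/-- The assignment which agrees with `x` on `A` and with `y` off `A`. -/
def mix {V : Type*} [DecidableEq V] (A : Finset V) (x y : V → Bool) : V → Bool :=
  fun v => if v ∈ A then x v else y v

/-- The set `A` contains at least one third and at most two thirds of the variables. -/
def Balanced {V : Type*} [Fintype V] (A : Finset V) : Prop :=
  Fintype.card V ≤ 3 * A.card ∧ 3 * A.card ≤ 2 * Fintype.card V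

/-- The Boolean functions in the list `fs` are together `K`-simple: for some balanced set `A` of
variables the assignments can be divided into at most `K` classes, each closed under mixing
with respect to `A`, such that every function in the list is constant on each class. -/
def Simple {V : Type*} [Fintype V] [DecidableEq V] (K : ℕ) (fs : List ((V → Bool) → Bool)) :
    Prop :=
  ∃ A : Finset V, Balanced A ∧ ∃ c : (V → Bool) → Fin K,
    (∀ x y, c x = c y → c (mix A x y) = c x) ∧
    ∀ f ∈ fs, ∀ x y, c x = c y → f x = f y

/-- `Tree F K f T`: there is a tree-like derivation of the line `f` from the CNF `F` with `T`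
lines, in which every line is a Boolean function, each leaf is a clause of `F`, and each
other line is implied by one or two lines which together with it are `K`-simple. -/
inductive Tree {V : Type*} [Fintype V] [DecidableEq V] (F : CNF V) (K : ℕ) :
    ((V → Bool) → Bool) → ℕ → Prop
  | ax {C : Clause V} {f : (V → Bool) → Bool} :
      C ∈ F → (∀ x, f x = true ↔ Sat x C) → Tree F K f 1
  | one {f h : (V → Bool) → Bool} {T : ℕ} :
      Tree F K f T → (∀ x, f x = true → h x = true) → Simple K [f, h] → Tree F K h (T + 1)
  | two {f g h : (V → Bool) → Bool} {T T' : ℕ} :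
      Tree F K f T → Tree F K g T' → (∀ x, f x = true → g x = true → h x = true) →
      Simple K [f, g, h] → Tree F K h (T + T' + 1)

/-- The main statement. -/
def Stmt : Prop :=
  ∃ e : ℕ, ∀ᶠ q : ℕ in Filter.atTop,
    ∃ (V : Type) (_ : Fintype V) (_ : DecidableEq V) (F : CNF V),
      Fintype.card V ≤ q ^ e ∧ F.card ≤ q ^ e ∧
      (∀ C ∈ F, C.card ≤ e * Nat.log 2 q ∧ ¬ Taut C) ∧ Unsat F ∧
      (∀ K T, Tree F K (fun _ => false) T → 2 ^ q ≤ T * K) ∧
      (∀ s σ T, OTree F s σ (fun _ => false) T → 2 ^ q ≤ T * s ^ 3)

end Pool.Agent.OB
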