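import Mathlib
import Pool.Agent.Lib_helper80.OB.Defs
import Pool.Agent.Lib_helper80.SR.Fr

/-!
# Working definitions for the lower bound on tree-like refutations with simple inferences

`fr p` is the fraction of the elements of a finite type with property `p` and `av f` the
average of `f` (file `SR/Fr.lean`).
-/

namespace Pool.Agent.OB

open Finset

/-- The sign of a bit. -/
def sg (b : Bool) : ℝ := if b then -1 else 1

section Rows

variable {ι κ : Type} [Fintype ι] [DecidableEq ι] [Fintype κ] [DecidableEq κ]

/-- The row `c` (an equation modulo 2 in the blocks `E c 0, ..., E c 4` with right-hand side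
`b c`) evaluated at the signs `ζ`: it is `-1` if and only if the equation is violated. -/
def rowv (E : κ → Fin 5 → ι) (b : κ → Bool) (c : κ) (ζ : ι → ℝ) : ℝ :=
  sg (b c) * ∏ j, ζ (E c j)

/-- The product of the rows in `s`. -/
def prs (E : κ → Fin 5 → ι) (b : κ → Bool) (s : Finset κ) (ζ : ι → ℝ) : ℝ :=
  ∏ c ∈ s, rowv E b c ζ

/-- The sum of the products of at most `r` rows. -/
def dens (E : κ → Fin 5 → ι) (b : κ → Bool) (r : ℕ) (ζ : ι → ℝ) : ℝ :=
  ∑ s ∈ univ.filter (fun s : Finset κ => s.card ≤ r), prs E b s ζ

/-- The number of sets of at most `r` rows. -/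
def numS (κ : Type) [Fintype κ] [DecidableEq κ] (r : ℕ) : ℕ :=
  (univ.filter fun s : Finset κ => s.card ≤ r).card

/-- The blocks which occur an odd number of times in the rows of `s`. -/
def os (E : κ → Fin 5 → ι) (s : Finset κ) : Finset ι :=
  univ.filter fun i => Odd (∑ c ∈ s, (univ.filter fun j => E c j = i).card)

/-- Expansion: a set of at most `r` rows has at least as many odd blocks as rows. -/
def Expand (E : κ → Fin 5 → ι) (r : ℕ) : Prop :=
  ∀ s : Finset κ, s.card ≤ r → s.card ≤ (os E s).card

/-- The system has no solution. -/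
def NoSol (E : κ → Fin 5 → ι) (b : κ → Bool) : Prop :=
  ∀ z : ι → Bool, ∃ c, rowv E b c (fun i => sg (z i)) = -1

end Rows

section Gadget

variable {P : Type} [Fintype P] [DecidableEq P] {l ρ : ℕ}

/-- The cells of a block: `l` pointer bits, and `ρ` table cells for every address. -/
abbrev Cell (l ρ : ℕ) : Type := Fin l ⊕ ((Fin l → Bool) × Fin ρ)

/-- The pointer of the block placed by `pl`. -/
def ptr (pl : Cell l ρ → P) (w : P → Bool) : Fin l → Bool := fun j => w (pl (Sum.inl j))

/-- The sign of the block placed by `pl`: the product of the signs of the table cells at the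
address given by the pointer. -/
def bv (pl : Cell l ρ → P) (w : P → Bool) : ℝ :=
  ∏ j : Fin ρ, sg (w (pl (Sum.inr (ptr pl w, j))))

/-- The block placed by `pl` is bad for `A`: less than `a` pointer bits are in `A`, or all table
cells of some address are in `A`. -/
def Bad (a : ℕ) (A : Finset P) (pl : Cell l ρ → P) : Prop :=
  (univ.filter fun j : Fin l => pl (Sum.inl j) ∈ A).card < a ∨
    ∃ x : Fin l → Bool, ∀ j : Fin ρ, pl (Sum.inr (x, j)) ∈ A

/-- The fraction of `A` in the pool is between 1/4 and 3/4. -/
def PBal (A : Finset P) : Prop :=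
  Fintype.card P ≤ 4 * A.card ∧ 4 * A.card ≤ 3 * Fintype.card P

end Gadget

/-- The error in the positivity lemma (`H`: number of sets of at most `8 q` rows, `n` blocks). -/
noncomputable def epsf (H : ℝ) (n q h : ℕ) : ℝ :=
  H * ((n : ℝ) / h) ^ (2 * q) +
    H * (2 * Real.exp (-((n : ℝ) ^ 2 / 2)) * ((h : ℝ) ^ 4 + 2) ^ n) + H / (h : ℝ) ^ q

end Pool.Agent.OB
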