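import Pool.Agent.Lib_helper80.OB.Stmts

/-!
# The iterated Hoeffding inequality
-/

namespace Pool.Agent.OB

open Finset Pool.Agent.SR

theorem ch_fr_false {Ω : Type*} [Fintype Ω] (p : Ω → Prop) (h : ∀ ω, ¬ p ω) : fr p = 0 := by
  classical
  rw [fr_eq, Finset.filter_false_of_mem (fun ω _ => h ω)]
  simp

/-- Averaging one coordinate. -/
theorem ch_av_update {ι X : Type*} [Fintype ι] [DecidableEq ι] [Fintype X] [Nonempty X] (i : ι)
    (F : (ι → X) → ℝ) : av F = av fun y : ι → X => av fun z : X => F (Function.update y i z) := by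
  classical
  unfold av
  rw [← Finset.sum_div, div_div]
  have hinv : Function.Involutive fun p : (ι → X) × X => (Function.update p.1 i p.2, p.1 i) := by
    rintro ⟨y, z⟩
    simp
  have h1 : ∑ y : ι → X, ∑ z : X, F (Function.update y i z) =
      (Fintype.card X : ℝ) * ∑ y, F y := by
    rw [← Fintype.sum_prod_type' (f := fun (y : ι → X) (z : X) => F (Function.update y i z))]
    have h2 := Equiv.sum_comp (Function.Involutive.toPerm _ hinv) (fun p : (ι → X) × X => F p.1)
    have h3 : ∑ p : (ι → X) × X, F p.1 = (Fintype.card X : ℝ) * ∑ y, F y := by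
      rw [Fintype.sum_prod_type, Finset.mul_sum]
      refine Finset.sum_congr rfl fun y _ => ?_
      simp
    rw [← h3, ← h2]
    rfl
  rw [h1]
  have h0 : (Fintype.card X : ℝ) ≠ 0 := by exact_mod_cast Fintype.card_ne_zero
  rw [mul_div_mul_left _ _ h0]

theorem ch_fr_update_le {ι X : Type*} [Fintype ι] [DecidableEq ι] [Fintype X] [Nonempty X]
    (i : ι) (p : (ι → X) → Prop) {r : ℝ}
    (h : ∀ y : ι → X, fr (fun z : X => p (Function.update y i z)) ≤ r) : fr p ≤ r := by
  classical
  rw [fr_eq_av, ch_av_update i]
  have h1 : ∀ y : ι → X,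
      (av fun z : X => if p (Function.update y i z) then (1 : ℝ) else 0) ≤ r := by
    intro y
    rw [← fr_eq_av (fun z : X => p (Function.update y i z))]
    exact h y
  have h2 : (av fun y : ι → X => r) = r := by
    have := av_const_mul (Ω := ι → X) r fun _ => (1 : ℝ)
    simp only [mul_one] at this
    rw [this, av_one, mul_one]
  rw [← h2]
  exact av_mono h1

theorem ch_sum_inj {U T : Type*} [Fintype U] [Fintype T] [DecidableEq T] (e : U → T)
    (he : Function.Injective e) (F : T → ℝ) (h0 : ∀ z, (∀ v, e v ≠ z) → F z = 0) :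
    ∑ z, F z = ∑ v, F (e v) := by
  classical
  rw [← Finset.sum_image (s := univ) (g := e) (f := F) (fun a _ b _ h => he h)]
  symm
  refine Finset.sum_subset (Finset.subset_univ _) fun z _ hz => h0 z fun v hv => hz ?_
  exact Finset.mem_image.2 ⟨v, Finset.mem_univ _, hv⟩

theorem chaos (hoeff : StmtHoeff) : StmtChaos := by
  classical
  intro ι U T _ _ _ _ _ _ h hU emb J
  -- the statement does not depend on the decidability instances in the filter
  induction J using Finset.induction_on with
  | empty =>
    intro _ c C L hC hL hc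
    have h1 : ∀ y : ι → T → Bool, ¬ ((L * (h : ℝ) ^ 2) ^ (∅ : Finset ι).card * C <
        |∑ u : ι → U, c u * ∏ i ∈ (∅ : Finset ι), sg (y i (emb i (u i)))|) := by
      intro y
      rw [not_lt, Finset.card_empty, pow_zero, one_mul]
      simp only [Finset.prod_empty, mul_one]
      by_cases hne : Nonempty (ι → U)
      · obtain ⟨β⟩ := hne
        have := hc β
        simpa using this
      · rw [not_nonempty_iff] at hne
        simpa using hC
    rw [ch_fr_false _ h1]
    positivity
  | insert i J hiJ ih =>
    intro hemb c C L hC hL hc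
    have hembJ : ∀ k ∈ J, Function.Injective (emb k) := fun k hk =>
      hemb k (Finset.mem_insert_of_mem hk)
    have hembi : Function.Injective (emb i) := hemb i (Finset.mem_insert_self _ _)
    set Lh : ℝ := L * (h : ℝ) ^ 2 with hLh
    have hLh0 : 0 ≤ Lh := by positivity
    set pj : ℝ := 2 * Real.exp (-(L ^ 2 / 2)) * ((h : ℝ) ^ 4 + 1) ^ J.card with hpj
    let cv : U → (ι → U) → ℝ := fun v u => if u i = v then c u else 0
    let a : U → (ι → T → Bool) → ℝ := fun v y =>
      ∑ u, cv v u * ∏ k ∈ J, sg (y k (emb k (u k)))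
    have hcv : ∀ (v : U) (β : ι → U),
        |∑ u ∈ univ.filter (fun u : ι → U => ∀ k ∈ J, u k = β k), cv v u| ≤ C := by
      intro v β
      have h1 := hc (Function.update β i v)
      have h2 : ∑ u ∈ univ.filter (fun u : ι → U => ∀ k ∈ J, u k = β k), cv v u =
          ∑ u ∈ univ.filter (fun u : ι → U => ∀ k ∈ insert i J, u k = Function.update β i v k),
            c u := by
        rw [← Finset.sum_filter, Finset.filter_filter]
        refine Finset.sum_congr ?_ fun _ _ => rfl
        refine Finset.filter_congr fun u _ => ?_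
        constructor
        · rintro ⟨h3, h4⟩ k hk
          rcases Finset.mem_insert.1 hk with rfl | hk
          · simpa using h4
          · have hki : k ≠ i := fun hki => hiJ (hki ▸ hk)
            rw [Function.update_of_ne hki]
            exact h3 k hk
        · intro h3
          refine ⟨fun k hk => ?_, ?_⟩
          · have hki : k ≠ i := fun hki => hiJ (hki ▸ hk)
            have := h3 k (Finset.mem_insert_of_mem hk)
            rwa [Function.update_of_ne hki] at this
          · have := h3 i (Finset.mem_insert_self _ _)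
            simpa using this
      rw [h2]
      exact h1
    have hB : ∀ v : U, fr (fun y : ι → T → Bool => Lh ^ J.card * C < |a v y|) ≤ pj := by
      intro v
      exact ih hembJ (cv v) C L hC hL (hcv v)
    have hsum : ∀ y : ι → T → Bool,
        ∑ u, c u * ∏ k ∈ insert i J, sg (y k (emb k (u k))) =
          ∑ v, sg (y i (emb i v)) * a v y := by
      intro y
      simp only [a, cv, Finset.mul_sum]
      rw [Finset.sum_comm]
      refine Finset.sum_congr rfl fun u _ => ?_
      rw [Finset.prod_insert hiJ, Finset.sum_eq_single (u i)]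
      · simp only [if_true]
        ring
      · intro v _ hv
        rw [if_neg (fun h => hv h.symm)]
        ring
      · intro h
        exact absurd (Finset.mem_univ _) h
    have hfr1 : fr (fun y : ι → T → Bool => Lh ^ (insert i J).card * C <
        |∑ u, c u * ∏ k ∈ insert i J, sg (y k (emb k (u k)))|) ≤
        fr (fun y : ι → T → Bool => ∃ v ∈ (univ : Finset U), Lh ^ J.card * C < |a v y|) +
        fr (fun y : ι → T → Bool => (∀ v, |a v y| ≤ Lh ^ J.card * C) ∧
          Lh ^ (J.card + 1) * C < |∑ v, sg (y i (emb i v)) * a v y|) := by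
      refine le_trans (fr_mono ?_) (fr_or_le _ _)
      intro y hy
      by_cases hex : ∃ v ∈ (univ : Finset U), Lh ^ J.card * C < |a v y|
      · exact Or.inl hex
      · refine Or.inr ⟨fun v => ?_, ?_⟩
        · by_contra hv
          exact hex ⟨v, Finset.mem_univ _, not_le.1 hv⟩
        · rw [← hsum y, ← Finset.card_insert_of_notMem hiJ]
          exact hy
    have hfr2 : fr (fun y : ι → T → Bool => ∃ v ∈ (univ : Finset U),
        Lh ^ J.card * C < |a v y|) ≤ (h : ℝ) ^ 4 * pj := by
      refine (fr_exists_le _ _).trans ((Finset.sum_le_sum fun v _ => hB v).trans ?_)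
      rw [Finset.sum_const, Finset.card_univ, hU, nsmul_eq_mul]
      push_cast
      exact le_rfl
    have hfr3 : fr (fun y : ι → T → Bool => (∀ v, |a v y| ≤ Lh ^ J.card * C) ∧
          Lh ^ (J.card + 1) * C < |∑ v, sg (y i (emb i v)) * a v y|) ≤
        2 * Real.exp (-(L ^ 2 / 2)) := by
      refine ch_fr_update_le i _ fun y => ?_
      have hau : ∀ (z : T → Bool) (v : U), a v (Function.update y i z) = a v y := by
        intro z v
        simp only [a]
        refine Finset.sum_congr rfl fun u _ => ?_
        congr 1
        refine Finset.prod_congr rfl fun k hk => ?_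
        have hki : k ≠ i := fun hki => hiJ (hki ▸ hk)
        rw [Function.update_of_ne hki]
      by_cases hall : ∀ v, |a v y| ≤ Lh ^ J.card * C
      · let b : T → ℝ := Function.extend (emb i) (fun v => a v y) 0
        have hb : ∀ v, b (emb i v) = a v y := fun v => hembi.extend_apply _ _ v
        have hb0 : ∀ z, (∀ v, emb i v ≠ z) → b z = 0 := by
          intro z hz
          have : ¬ ∃ v, emb i v = z := fun ⟨v, hv⟩ => hz v hv
          simp only [b]
          rw [Function.extend_apply' _ _ _ this]
          rfl
        have hv0 : (0 : ℝ) ≤ (h : ℝ) ^ 2 * (Lh ^ J.card * C) := by positivity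
        have hsq : ∑ z, b z ^ 2 ≤ ((h : ℝ) ^ 2 * (Lh ^ J.card * C)) ^ 2 := by
          rw [ch_sum_inj (emb i) hembi (fun z => b z ^ 2)
            (fun z hz => by rw [hb0 z hz]; ring)]
          calc ∑ v, b (emb i v) ^ 2 ≤ ∑ _v : U, (Lh ^ J.card * C) ^ 2 := by
                refine Finset.sum_le_sum fun v _ => ?_
                rw [hb v, ← sq_abs]
                exact pow_le_pow_left₀ (abs_nonneg _) (hall v) 2
            _ = ((h : ℝ) ^ 2 * (Lh ^ J.card * C)) ^ 2 := by
                rw [Finset.sum_const, Finset.card_univ, hU, nsmul_eq_mul]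
                push_cast
                ring
        refine le_trans (fr_mono fun z hz => ?_)
          (hoeff T inferInstance inferInstance b _ L hv0 hsq hL)
        obtain ⟨-, hz2⟩ := hz
        have h5 : ∑ v, sg (Function.update y i z i (emb i v)) * a v (Function.update y i z) =
            ∑ z', sg (z z') * b z' := by
          rw [ch_sum_inj (emb i) hembi (fun z' => sg (z z') * b z')
            (fun z' hz' => by rw [hb0 z' hz']; ring)]
          refine Finset.sum_congr rfl fun v _ => ?_
          rw [Function.update_self, hau, hb v]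
        rw [h5] at hz2
        refine lt_of_eq_of_lt ?_ hz2
        rw [hLh]
        ring
      · rw [ch_fr_false]
        · positivity
        · rintro z ⟨h1, -⟩
          refine hall fun v => ?_
          have := h1 v
          rwa [hau] at this
    refine hfr1.trans ((add_le_add hfr2 hfr3).trans ?_)
    rw [Finset.card_insert_of_notMem hiJ, pow_succ]
    have he : 0 ≤ 2 * Real.exp (-(L ^ 2 / 2)) := by positivity
    have h1 : (1 : ℝ) ≤ ((h : ℝ) ^ 4 + 1) ^ J.card := one_le_pow₀ (by
      have : (0 : ℝ) ≤ (h : ℝ) ^ 4 := by positivity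
      linarith)
    rw [hpj]
    have h2 := mul_le_mul_of_nonneg_left h1 he
    rw [mul_one] at h2
    calc (h : ℝ) ^ 4 * (2 * Real.exp (-(L ^ 2 / 2)) * ((h : ℝ) ^ 4 + 1) ^ J.card) +
          2 * Real.exp (-(L ^ 2 / 2))
        ≤ (h : ℝ) ^ 4 * (2 * Real.exp (-(L ^ 2 / 2)) * ((h : ℝ) ^ 4 + 1) ^ J.card) +
          2 * Real.exp (-(L ^ 2 / 2)) * ((h : ℝ) ^ 4 + 1) ^ J.card := by linarith
      _ = 2 * Real.exp (-(L ^ 2 / 2)) * (((h : ℝ) ^ 4 + 1) ^ J.card * ((h : ℝ) ^ 4 + 1)) := by
          ring

end Pool.Agent.OB
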