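import Pool.Agent.Lib_helper80.OB.Stmts

/-!
# The CNF: size, width, unsatisfiability, and its clauses after fixing the selectors
-/

namespace Pool.Agent.OB

open Finset Pool.Agent.SR

section Clauses

variable {ι κ P : Type} [Fintype ι] [DecidableEq ι] [Fintype κ] [DecidableEq κ] [Fintype P]
  [DecidableEq P] {r₀ l ρ : ℕ}

lemma bnot_eq_iff {a b : Bool} : ¬ (a = !b) ↔ a = b := by
  cases a <;> cases b <;> simp

omit [Fintype ι] [Fintype κ] [DecidableEq κ] [Fintype P] in
/-- the clause is falsified -/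
lemma not_sat_iff (E : κ → Fin 5 → ι) (loc : ι → (Fin r₀ → Bool) → Cell l ρ → P) (c : κ)
    (τ : Fin 5 → (Fin r₀ → Bool) × (Fin l → Bool) × (Fin ρ → Bool))
    (σ : ι → Fin r₀ → Bool) (w : P → Bool) :
    ¬ Sat (joinA σ w) (clauseOf E loc c τ) ↔
      ∀ j, σ (E c j) = (τ j).1 ∧
        (∀ k, w (loc (E c j) (τ j).1 (Sum.inl k)) = (τ j).2.1 k) ∧
        (∀ k, w (loc (E c j) (τ j).1 (Sum.inr ((τ j).2.1, k))) = (τ j).2.2 k) := by
  constructor
  · intro h j
    have h' : ∀ l ∈ clauseOf E loc c τ, ¬ (joinA σ w l.1 = l.2) := fun l hl he => h ⟨l, hl, he⟩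
    refine ⟨?_, ?_, ?_⟩
    · funext k
      have := h' (Sum.inl (E c j, k), !(τ j).1 k) (by
        unfold clauseOf
        rw [mem_biUnion]
        refine ⟨j, mem_univ _, ?_⟩
        rw [mem_union, mem_union]
        exact Or.inl (Or.inl (mem_image_of_mem _ (mem_univ k))))
      exact bnot_eq_iff.1 this
    · intro k
      have := h' (Sum.inr (loc (E c j) (τ j).1 (Sum.inl k)), !(τ j).2.1 k) (by
        unfold clauseOf
        rw [mem_biUnion]
        refine ⟨j, mem_univ _, ?_⟩
        rw [mem_union, mem_union]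
        exact Or.inl (Or.inr (mem_image_of_mem (fun k : Fin l =>
          ((Sum.inr (loc (E c j) (τ j).1 (Sum.inl k)) : (ι × Fin r₀) ⊕ P), !(τ j).2.1 k))
          (mem_univ k))))
      exact bnot_eq_iff.1 this
    · intro k
      have := h' (Sum.inr (loc (E c j) (τ j).1 (Sum.inr ((τ j).2.1, k))), !(τ j).2.2 k) (by
        unfold clauseOf
        rw [mem_biUnion]
        refine ⟨j, mem_univ _, ?_⟩
        rw [mem_union, mem_union]
        exact Or.inr (mem_image_of_mem (fun k : Fin ρ =>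
          ((Sum.inr (loc (E c j) (τ j).1 (Sum.inr ((τ j).2.1, k))) : (ι × Fin r₀) ⊕ P),
            !(τ j).2.2 k)) (mem_univ k)))
      exact bnot_eq_iff.1 this
  · rintro h ⟨lit, hl, he⟩
    unfold clauseOf at hl
    rw [mem_biUnion] at hl
    obtain ⟨j, _, hl⟩ := hl
    obtain ⟨h1, h2, h3⟩ := h j
    rw [mem_union, mem_union, mem_image, mem_image, mem_image] at hl
    rcases hl with (⟨k, _, rfl⟩ | ⟨k, _, rfl⟩) | ⟨k, _, rfl⟩
    · exact bnot_eq_iff.2 (congrFun h1 k) he
    · exact bnot_eq_iff.2 (h2 k) he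
    · exact bnot_eq_iff.2 (h3 k) he

omit [Fintype ι] [DecidableEq ι] [Fintype P] [DecidableEq P] in
lemma bv_eq {loc : ι → (Fin r₀ → Bool) → Cell l ρ → P} {i : ι} {s : Fin r₀ → Bool}
    {w : P → Bool} {u : Fin l → Bool} {v : Fin ρ → Bool}
    (h2 : ∀ k, w (loc i s (Sum.inl k)) = u k)
    (h3 : ∀ k, w (loc i s (Sum.inr (u, k))) = v k) :
    bv (loc i s) w = ∏ k, sg (v k) := by
  have e : ptr (loc i s) w = u := funext h2
  unfold bv
  rw [e]
  exact prod_congr rfl fun k _ => by rw [h3 k]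

lemma sg_prod_pm {α : Type} (s : Finset α) (f : α → Bool) :
    ∏ k ∈ s, sg (f k) = 1 ∨ ∏ k ∈ s, sg (f k) = -1 := by
  classical
  induction s using Finset.induction_on with
  | empty => left; simp
  | insert a s ha ih =>
    rw [prod_insert ha]
    have : sg (f a) = 1 ∨ sg (f a) = -1 := by
      unfold sg
      cases f a <;> simp
    rcases this with h | h <;> rcases ih with h' | h' <;> rw [h, h'] <;> norm_num

end Clauses

theorem cnf1 : StmtCnf1 := by
  classical
  intro ι κ P _ _ _ _ _ _ r₀ l ρ E b loc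
  refine ⟨?_, ?_, ?_⟩
  · unfold cnfOf
    refine (card_filter_le _ _).trans (card_image_le.trans ((card_filter_le _ _).trans ?_))
    rw [card_univ]
    simp only [Fintype.card_prod, Fintype.card_fun, Fintype.card_bool, Fintype.card_fin]
    exact le_rfl
  · intro C hC
    unfold cnfOf at hC
    rw [mem_filter, mem_image] at hC
    obtain ⟨⟨p, _, rfl⟩, hT⟩ := hC
    refine ⟨?_, hT⟩
    unfold clauseOf
    refine card_biUnion_le.trans ?_
    have : ∀ j ∈ (univ : Finset (Fin 5)), ((univ.image fun k : Fin r₀ =>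
        ((Sum.inl (E p.1 j, k) : (ι × Fin r₀) ⊕ P), !(p.2 j).1 k)) ∪
        (univ.image fun k : Fin l =>
          ((Sum.inr (loc (E p.1 j) (p.2 j).1 (Sum.inl k)) : (ι × Fin r₀) ⊕ P), !(p.2 j).2.1 k)) ∪
        (univ.image fun k : Fin ρ =>
          ((Sum.inr (loc (E p.1 j) (p.2 j).1 (Sum.inr ((p.2 j).2.1, k))) : (ι × Fin r₀) ⊕ P),
            !(p.2 j).2.2 k))).card ≤ r₀ + l + ρ := by
      intro j _
      refine (card_union_le _ _).trans (add_le_add ((card_union_le _ _).trans
        (add_le_add ?_ ?_)) ?_)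
      · exact card_image_le.trans (by simp)
      · exact card_image_le.trans (by simp)
      · exact card_image_le.trans (by simp)
    refine (sum_le_sum this).trans ?_
    simp
  · intro hN x
    set σ : ι → Fin r₀ → Bool := fun i k => x (Sum.inl (i, k)) with hσ
    set w : P → Bool := fun p => x (Sum.inr p) with hw
    have hx : x = joinA σ w := by
      funext v
      rcases v with v | v <;> rfl
    obtain ⟨c, hc⟩ := hN fun i => decide (bv (loc i (σ i)) w = -1)
    set τ : Fin 5 → (Fin r₀ → Bool) × (Fin l → Bool) × (Fin ρ → Bool) := fun j =>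
      (σ (E c j), ptr (loc (E c j) (σ (E c j))) w,
        fun k => w (loc (E c j) (σ (E c j)) (Sum.inr (ptr (loc (E c j) (σ (E c j))) w, k))))
      with hτ
    have hz : ∀ i, sg (decide (bv (loc i (σ i)) w = -1)) = bv (loc i (σ i)) w := by
      intro i
      have h1 : bv (loc i (σ i)) w = 1 ∨ bv (loc i (σ i)) w = -1 := sg_prod_pm _ _
      rcases h1 with h | h
      · rw [h]; unfold sg; norm_num
      · rw [h]; unfold sg; norm_num
    have hns : ¬ Sat x (clauseOf E loc c τ) := by
      rw [hx, not_sat_iff]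
      intro j
      exact ⟨rfl, fun k => rfl, fun k => rfl⟩
    refine ⟨clauseOf E loc c τ, ?_, hns⟩
    unfold cnfOf
    rw [mem_filter, mem_image]
    refine ⟨⟨(c, τ), ?_, rfl⟩, ?_⟩
    · rw [mem_filter]
      refine ⟨mem_univ _, ?_⟩
      unfold rowv at hc
      rw [← hc]
      congr 1
      refine prod_congr rfl fun j _ => ?_
      exact (hz (E c j)).symm
    · rintro ⟨v, h1, h2⟩
      apply hns
      cases hv : x v with
      | true => exact ⟨_, h1, hv⟩
      | false => exact ⟨_, h2, hv⟩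

theorem cnf2 : StmtCnf2 := by
  classical
  intro ι κ P _ _ _ _ _ _ r₀ l ρ E b loc σ C hC
  unfold cnfOf at hC
  rw [mem_filter, mem_image] at hC
  obtain ⟨⟨⟨c, τ⟩, hp, rfl⟩, _⟩ := hC
  rw [mem_filter] at hp
  refine ⟨c, ?_, ?_⟩
  · intro w hw
    rw [not_sat_iff] at hw
    have hp2 := hp.2
    simp only at hp2
    unfold rowv
    rw [← hp2]
    congr 1
    refine prod_congr rfl fun j _ => ?_
    obtain ⟨h1, h2, h3⟩ := hw j
    simp only
    rw [h1]
    exact bv_eq h2 h3
  · intro w w' hww hw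
    rw [not_sat_iff] at hw ⊢
    intro j
    obtain ⟨h1, h2, h3⟩ := hw j
    refine ⟨h1, fun k => ?_, fun k => ?_⟩
    · rw [← h2 k, ← h1]
      exact (hww j _).symm
    · rw [← h3 k, ← h1]
      exact (hww j _).symm

theorem bal : StmtBal := by
  intro ι P _ _ _ _ r₀ h8 A hA
  set A' : Finset P := univ.filter fun p : P => (Sum.inr p : (ι × Fin r₀) ⊕ P) ∈ A with hA'
  have hV : Fintype.card ((ι × Fin r₀) ⊕ P) = Fintype.card ι * r₀ + Fintype.card P := by
    simp [Fintype.card_sum, Fintype.card_prod]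
  have h1 : A'.card ≤ A.card := by
    refine card_le_card_of_injOn (fun p => (Sum.inr p : (ι × Fin r₀) ⊕ P)) ?_ ?_
    · intro p hp
      exact (mem_filter.1 (mem_coe.1 hp)).2
    · intro p _ p' _ h
      exact Sum.inr_injective h
  have h2 : A.card ≤ Fintype.card ι * r₀ + A'.card := by
    have hsub : A ⊆ (univ.image fun z : ι × Fin r₀ => (Sum.inl z : (ι × Fin r₀) ⊕ P)) ∪
        A'.image fun p => (Sum.inr p : (ι × Fin r₀) ⊕ P) := by
      intro v hv
      rw [mem_union, mem_image, mem_image]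
      rcases v with z | p
      · exact Or.inl ⟨z, mem_univ _, rfl⟩
      · exact Or.inr ⟨p, mem_filter.2 ⟨mem_univ _, hv⟩, rfl⟩
    refine (card_le_card hsub).trans ((card_union_le _ _).trans (add_le_add ?_ card_image_le))
    refine card_image_le.trans ?_
    simp
  obtain ⟨b1, b2⟩ := hA
  rw [hV] at b1 b2
  constructor <;> omega

end Pool.Agent.OB
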