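import Pool.Agent.Lib_helper80.OB.Stmts
import Pool.Agent.Lib_helper80.SR.Hyp

/-!
# Existence of the expanding system without solution
-/

namespace Pool.Agent.OB

open Finset Pool.Agent.SR

namespace ExpdAux

theorem sg_cases (b : Bool) : sg b = 1 ∨ sg b = -1 := by
  cases b <;> simp [sg]

theorem prod_sg_cases {α : Type*} (s : Finset α) (f : α → ℝ) (hf : ∀ i, f i = 1 ∨ f i = -1) :
    (∏ i ∈ s, f i) = 1 ∨ (∏ i ∈ s, f i) = -1 := by
  classical
  induction s using Finset.induction_on with
  | empty => left; simp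
  | insert a s ha ih =>
    rw [Finset.prod_insert ha]
    rcases hf a with h | h <;> rcases ih with h' | h' <;> rw [h, h'] <;> norm_num

/-- the right-hand sides can be chosen such that there is no solution -/
theorem noSol_exists {n m : ℕ} (h : n < m) (E : Fin m → Fin 5 → Fin n) :
    ∃ b : Fin m → Bool, NoSol E b := by
  classical
  let β : (Fin n → Bool) → (Fin m → Bool) := fun z c => decide (∏ j, sg (z (E c j)) = -1)
  have hβ : ∀ z c, ∏ j, sg (z (E c j)) = sg (β z c) := by
    intro z c
    have h1 : sg (β z c) = if ∏ j, sg (z (E c j)) = -1 then -1 else 1 := by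
      simp [β, sg]
    rw [h1]
    rcases prod_sg_cases univ (fun j => sg (z (E c j))) (fun j => sg_cases _) with h2 | h2
    · rw [h2]; norm_num
    · rw [h2]; norm_num
  have hns : ¬ Function.Surjective β := by
    intro hs
    have := Fintype.card_le_of_surjective _ hs
    rw [Fintype.card_fun, Fintype.card_fun, Fintype.card_bool, Fintype.card_fin,
      Fintype.card_fin] at this
    exact absurd (Nat.pow_lt_pow_right (by norm_num) h) (not_lt.2 this)
  unfold Function.Surjective at hns
  push Not at hns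
  obtain ⟨b, hb⟩ := hns
  refine ⟨b, fun z => ?_⟩
  obtain ⟨c, hc⟩ : ∃ c, β z c ≠ b c := by
    by_contra hcon
    push Not at hcon
    exact hb z (funext hcon)
  refine ⟨c, ?_⟩
  unfold rowv
  rw [hβ]
  revert hc
  cases β z c <;> cases b c <;> simp [sg]

/-- expansion of the unions gives expansion of the odd supports -/
theorem expand_of {n m r : ℕ} (E : Fin m → Fin 5 → Fin n)
    (h : ∀ J : Finset (Fin m), J.Nonempty → J.card ≤ r → 3 * J.card ≤ (J.biUnion (edge E)).card) :
    Expand E r := by
  classical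
  intro s hs
  rcases s.eq_empty_or_nonempty with rfl | hne
  · simp
  set cnt : Fin n → ℕ := fun i => ∑ c ∈ s, (univ.filter fun j => E c j = i).card with hcnt
  have hsum : ∑ i, cnt i = 5 * s.card := by
    rw [hcnt]
    simp only
    rw [Finset.sum_comm]
    have : ∀ c, ∑ i, (univ.filter fun j => E c j = i).card = 5 := by
      intro c
      rw [← Finset.card_eq_sum_card_fiberwise (f := E c) (s := univ) (t := univ)
        (fun _ _ => by simp)]
      simp
    rw [Finset.sum_congr rfl fun c _ => this c, Finset.sum_const, smul_eq_mul, mul_comm]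
  set U := s.biUnion (edge E) with hU
  have hU3 : 3 * s.card ≤ U.card := h s hne hs
  have hle : ∑ i ∈ U, cnt i ≤ 5 * s.card := by
    rw [← hsum]
    exact Finset.sum_le_sum_of_subset (Finset.subset_univ _)
  have hge : ∀ i ∈ U, 2 ≤ cnt i + (if i ∈ os E s then 1 else 0) := by
    intro i hi
    rw [hU, Finset.mem_biUnion] at hi
    obtain ⟨c, hc, hic⟩ := hi
    unfold edge at hic
    obtain ⟨j, _, hj⟩ := Finset.mem_image.1 hic
    have h1 : 1 ≤ cnt i := by
      have h2 : 1 ≤ (univ.filter fun j => E c j = i).card :=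
        Finset.card_pos.2 ⟨j, by simp [hj]⟩
      exact h2.trans (Finset.single_le_sum
        (f := fun c => (univ.filter fun j => E c j = i).card) (fun _ _ => Nat.zero_le _) hc)
    split_ifs with ho
    · omega
    · have h3 : ¬ Odd (cnt i) := by
        intro h4
        apply ho
        unfold os
        rw [Finset.mem_filter]
        exact ⟨Finset.mem_univ _, h4⟩
      rw [Nat.not_odd_iff_even] at h3
      obtain ⟨t, ht⟩ := h3
      omega
  have h2U : 2 * U.card ≤ ∑ i ∈ U, cnt i + (os E s).card := by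
    have h1 : ∑ i ∈ U, 2 ≤ ∑ i ∈ U, (cnt i + (if i ∈ os E s then 1 else 0)) :=
      Finset.sum_le_sum hge
    rw [Finset.sum_const, smul_eq_mul, Finset.sum_add_distrib] at h1
    have h2 : ∑ i ∈ U, (if i ∈ os E s then 1 else 0) ≤ (os E s).card := by
      rw [← Finset.card_filter]
      refine Finset.card_le_card ?_
      intro i hi
      exact (Finset.mem_filter.1 hi).2
    omega
  omega

end ExpdAux

open ExpdAux in
/-- EXPD -/
theorem expd : StmtExpd := by
  classical
  intro q n hq hn
  have hn1 : 1 ≤ n := by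
    have : 1 ≤ (24 * q) ^ 5 := Nat.one_le_pow _ _ (by omega)
    omega
  have : Nonempty (Fin n) := ⟨⟨0, by omega⟩⟩
  have hn0 : (0 : ℝ) < n := by exact_mod_cast hn1
  set y : ℝ := (Fintype.card (Fin n) : ℝ) ^ 3 *
    (((3 * (8 * q) : ℕ) : ℝ) / Fintype.card (Fin n) : ℝ) ^ 5 with hy
  have hy0 : 0 ≤ y := by positivity
  have hyle : ((2 * n : ℕ) : ℝ) * y ≤ 1 / 2 := by
    have h1 : ((2 * n : ℕ) : ℝ) * y = 2 * ((24 * q : ℕ) : ℝ) ^ 5 / n := by
      rw [hy, Fintype.card_fin]
      push_cast
      field_simp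
      ring
    rw [h1, div_le_iff₀ hn0]
    have h2 : (4 : ℝ) * ((24 * q : ℕ) : ℝ) ^ 5 ≤ n := by exact_mod_cast hn
    linarith
  have hb : fr (fun E : Fin (2 * n) → (Fin 5 → Fin n) =>
      ∃ J ∈ (univ : Finset (Finset (Fin (2 * n)))).filter
        (fun J => J.Nonempty ∧ J.card ≤ 8 * q),
        (J.biUnion (edge E)).card < 3 * J.card) ≤ Real.exp (((2 * n : ℕ) : ℝ) * y) - 1 := by
    refine (fr_exists_le _ _).trans ?_
    refine le_trans ?_ (sum_pow_le (2 * n) hy0 (Fintype.card_fin (2 * n)))
    refine le_trans (Finset.sum_le_sum fun J hJ => ?_)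
      (Finset.sum_le_sum_of_subset_of_nonneg
        (t := univ.filter fun J : Finset (Fin (2 * n)) => J.Nonempty)
        ?_ fun J _ _ => by positivity)
    · exact fr_bad_J 3 (8 * q) J (Finset.mem_filter.1 hJ).2.2
    · intro J hJ
      exact Finset.mem_filter.2 ⟨Finset.mem_univ _, (Finset.mem_filter.1 hJ).2.1⟩
  have hexp : Real.exp (((2 * n : ℕ) : ℝ) * y) - 1 < 1 := by
    have h1 : Real.exp (((2 * n : ℕ) : ℝ) * y) ≤ Real.exp (1 / 2) := Real.exp_le_exp.2 hyle
    have h2 : Real.exp (1 / 2) * Real.exp (1 / 2) < 4 := by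
      rw [← Real.exp_add]
      have := Real.exp_one_lt_d9
      norm_num
      linarith
    have h3 : Real.exp (1 / 2) < 2 := by
      by_contra hcon
      push Not at hcon
      nlinarith
    linarith
  obtain ⟨E, hE⟩ := exists_not_of_fr_lt (Ω := Fin (2 * n) → (Fin 5 → Fin n))
    (lt_of_le_of_lt hb hexp)
  obtain ⟨b, hb⟩ := noSol_exists (show n < 2 * n by omega) E
  refine ⟨E, b, expand_of E ?_, hb⟩
  intro J hJ hJs
  by_contra hlt
  exact hE ⟨J, Finset.mem_filter.2 ⟨Finset.mem_univ _, hJ, hJs⟩, not_le.1 hlt⟩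

end Pool.Agent.OB
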