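import Mathlib
import Pool.Agent.Lib_helper80.OB.Base

/-!
# Statements of the modules
-/

namespace Pool.Agent.OB

open Finset Pool.Agent.SR

/-- ALG: the algebraic core of the positivity lemma. -/
def StmtAlg : Prop :=
  ∀ (ι κ α : Type) (_ : Fintype ι) (_ : DecidableEq ι) (_ : Fintype κ) (_ : DecidableEq κ)
    (E : κ → Fin 5 → ι) (b : κ → Bool) (q : ℕ) (_ : Expand E (8 * q))
    (X : Finset α) (ζ : α → ι → ℝ) (_ : ∀ u i, ζ u i = 1 ∨ ζ u i = -1)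
    (I : Finset ι) (_ : I.card ≤ 2 * q) (ε : ι → ℝ) (_ : ∀ u ∈ X, ∀ i ∈ I, ζ u i = ε i)
    (θ : ℝ) (_ : 0 ≤ θ) (_ : θ ≤ 1) (_ : (1 + θ) ^ Fintype.card ι ≤ 2)
    (_ : ∀ J : Finset ι, Disjoint J I → J.Nonempty →
      |∑ u ∈ X, ∏ i ∈ J, ζ u i| ≤ θ ^ J.card * X.card),
    -((numS κ (8 * q) : ℝ) * θ ^ (2 * q)) * X.card ≤ ∑ u ∈ X, dens E b (8 * q) (ζ u)

/-- SUPP: the product of the rows in `s` is up to sign the product over the odd support. -/
def StmtSupp : Prop :=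
  ∀ (ι κ : Type) (_ : Fintype ι) (_ : DecidableEq ι) (_ : Fintype κ) (_ : DecidableEq κ)
    (E : κ → Fin 5 → ι) (b : κ → Bool) (s : Finset κ) (ζ : ι → ℝ)
    (_ : ∀ i, ζ i = 1 ∨ ζ i = -1),
    prs E b s ζ = (∏ c ∈ s, sg (b c)) * ∏ i ∈ os E s, ζ i

/-- HOEFF: Hoeffding's inequality for signs. -/
def StmtHoeff : Prop :=
  ∀ (T : Type) (_ : Fintype T) (_ : DecidableEq T) (b : T → ℝ) (v L : ℝ) (_ : 0 ≤ v)
    (_ : ∑ z, b z ^ 2 ≤ v ^ 2) (_ : 0 ≤ L),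
    fr (fun y : T → Bool => L * v < |∑ z, sg (y z) * b z|) ≤ 2 * Real.exp (-(L ^ 2 / 2))

/-- CHAOS: the iterated Hoeffding inequality. -/
def StmtChaos : Prop :=
  ∀ (ι U T : Type) (_ : Fintype ι) (_ : DecidableEq ι) (_ : Fintype U) (_ : DecidableEq U)
    (_ : Fintype T) (_ : DecidableEq T) (h : ℕ) (_ : Fintype.card U = h ^ 4)
    (emb : ι → U → T) (J : Finset ι) (_ : ∀ i ∈ J, Function.Injective (emb i))
    (c : (ι → U) → ℝ) (C L : ℝ) (_ : 0 ≤ C) (_ : 0 ≤ L)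
    (_ : ∀ β : ι → U, |∑ u ∈ univ.filter (fun u : ι → U => ∀ i ∈ J, u i = β i), c u| ≤ C),
    fr (fun y : ι → T → Bool =>
      (L * (h : ℝ) ^ 2) ^ J.card * C < |∑ u, c u * ∏ i ∈ J, sg (y i (emb i (u i)))|) ≤
      2 * Real.exp (-(L ^ 2 / 2)) * ((h : ℝ) ^ 4 + 1) ^ J.card

/-- PART: the density-restoring partition. -/
def StmtPart : Prop :=
  ∀ (ι U : Type) (_ : Fintype ι) (_ : DecidableEq ι) (_ : Fintype U) (_ : DecidableEq U)
    (h q : ℕ) (_ : 1 ≤ h) (_ : Fintype.card U = h ^ 4) (G : Finset ι)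
    (φ : (ι → U) → ℝ) (H e : ℝ) (_ : ∀ u, |φ u| ≤ H) (_ : 0 ≤ e)
    (_ : ∀ (X : Finset (ι → U)) (I : Finset ι), I ⊆ G → I.card ≤ q →
      (∀ u ∈ X, ∀ v ∈ X, ∀ i ∈ I, u i = v i) →
      (∀ J : Finset ι, J ⊆ G → Disjoint J I → ∀ β : ι → U,
        (X.filter fun u => ∀ i ∈ J, u i = β i).card * h ^ (3 * J.card) ≤ X.card) →
      -(e * X.card) ≤ ∑ u ∈ X, φ u)
    (X : Finset (ι → U)),
    -(e * X.card) - H * ((Fintype.card (ι → U) : ℝ) / (h : ℝ) ^ q) ≤ ∑ u ∈ X, φ u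

/-- The assignment `w` in which, for all active `i`, the value at the position `e i k` is replaced
by `t i k`. -/
noncomputable def ovr {ι K P : Type} (act : ι → Prop) (e : ι → K → P) (w : P → Bool)
    (t : ι → K → Bool) : P → Bool :=
  fun p => by
    classical
    exact if hp : ∃ z : ι × K, act z.1 ∧ e z.1 z.2 = p then t hp.choose.1 hp.choose.2 else w p

/-- OVER: averaging over an assignment is averaging over overridden assignments. -/
def StmtOver : Prop :=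
  ∀ (ι K P : Type) (_ : Fintype ι) (_ : DecidableEq ι) (_ : Fintype K) (_ : DecidableEq K)
    (_ : Fintype P) (_ : DecidableEq P) (act : ι → Prop) (e : ι → K → P)
    (_ : ∀ i k i' k', act i → act i' → e i k = e i' k' → i = i' ∧ k = k')
    (F : (P → Bool) → ℝ),
    av F = av (fun w => av (fun t : ι → K → Bool => F (ovr act e w t)))

open Classical in
/-- RECT: the positivity lemma. -/
def StmtRect : Prop :=
  ∀ (ι κ P : Type) (_ : Fintype ι) (_ : DecidableEq ι) (_ : Fintype κ) (_ : DecidableEq κ)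
    (_ : Fintype P) (_ : DecidableEq P) (l ρ t q : ℕ)
    (E : κ → Fin 5 → ι) (b : κ → Bool) (_ : Expand E (8 * q))
    (pl : ι → Cell l ρ → P)
    (_ : Function.Injective fun p : ι × Cell l ρ => pl p.1 p.2)
    (A : Finset P) (_ : (univ.filter fun i => Bad (4 * t) A (pl i)).card ≤ q)
    (_ : 1 ≤ Fintype.card ι)
    (_ : 2 * Fintype.card ι ^ 2 ≤ 2 ^ t)
    (R : (P → Bool) → Prop) (_ : ∀ x y, R x → R y → R (mix A x y)),
    -epsf (numS κ (8 * q)) (Fintype.card ι) q (2 ^ t) ≤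
      av (fun w : P → Bool => (if R w then 1 else 0) *
        dens E b (8 * q) (fun i => bv (pl i) w))

/-- ROOT: the signed measure has total mass 1. -/
def StmtRoot : Prop :=
  ∀ (ι κ P : Type) (_ : Fintype ι) (_ : DecidableEq ι) (_ : Fintype κ) (_ : DecidableEq κ)
    (_ : Fintype P) (_ : DecidableEq P) (l ρ r : ℕ) (_ : 0 < ρ)
    (E : κ → Fin 5 → ι) (b : κ → Bool) (_ : Expand E r)
    (pl : ι → Cell l ρ → P)
    (_ : Function.Injective fun p : ι × Cell l ρ => pl p.1 p.2),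
    av (fun w : P → Bool => dens E b r (fun i => bv (pl i) w)) = 1

open Classical in
/-- LEAF: falsified clauses have measure 0. -/
def StmtLeaf : Prop :=
  ∀ (ι κ P : Type) (_ : Fintype ι) (_ : DecidableEq ι) (_ : Fintype κ) (_ : DecidableEq κ)
    (_ : Fintype P) (_ : DecidableEq P) (l ρ r : ℕ) (_ : 0 < ρ) (_ : 5 < r)
    (E : κ → Fin 5 → ι) (b : κ → Bool) (_ : Expand E r)
    (pl : ι → Cell l ρ → P)
    (_ : Function.Injective fun p : ι × Cell l ρ => pl p.1 p.2)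
    (c : κ) (Ev : (P → Bool) → Prop)
    (_ : ∀ w, Ev w → rowv E b c (fun i => bv (pl i) w) = -1)
    (_ : ∀ w w' : P → Bool, (∀ j x, w (pl (E c j) x) = w' (pl (E c j) x)) → Ev w → Ev w'),
    av (fun w : P → Bool => (if Ev w then 1 else 0) *
      dens E b r (fun i => bv (pl i) w)) = 0

open Classical in
/-- TREE: the induction over the tree. -/
def StmtTree : Prop :=
  ∀ (V Ω W : Type) (_ : Fintype V) (_ : DecidableEq V) (_ : Fintype W) (_ : Nonempty W)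
    (F : CNF V) (J : Ω → W → V → Bool) (Dn : Ω → W → ℝ) (Valid : Ω → Prop)
    (Good : Ω → Finset V → Prop) (ε : ℝ) (q : ℕ) (_ : 1 ≤ q) (_ : 0 ≤ ε)
    (_ : ∀ ω, Valid ω → av (Dn ω) = 1)
    (_ : ∀ ω, Valid ω → ∀ C ∈ F,
      av (fun w => (if Sat (J ω w) C then 0 else 1) * Dn ω w) = 0)
    (_ : ∀ ω, Valid ω → ∀ A, Good ω A → ∀ R : (V → Bool) → Prop,
      (∀ x y, R x → R y → R (mix A x y)) →
      -ε ≤ av (fun w => (if R (J ω w) then 1 else 0) * Dn ω w))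
    (_ : ∀ L : List (Finset V), L.length < 2 ^ q → (∀ A ∈ L, Balanced A) →
      ∃ ω, Valid ω ∧ ∀ A ∈ L, Good ω A)
    (_ : 2 * ε * 2 ^ q ≤ 1) (K T : ℕ), Tree F K (fun _ => false) T → 2 ^ q ≤ T * K

/-- EXPD: existence of the expanding system without solution. -/
def StmtExpd : Prop :=
  ∀ (q n : ℕ) (_ : 1 ≤ q) (_ : 4 * (24 * q) ^ 5 ≤ n),
    ∃ (E : Fin (2 * n) → Fin 5 → Fin n) (b : Fin (2 * n) → Bool),
      Expand E (8 * q) ∧ NoSol E b

/-- NUMS: the number of sets of at most `r` rows. -/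
def StmtNumS : Prop :=
  ∀ (κ : Type) (_ : Fintype κ) (_ : DecidableEq κ) (r : ℕ),
    numS κ r ≤ (Fintype.card κ + 1) ^ r

/-- TAIL: if each of the independent events has probability at most `η`, then the probability
that at least `j` of them happen is at most `exp ((z - 1) η n) / z ^ j`. -/
def StmtTail : Prop :=
  ∀ (ι Ω : Type) (_ : Fintype ι) (_ : DecidableEq ι) (_ : Fintype Ω) (_ : Nonempty Ω)
    (p : ι → Ω → Prop) (η z : ℝ) (_ : 0 ≤ η) (_ : 1 ≤ z) (_ : ∀ i, fr (p i) ≤ η) (j : ℕ),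
    fr (fun f : ι → Ω => j ≤ Set.ncard {i | p i (f i)}) ≤
      Real.exp ((z - 1) * η * Fintype.card ι) / z ^ j

/-- BADP: a random placement is bad with small probability. -/
def StmtBadp : Prop :=
  ∀ (P : Type) (_ : Fintype P) (_ : DecidableEq P) (_ : Nonempty P) (a ρ : ℕ) (A : Finset P)
    (_ : PBal A),
    fr (fun pl : Cell (8 * a) ρ → P => Bad a A pl) ≤
      (2 : ℝ) ^ a * (7 / 8) ^ (8 * a) + (2 : ℝ) ^ (8 * a) * (3 / 4) ^ ρ

/-- INJP: a random function is rarely not injective. -/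
def StmtInjp : Prop :=
  ∀ (D P : Type) (_ : Fintype D) (_ : DecidableEq D) (_ : Fintype P) (_ : DecidableEq P)
    (_ : Nonempty P),
    fr (fun f : D → P => ¬ Function.Injective f) ≤
      (Fintype.card D : ℝ) ^ 2 / Fintype.card P

/-- LOC: existence of the family of placements. -/
def StmtLoc : Prop :=
  ∀ (ι S P : Type) (_ : Fintype ι) (_ : DecidableEq ι) (_ : Fintype S) (_ : DecidableEq S)
    (_ : Fintype P) (_ : DecidableEq P) (_ : Nonempty ι) (_ : Nonempty S) (_ : Nonempty P)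
    (a ρ : ℕ)
    (_ : 8 * (Fintype.card ι * Fintype.card (Cell (8 * a) ρ)) ^ 2 ≤ Fintype.card P)
    (_ : 24 * (Fintype.card ι : ℝ) *
      ((2 : ℝ) ^ a * (7 / 8) ^ (8 * a) + (2 : ℝ) ^ (8 * a) * (3 / 4) ^ ρ) ≤ 1)
    (_ : 4 * Fintype.card ι * (Fintype.card P + Fintype.card ι + 3) ≤ Fintype.card S),
    ∃ loc : ι → S → Cell (8 * a) ρ → P,
      (1 / 2 : ℝ) ≤ fr (fun σ : ι → S =>
        Function.Injective fun p : ι × Cell (8 * a) ρ => loc p.1 (σ p.1) p.2) ∧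
      ∀ A : Finset P, PBal A → ∀ i, fr (fun s : S => Bad a A (loc i s)) ≤
        1 / (4 * Fintype.card ι)

open Classical in
/-- CHOICE: choice of the selectors for a given list of cuts. -/
def StmtChoice : Prop :=
  ∀ (ι S P : Type) (_ : Fintype ι) (_ : DecidableEq ι) (_ : Fintype S) (_ : DecidableEq S)
    (_ : Fintype P) (_ : DecidableEq P) (_ : Nonempty ι) (_ : Nonempty S) (_ : Nonempty P)
    (a l ρ q : ℕ) (loc : ι → S → Cell l ρ → P)
    (_ : (1 / 2 : ℝ) ≤ fr (fun σ : ι → S =>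
        Function.Injective fun p : ι × Cell l ρ => loc p.1 (σ p.1) p.2))
    (_ : ∀ A : Finset P, PBal A → ∀ i, fr (fun s : S => Bad a A (loc i s)) ≤
        1 / (4 * Fintype.card ι))
    (L : List (Finset P)) (_ : L.length < 2 ^ q) (_ : ∀ A ∈ L, PBal A),
    ∃ σ : ι → S, (Function.Injective fun p : ι × Cell l ρ => loc p.1 (σ p.1) p.2) ∧
      ∀ A ∈ L, (univ.filter fun i => Bad a A (loc i (σ i))).card ≤ q

/-! ### The CNF -/

section Cnf

variable {ι κ P : Type} [Fintype ι] [DecidableEq ι] [Fintype κ] [DecidableEq κ] [Fintype P]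
  [DecidableEq P] {r₀ l ρ : ℕ}

/-- The clause which forbids that for all `j` the block `E c j` has selector value `(τ j).1`,
pointer value `(τ j).2.1` and table bits `(τ j).2.2` at this address. -/
def clauseOf (E : κ → Fin 5 → ι) (loc : ι → (Fin r₀ → Bool) → Cell l ρ → P) (c : κ)
    (τ : Fin 5 → (Fin r₀ → Bool) × (Fin l → Bool) × (Fin ρ → Bool)) :
    Clause ((ι × Fin r₀) ⊕ P) :=
  univ.biUnion fun j : Fin 5 =>
    (univ.image fun k : Fin r₀ => ((Sum.inl (E c j, k) : (ι × Fin r₀) ⊕ P), !(τ j).1 k)) ∪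
    (univ.image fun k : Fin l =>
      ((Sum.inr (loc (E c j) (τ j).1 (Sum.inl k)) : (ι × Fin r₀) ⊕ P), !(τ j).2.1 k)) ∪
    (univ.image fun k : Fin ρ =>
      ((Sum.inr (loc (E c j) (τ j).1 (Sum.inr ((τ j).2.1, k))) : (ι × Fin r₀) ⊕ P),
        !(τ j).2.2 k))

open Classical in
/-- The CNF. -/
noncomputable def cnfOf (E : κ → Fin 5 → ι) (b : κ → Bool)
    (loc : ι → (Fin r₀ → Bool) → Cell l ρ → P) : CNF ((ι × Fin r₀) ⊕ P) :=
  (((univ : Finset (κ × (Fin 5 → (Fin r₀ → Bool) × (Fin l → Bool) × (Fin ρ → Bool)))).filter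
    fun p => sg (b p.1) * ∏ j, ∏ k, sg ((p.2 j).2.2 k) = -1).image
      fun p => clauseOf E loc p.1 p.2).filter fun C => ¬ Taut C

/-- The assignment to all variables given by selectors and an assignment to the pool. -/
def joinA (σ : ι → Fin r₀ → Bool) (w : P → Bool) : (ι × Fin r₀) ⊕ P → Bool :=
  Sum.elim (fun p => σ p.1 p.2) w

end Cnf

/-- CNF1: size, width, non-tautological, unsatisfiable. -/
def StmtCnf1 : Prop :=
  ∀ (ι κ P : Type) (_ : Fintype ι) (_ : DecidableEq ι) (_ : Fintype κ) (_ : DecidableEq κ)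
    (_ : Fintype P) (_ : DecidableEq P) (r₀ l ρ : ℕ) (E : κ → Fin 5 → ι) (b : κ → Bool)
    (loc : ι → (Fin r₀ → Bool) → Cell l ρ → P),
    (cnfOf E b loc).card ≤ Fintype.card κ * (2 ^ r₀ * (2 ^ l * 2 ^ ρ)) ^ 5 ∧
    (∀ C ∈ cnfOf E b loc, C.card ≤ 5 * (r₀ + l + ρ) ∧ ¬ Taut C) ∧
    (NoSol E b → Unsat (cnfOf E b loc))

/-- CNF2: after fixing the selectors a clause is satisfied or it is an event as in LEAF. -/
def StmtCnf2 : Prop :=
  ∀ (ι κ P : Type) (_ : Fintype ι) (_ : DecidableEq ι) (_ : Fintype κ) (_ : DecidableEq κ)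
    (_ : Fintype P) (_ : DecidableEq P) (r₀ l ρ : ℕ) (E : κ → Fin 5 → ι) (b : κ → Bool)
    (loc : ι → (Fin r₀ → Bool) → Cell l ρ → P) (σ : ι → Fin r₀ → Bool),
    ∀ C ∈ cnfOf E b loc, ∃ c : κ,
      (∀ w, ¬ Sat (joinA σ w) C → rowv E b c (fun i => bv (loc i (σ i)) w) = -1) ∧
      (∀ w w' : P → Bool,
        (∀ j x, w (loc (E c j) (σ (E c j)) x) = w' (loc (E c j) (σ (E c j)) x)) →
        ¬ Sat (joinA σ w) C → ¬ Sat (joinA σ w') C)

/-- BAL: balanced sets of variables are balanced in the pool. -/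
def StmtBal : Prop :=
  ∀ (ι P : Type) (_ : Fintype ι) (_ : DecidableEq ι)
    (_ : Fintype P) (_ : DecidableEq P) (r₀ : ℕ)
    (_ : 8 * (Fintype.card ι * r₀) ≤ Fintype.card P) (A : Finset ((ι × Fin r₀) ⊕ P))
    (_ : Balanced A),
    PBal (univ.filter fun p : P => (Sum.inr p : (ι × Fin r₀) ⊕ P) ∈ A)

/-- OBDD: lines of OBDDs with the same order are simple. -/
def StmtObdd : Prop :=
  ∀ (V : Type) (_ : Fintype V) (_ : DecidableEq V) (_ : 2 ≤ Fintype.card V)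
    (σ : V ≃ Fin (Fintype.card V)) (f g h : (V → Bool) → Bool) (s₁ s₂ s₃ M : ℕ)
    (_ : HasOBDD σ s₁ f) (_ : HasOBDD σ s₂ g) (_ : HasOBDD σ s₃ h)
    (_ : s₁ ≤ M) (_ : s₂ ≤ M) (_ : s₃ ≤ M),
    Simple (8 * M ^ 3) [f, g, h]

/-- NUM: the choice of the parameters (`Q = 2 ^ k`, `n = Q ^ 6` blocks, `a = 240 k`, `l = 8 a`,
`ρ = 7680 k`, pool size `Q ^ 3860`, `3870 k` selector bits, exponent `4 q + 4`). -/
def StmtNum : Prop :=
  ∃ e : ℕ, ∀ᶠ q : ℕ in Filter.atTop, ∃ k : ℕ,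
    4 * (24 * (4 * q + 4)) ^ 5 ≤ 2 ^ (6 * k) ∧
    2 * (2 ^ (6 * k)) ^ 2 ≤ 2 ^ (60 * k) ∧
    0 < 7680 * k ∧
    8 * (2 ^ (6 * k) * Fintype.card (Cell (8 * (4 * (60 * k))) (7680 * k))) ^ 2 ≤
      2 ^ (3860 * k) ∧
    24 * ((2 : ℝ) ^ (6 * k)) *
      ((2 : ℝ) ^ (4 * (60 * k)) * (7 / 8) ^ (8 * (4 * (60 * k))) +
        (2 : ℝ) ^ (8 * (4 * (60 * k))) * (3 / 4) ^ (7680 * k)) ≤ 1 ∧
    4 * 2 ^ (6 * k) * (2 ^ (3860 * k) + 2 ^ (6 * k) + 3) ≤ 2 ^ (3870 * k) ∧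
    8 * (2 ^ (6 * k) * (3870 * k)) ≤ 2 ^ (3860 * k) ∧
    2 * epsf ((2 * 2 ^ (6 * k) + 1 : ℝ) ^ (8 * (4 * q + 4))) (2 ^ (6 * k)) (4 * q + 4)
      (2 ^ (60 * k)) * 2 ^ (4 * q + 4) ≤ 1 ∧
    2 ^ (6 * k) * (3870 * k) + 2 ^ (3860 * k) ≤ q ^ e ∧
    2 * 2 ^ (6 * k) * (2 ^ (3870 * k) * (2 ^ (8 * (4 * (60 * k))) * 2 ^ (7680 * k))) ^ 5 ≤
      q ^ e ∧
    5 * (3870 * k + 8 * (4 * (60 * k)) + 7680 * k) ≤ e * Nat.log 2 q

end Pool.Agent.OB
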