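import Mathlib
import Pool.Agent.Lib_helper80.OB.Stmts

/-!
# The positivity lemma
-/

namespace Pool.Agent.OB

open Finset Pool.Agent.SR

section Ovr

variable {ι K P : Type} {act : ι → Prop} {e : ι → K → P}

theorem ovr_at (he : ∀ i k i' k', act i → act i' → e i k = e i' k' → i = i' ∧ k = k')
    (w : P → Bool) (t : ι → K → Bool) {i : ι} (hi : act i) (k : K) :
    ovr act e w t (e i k) = t i k := by
  classical
  have h : ∃ z : ι × K, act z.1 ∧ e z.1 z.2 = e i k := ⟨(i, k), hi, rfl⟩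
  unfold ovr
  rw [dif_pos h]
  obtain ⟨h1, h2⟩ := h.choose_spec
  obtain ⟨h3, h4⟩ := he _ _ _ _ h1 hi h2
  rw [h3, h4]

theorem ovr_off (w : P → Bool) (t : ι → K → Bool) {p : P}
    (hp : ∀ i k, act i → e i k ≠ p) : ovr act e w t p = w p := by
  classical
  have h : ¬ ∃ z : ι × K, act z.1 ∧ e z.1 z.2 = p := by
    rintro ⟨z, h1, h2⟩
    exact hp _ _ h1 h2
  unfold ovr
  rw [dif_neg h]

end Ovr

theorem sg_eq (b : Bool) : sg b = 1 ∨ sg b = -1 := by
  unfold sg
  split_ifs <;> simp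

theorem abs_sg (b : Bool) : |sg b| = 1 := by
  rcases sg_eq b with h | h <;> rw [h] <;> simp

theorem pm_mul {x y : ℝ} (hx : x = 1 ∨ x = -1) (hy : y = 1 ∨ y = -1) : x * y = 1 ∨ x * y = -1 := by
  rcases hx with rfl | rfl <;> rcases hy with rfl | rfl <;> simp

theorem pm_prod {α : Type} (s : Finset α) (f : α → ℝ) (h : ∀ i ∈ s, f i = 1 ∨ f i = -1) :
    ∏ i ∈ s, f i = 1 ∨ ∏ i ∈ s, f i = -1 := by
  classical
  induction s using Finset.induction_on with
  | empty => simp
  | insert a s ha ih =>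
    rw [Finset.prod_insert ha]
    exact pm_mul (h a (Finset.mem_insert_self _ _))
      (ih fun i hi => h i (Finset.mem_insert_of_mem hi))

theorem pm_abs {x : ℝ} (hx : x = 1 ∨ x = -1) : |x| = 1 := by
  rcases hx with rfl | rfl <;> simp

section Dens

variable {ι κ : Type} [Fintype ι] [DecidableEq ι] [Fintype κ] [DecidableEq κ]

theorem prs_pm (E : κ → Fin 5 → ι) (b : κ → Bool) (s : Finset κ) {ζ : ι → ℝ}
    (hζ : ∀ i, ζ i = 1 ∨ ζ i = -1) : prs E b s ζ = 1 ∨ prs E b s ζ = -1 := by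
  unfold prs
  refine pm_prod _ _ fun c _ => ?_
  unfold rowv
  exact pm_mul (sg_eq _) (pm_prod _ _ fun j _ => hζ _)

theorem abs_dens_le (E : κ → Fin 5 → ι) (b : κ → Bool) (r : ℕ) {ζ : ι → ℝ}
    (hζ : ∀ i, ζ i = 1 ∨ ζ i = -1) : |dens E b r ζ| ≤ numS κ r := by
  unfold dens numS
  refine (Finset.abs_sum_le_sum_abs _ _).trans ?_
  rw [Finset.sum_congr rfl fun s _ => pm_abs (prs_pm E b s hζ), Finset.sum_const, nsmul_eq_mul,
    mul_one]

end Dens

theorem bv_pm {P : Type} {l ρ : ℕ} (pl : Cell l ρ → P) (w : P → Bool) :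
    bv pl w = 1 ∨ bv pl w = -1 :=
  pm_prod _ _ fun _ _ => sg_eq _

/-- Sum of powers over the subsets of a set. -/
theorem sum_powerset_pow {α : Type} [DecidableEq α] (G : Finset α) (x : ℝ) :
    ∑ J ∈ G.powerset, x ^ J.card = (x + 1) ^ G.card := by
  have := Finset.sum_pow_mul_eq_add_pow x 1 G
  rw [← this]
  exact Finset.sum_congr rfl fun J _ => by rw [one_pow, mul_one]

/-- The signs of the blocks in terms of the free pointer bits `u` and the free table cells
`y`. -/
def zf {ι U T : Type} [DecidableEq ι] (G : Finset ι) (X : ι → U → T) (a : ι → U → ℝ)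
    (z₀ : ι → ℝ) (y : ι → T → Bool) (u : ι → U) : ι → ℝ :=
  fun i => if i ∈ G then sg (y i (X i (u i))) * a i (u i) else z₀ i

theorem zf_pm {ι U T : Type} [DecidableEq ι] {G : Finset ι} {X : ι → U → T} {a : ι → U → ℝ}
    {z₀ : ι → ℝ} (ha : ∀ i v, a i v = 1 ∨ a i v = -1) (hz : ∀ i, z₀ i = 1 ∨ z₀ i = -1)
    (y : ι → T → Bool) (u : ι → U) (i : ι) :
    zf G X a z₀ y u i = 1 ∨ zf G X a z₀ y u i = -1 := by
  unfold zf
  split_ifs
  · exact pm_mul (sg_eq _) (ha _ _)
  · exact hz i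

section Piece

variable {ι κ U T : Type} [Fintype ι] [DecidableEq ι] [Fintype κ] [DecidableEq κ] [Fintype U]
  [DecidableEq U] [Fintype T] [DecidableEq T]

/-- The probability that some product over a set `J` of blocks is not small. -/
theorem piece_bad (hchaos : StmtChaos) {h : ℕ} (hh : 1 ≤ h) (hU : Fintype.card U = h ^ 4)
    (G : Finset ι) (X : ι → U → T) (hX : ∀ i ∈ G, Function.Injective (X i))
    (a : ι → U → ℝ) (ha : ∀ i v, a i v = 1 ∨ a i v = -1) (z₀ : ι → ℝ)
    (X' : Finset (ι → U)) (I : Finset ι)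
    (hdense : ∀ J : Finset ι, J ⊆ G → Disjoint J I → ∀ β : ι → U,
      (X'.filter fun u => ∀ i ∈ J, u i = β i).card * h ^ (3 * J.card) ≤ X'.card) :
    fr (fun y : ι → T → Bool => ∃ J ∈ (G \ I).powerset,
      ((Fintype.card ι : ℝ) / h) ^ J.card * X'.card <
        |∑ u ∈ X', ∏ i ∈ J, zf G X a z₀ y u i|) ≤
      2 * Real.exp (-((Fintype.card ι : ℝ) ^ 2 / 2)) * ((h : ℝ) ^ 4 + 2) ^ Fintype.card ι := by
  classical
  have hh0 : (0 : ℝ) < h := by exact_mod_cast hh
  refine (fr_exists_le _ _).trans ?_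
  have hterm : ∀ J ∈ (G \ I).powerset,
      fr (fun y : ι → T → Bool => ((Fintype.card ι : ℝ) / h) ^ J.card * X'.card <
        |∑ u ∈ X', ∏ i ∈ J, zf G X a z₀ y u i|) ≤
      2 * Real.exp (-((Fintype.card ι : ℝ) ^ 2 / 2)) * ((h : ℝ) ^ 4 + 1) ^ J.card := by
    intro J hJ
    have hJ' := Finset.mem_powerset.1 hJ
    have hJG : J ⊆ G := fun i hi => (Finset.mem_sdiff.1 (hJ' hi)).1
    have hJI : Disjoint J I :=
      Finset.disjoint_left.2 fun i hi => (Finset.mem_sdiff.1 (hJ' hi)).2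
    have hc := hchaos ι U T inferInstance inferInstance inferInstance inferInstance inferInstance
      inferInstance h hU X J (fun i hi => hX i (hJG hi))
      (fun u => if u ∈ X' then ∏ i ∈ J, a i (u i) else 0)
      ((X'.card : ℝ) / (h : ℝ) ^ (3 * J.card)) (Fintype.card ι : ℝ) (by positivity)
      (by positivity) (by
        intro β
        refine (Finset.abs_sum_le_sum_abs _ _).trans ?_
        rw [le_div_iff₀ (by positivity)]
        have h1 : ∑ u ∈ univ.filter (fun u : ι → U => ∀ i ∈ J, u i = β i),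
            |(if u ∈ X' then ∏ i ∈ J, a i (u i) else (0 : ℝ))| =
            ((X'.filter fun u => ∀ i ∈ J, u i = β i).card : ℝ) := by
          have h2 : ∀ u : ι → U, |(if u ∈ X' then ∏ i ∈ J, a i (u i) else (0 : ℝ))| =
              if u ∈ X' then 1 else 0 := by
            intro u
            split_ifs
            · exact pm_abs (pm_prod _ _ fun i _ => ha _ _)
            · exact abs_zero
          rw [Finset.sum_congr rfl fun u _ => h2 u, Finset.sum_boole]
          congr 2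
          ext u
          simp [and_comm]
        rw [h1]
        exact_mod_cast hdense J hJG hJI β)
    refine le_trans (le_of_eq (fr_congr fun y => ?_)) hc
    have h3 : ((Fintype.card ι : ℝ) * (h : ℝ) ^ 2) ^ J.card *
        ((X'.card : ℝ) / (h : ℝ) ^ (3 * J.card)) =
        ((Fintype.card ι : ℝ) / h) ^ J.card * X'.card := by
      rw [mul_pow, div_pow, ← pow_mul]
      have : (h : ℝ) ^ (3 * J.card) = (h : ℝ) ^ (2 * J.card) * (h : ℝ) ^ J.card := by
        rw [← pow_add]; congr 1; ring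
      rw [this]
      field_simp
    have h4 : ∑ u : ι → U, (if u ∈ X' then ∏ i ∈ J, a i (u i) else (0 : ℝ)) *
        ∏ i ∈ J, sg (y i (X i (u i))) = ∑ u ∈ X', ∏ i ∈ J, zf G X a z₀ y u i := by
      have h5 : ∀ u : ι → U, (if u ∈ X' then ∏ i ∈ J, a i (u i) else (0 : ℝ)) *
          ∏ i ∈ J, sg (y i (X i (u i))) =
          if u ∈ X' then ∏ i ∈ J, zf G X a z₀ y u i else 0 := by
        intro u
        split_ifs
        · rw [← Finset.prod_mul_distrib]
          refine Finset.prod_congr rfl fun i hi => ?_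
          unfold zf
          rw [if_pos (hJG hi), mul_comm]
        · rw [zero_mul]
      rw [Finset.sum_congr rfl fun u _ => h5 u, Finset.sum_ite_mem, Finset.univ_inter]
    rw [h3, h4]
  refine (Finset.sum_le_sum hterm).trans ?_
  rw [← Finset.mul_sum, sum_powerset_pow]
  refine mul_le_mul_of_nonneg_left ?_ (by positivity)
  have h6 : ((h : ℝ) ^ 4 + 1 + 1) = (h : ℝ) ^ 4 + 2 := by ring
  rw [h6]
  have h7 : (1 : ℝ) ≤ (h : ℝ) ^ 4 + 2 := by
    have : (0 : ℝ) ≤ (h : ℝ) ^ 4 := by positivity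
    linarith
  exact pow_le_pow_right₀ h7 (Finset.card_le_univ _)

/-- The contribution of a piece. -/
theorem piece_bound (halg : StmtAlg) (hchaos : StmtChaos) (E : κ → Fin 5 → ι) (b : κ → Bool)
    {q h : ℕ} (hE : Expand E (8 * q)) (hh : 1 ≤ h) (hU : Fintype.card U = h ^ 4)
    (hnh : 2 * Fintype.card ι ^ 2 ≤ h)
    (G : Finset ι) (hG : (univ \ G).card ≤ q) (X : ι → U → T)
    (hX : ∀ i ∈ G, Function.Injective (X i))
    (a : ι → U → ℝ) (ha : ∀ i v, a i v = 1 ∨ a i v = -1) (z₀ : ι → ℝ)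
    (hz : ∀ i, z₀ i = 1 ∨ z₀ i = -1) (g : (ι → T → Bool) → ℝ) (hg : ∀ y, g y = 0 ∨ g y = 1)
    (X' : Finset (ι → U)) (I : Finset ι) (hIG : I ⊆ G) (hI : I.card ≤ q)
    (hfix : ∀ u ∈ X', ∀ v ∈ X', ∀ i ∈ I, u i = v i)
    (hdense : ∀ J : Finset ι, J ⊆ G → Disjoint J I → ∀ β : ι → U,
      (X'.filter fun u => ∀ i ∈ J, u i = β i).card * h ^ (3 * J.card) ≤ X'.card) :
    -(((numS κ (8 * q) : ℝ) * ((Fintype.card ι : ℝ) / h) ^ (2 * q) +
      (numS κ (8 * q) : ℝ) * (2 * Real.exp (-((Fintype.card ι : ℝ) ^ 2 / 2)) *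
        ((h : ℝ) ^ 4 + 2) ^ Fintype.card ι)) * X'.card) ≤
      ∑ u ∈ X', av (fun y : ι → T → Bool => g y * dens E b (8 * q) (zf G X a z₀ y u)) := by
  classical
  have hh0 : (0 : ℝ) < h := by exact_mod_cast hh
  rcases X'.eq_empty_or_nonempty with rfl | ⟨u₀, hu₀⟩
  · simp
  set H : ℝ := (numS κ (8 * q) : ℝ) with hH
  have hH0 : 0 ≤ H := Nat.cast_nonneg _
  set θ : ℝ := (Fintype.card ι : ℝ) / h with hθ
  have hθ0 : 0 ≤ θ := by positivity
  have hn2 : 2 * (Fintype.card ι : ℝ) ^ 2 ≤ h := by exact_mod_cast hnh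
  have hθ1 : (Fintype.card ι : ℝ) * θ ≤ 1 / 2 := by
    rw [hθ, mul_div_assoc', div_le_iff₀ hh0]
    nlinarith
  have hθ2 : θ ≤ 1 := by
    rw [hθ, div_le_one hh0]
    by_cases h0 : Fintype.card ι = 0
    · rw [h0]; simp
    · have : (1 : ℝ) ≤ Fintype.card ι := by exact_mod_cast Nat.one_le_iff_ne_zero.2 h0
      nlinarith
  have hθ3 : (1 + θ) ^ Fintype.card ι ≤ 2 := by
    have h1 : (1 + θ) ^ Fintype.card ι ≤ Real.exp θ ^ Fintype.card ι := by
      refine pow_le_pow_left₀ (by linarith) ?_ _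
      have := Real.add_one_le_exp θ
      linarith
    rw [← Real.exp_nat_mul] at h1
    refine h1.trans ((Real.exp_le_exp.2 hθ1).trans ?_)
    have h2 : Real.exp (1 / 2) ^ 2 ≤ 2 ^ 2 := by
      rw [← Real.exp_nat_mul]
      norm_num
      have := Real.exp_one_lt_d9
      linarith
    exact (pow_le_pow_iff_left₀ (Real.exp_pos _).le (by norm_num) (by norm_num)).1 h2
  set D : ℝ := 2 * Real.exp (-((Fintype.card ι : ℝ) ^ 2 / 2)) *
    ((h : ℝ) ^ 4 + 2) ^ Fintype.card ι with hD
  set BadY : (ι → T → Bool) → Prop := fun y => ∃ J ∈ (G \ I).powerset,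
      θ ^ J.card * X'.card < |∑ u ∈ X', ∏ i ∈ J, zf G X a z₀ y u i| with hBadY
  have hbad : fr BadY ≤ D :=
    piece_bad hchaos hh hU G X hX a ha z₀ X' I hdense
  -- exchange the sums
  have hsw : ∑ u ∈ X', av (fun y : ι → T → Bool => g y * dens E b (8 * q) (zf G X a z₀ y u)) =
      av (fun y : ι → T → Bool => g y * ∑ u ∈ X', dens E b (8 * q) (zf G X a z₀ y u)) := by
    unfold av
    rw [← Finset.sum_div, Finset.sum_comm]
    congr 1
    exact Finset.sum_congr rfl fun y _ => (Finset.mul_sum _ _ _).symm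
  rw [hsw]
  -- the pointwise bound
  have hpt : ∀ y : ι → T → Bool, -(H * θ ^ (2 * q)) * X'.card * 1 +
      -(H * X'.card) * (if BadY y then 1 else 0) ≤
      g y * ∑ u ∈ X', dens E b (8 * q) (zf G X a z₀ y u) := by
    intro y
    have hab : |∑ u ∈ X', dens E b (8 * q) (zf G X a z₀ y u)| ≤ H * X'.card := by
      refine (Finset.abs_sum_le_sum_abs _ _).trans ?_
      refine (Finset.sum_le_card_nsmul _ _ H fun u _ =>
        abs_dens_le E b (8 * q) (zf_pm ha hz y u)).trans (le_of_eq ?_)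
      rw [nsmul_eq_mul, mul_comm]
    have hneg : -(H * θ ^ (2 * q)) * X'.card ≤ 0 := by
      have : 0 ≤ H * θ ^ (2 * q) * X'.card := by positivity
      linarith
    by_cases hb : BadY y
    · rw [if_pos hb]
      have h1 := neg_abs_le (∑ u ∈ X', dens E b (8 * q) (zf G X a z₀ y u))
      rcases hg y with h2 | h2 <;> rw [h2]
      · have : 0 ≤ H * X'.card := by positivity
        linarith
      · linarith
    · rw [if_neg hb, mul_zero, add_zero, mul_one]
      rcases hg y with h2 | h2 <;> rw [h2]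
      · rw [zero_mul]; exact hneg
      · rw [one_mul]
        refine halg ι κ (ι → U) inferInstance inferInstance inferInstance inferInstance E b q hE
          X' (fun u => zf G X a z₀ y u) (fun u i => zf_pm ha hz y u i) (I ∪ (univ \ G)) ?_
          (zf G X a z₀ y u₀) ?_ θ hθ0 hθ2 hθ3 ?_
        · refine (Finset.card_union_le _ _).trans ?_
          omega
        · intro u hu i hi
          rcases Finset.mem_union.1 hi with hi | hi
          · unfold zf
            rw [hfix u hu u₀ hu₀ i hi]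
          · unfold zf
            rw [if_neg (Finset.mem_sdiff.1 hi).2, if_neg (Finset.mem_sdiff.1 hi).2]
        · intro J hJ _
          by_contra hlt
          refine hb ⟨J, Finset.mem_powerset.2 fun i hi => ?_, not_le.1 hlt⟩
          have h3 := Finset.disjoint_left.1 hJ hi
          simp only [Finset.mem_union, Finset.mem_sdiff, Finset.mem_univ, true_and, not_or,
            not_not] at h3
          exact Finset.mem_sdiff.2 ⟨h3.2, h3.1⟩
  refine le_trans ?_ (av_mono hpt)
  rw [av_add, av_const_mul, av_const_mul, av_one, ← fr_eq_av]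
  have h5 : H * X'.card * fr BadY ≤ H * X'.card * D :=
    mul_le_mul_of_nonneg_left hbad (by positivity)
  nlinarith

end Piece

open Classical in
/-- RECT with a table. -/
def StmtRectPos : Prop :=
  ∀ (ι κ P : Type) (_ : Fintype ι) (_ : DecidableEq ι) (_ : Fintype κ) (_ : DecidableEq κ)
    (_ : Fintype P) (_ : DecidableEq P) (l ρ t q : ℕ) (_ : 0 < ρ)
    (E : κ → Fin 5 → ι) (b : κ → Bool) (_ : Expand E (8 * q))
    (pl : ι → Cell l ρ → P)
    (_ : Function.Injective fun p : ι × Cell l ρ => pl p.1 p.2)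
    (A : Finset P) (_ : (univ.filter fun i => Bad (4 * t) A (pl i)).card ≤ q)
    (_ : 1 ≤ Fintype.card ι)
    (_ : 2 * Fintype.card ι ^ 2 ≤ 2 ^ t)
    (R : (P → Bool) → Prop) (_ : ∀ x y, R x → R y → R (mix A x y)),
    -epsf (numS κ (8 * q)) (Fintype.card ι) q (2 ^ t) ≤
      av (fun w : P → Bool => (if R w then 1 else 0) *
        dens E b (8 * q) (fun i => bv (pl i) w))

end Pool.Agent.OB
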