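import Mathlib
import Pool.Agent.Lib_helper80.OB.Rect

/-!
# Assembly of the lower bound
-/

namespace Pool.Agent.OB

open Finset Pool.Agent.SR

theorem epsf_mono {H H' : ℝ} (h : H ≤ H') (n q t : ℕ) : epsf H n q t ≤ epsf H' n q t := by
  unfold epsf
  gcongr

theorem epsf_nonneg {H : ℝ} (h : 0 ≤ H) (n q t : ℕ) : 0 ≤ epsf H n q t := by
  unfold epsf
  positivity

/-- The part of a set of variables in the pool. -/
def pre {ι P : Type} [DecidableEq ι] [Fintype P] [DecidableEq P] {r₀ : ℕ}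
    (A : Finset ((ι × Fin r₀) ⊕ P)) : Finset P :=
  univ.filter fun p : P => (Sum.inr p : (ι × Fin r₀) ⊕ P) ∈ A

theorem mix_joinA {ι P : Type} [DecidableEq ι] [Fintype P] [DecidableEq P] {r₀ : ℕ}
    (A : Finset ((ι × Fin r₀) ⊕ P)) (σ : ι → Fin r₀ → Bool) (w w' : P → Bool) :
    mix A (joinA σ w) (joinA σ w') = joinA σ (mix (pre A) w w') := by
  funext v
  rcases v with v | p
  · simp [mix, joinA]
  · simp [mix, joinA, pre]

theorem otree_tree (hobdd : StmtObdd) {V : Type} [Fintype V] [DecidableEq V]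
    (hV : 2 ≤ Fintype.card V) {F : CNF V} {s : ℕ} {σ : V ≃ Fin (Fintype.card V)}
    {f : (V → Bool) → Bool} {T : ℕ} (h : OTree F s σ f T) :
    ∃ T', T' ≤ T ∧ Tree F (8 * s ^ 3) f T' := by
  have main : (∃ s', s' ≤ s ∧ HasOBDD σ s' f) ∧ ∃ T', T' ≤ T ∧ Tree F (8 * s ^ 3) f T' := by
    induction h with
    | @ax C σ f s' hC hf hs hs' => exact ⟨⟨s', hs, hs'⟩, 1, le_rfl, Tree.ax hC hf⟩
    | @weaken σ f h T s' _ himp hs hs' ih =>
      obtain ⟨⟨s₁, hs₁, hs₁'⟩, T', hT, hTree⟩ := ih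
      refine ⟨⟨s', hs, hs'⟩, T' + 1, by omega, Tree.one hTree himp ?_⟩
      obtain ⟨A, hA, c, hc, hcf⟩ := hobdd V _ _ hV σ f f h s₁ s₁ s' s hs₁' hs₁' hs' hs₁ hs₁ hs
      refine ⟨A, hA, c, hc, fun F' hF' => hcf F' ?_⟩
      simp only [List.mem_cons, List.not_mem_nil, or_false] at hF' ⊢
      tauto
    | @join σ f g h T T₂ s' _ _ himp hs hs' ih ih' =>
      obtain ⟨⟨s₁, hs₁, hs₁'⟩, T', hT, hTree⟩ := ih
      obtain ⟨⟨s₂, hs₂, hs₂'⟩, T'', hT', hTree'⟩ := ih'
      exact ⟨⟨s', hs, hs'⟩, T' + T'' + 1, by omega, Tree.two hTree hTree' himp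
        (hobdd V _ _ hV σ f g h s₁ s₂ s' s hs₁' hs₂' hs' hs₁ hs₂ hs)⟩
    | @reorder σ σ' f T s' _ hs hs' ih =>
      obtain ⟨_, T', hT, hTree⟩ := ih
      exact ⟨⟨s', hs, hs'⟩, T', by omega, hTree⟩
  exact main.2

theorem assemble (hrect : StmtRectPos) (hroot : StmtRoot) (hleaf : StmtLeaf) (htree : StmtTree)
    (hexpd : StmtExpd) (hnums : StmtNumS) (hloc : StmtLoc) (hchoice : StmtChoice)
    (hc1 : StmtCnf1) (hc2 : StmtCnf2) (hbal : StmtBal) (hobdd : StmtObdd)
    (q n t ρ r₀ N : ℕ) (hq : 1 ≤ q) (h1 : 4 * (24 * q) ^ 5 ≤ n) (h2 : 2 * n ^ 2 ≤ 2 ^ t)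
    (h3 : 0 < ρ) (h4 : 8 * (n * Fintype.card (Cell (8 * (4 * t)) ρ)) ^ 2 ≤ N)
    (h5 : 24 * (n : ℝ) * ((2 : ℝ) ^ (4 * t) * (7 / 8) ^ (8 * (4 * t)) +
      (2 : ℝ) ^ (8 * (4 * t)) * (3 / 4) ^ ρ) ≤ 1)
    (h6 : 4 * n * (N + n + 3) ≤ 2 ^ r₀) (h7 : 8 * (n * r₀) ≤ N)
    (h8 : 2 * epsf ((2 * n + 1 : ℝ) ^ (8 * q)) n q (2 ^ t) * 2 ^ q ≤ 1) :
    ∃ F : CNF ((Fin n × Fin r₀) ⊕ Fin N),
      F.card ≤ 2 * n * (2 ^ r₀ * (2 ^ (8 * (4 * t)) * 2 ^ ρ)) ^ 5 ∧
      (∀ C ∈ F, C.card ≤ 5 * (r₀ + 8 * (4 * t) + ρ) ∧ ¬ Taut C) ∧ Unsat F ∧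
      (∀ K T, Tree F K (fun _ => false) T → 2 ^ q ≤ T * K) ∧
      (∀ s σ T, OTree F s σ (fun _ => false) T → 2 ^ q ≤ T * (8 * s ^ 3)) := by
  classical
  obtain ⟨E, b, hE, hns⟩ := hexpd q n hq h1
  have hn1 : 1 ≤ n := by
    have : 0 < 4 * (24 * q) ^ 5 := by positivity
    omega
  have hN1 : 1 ≤ N := by
    have : 0 < 8 * (n * Fintype.card (Cell (8 * (4 * t)) ρ)) ^ 2 := by
      have : 0 < Fintype.card (Cell (8 * (4 * t)) ρ) := by
        refine Fintype.card_pos_iff.2 ⟨Sum.inr (fun _ => false, ⟨0, h3⟩)⟩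
      positivity
    omega
  have : Nonempty (Fin n) := ⟨⟨0, hn1⟩⟩
  have : Nonempty (Fin N) := ⟨⟨0, hN1⟩⟩
  obtain ⟨loc, hR1, hR2⟩ := hloc (Fin n) (Fin r₀ → Bool) (Fin N) inferInstance inferInstance
    inferInstance inferInstance inferInstance inferInstance inferInstance inferInstance
    inferInstance (4 * t) ρ (by rw [Fintype.card_fin, Fintype.card_fin]; exact h4)
    (by rw [Fintype.card_fin]; exact h5)
    (by
      rw [Fintype.card_fin, Fintype.card_fin, Fintype.card_fun, Fintype.card_bool,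
        Fintype.card_fin]
      exact h6)
  obtain ⟨c1, c2, c3⟩ := hc1 (Fin n) (Fin (2 * n)) (Fin N) inferInstance inferInstance
    inferInstance inferInstance inferInstance inferInstance r₀ (8 * (4 * t)) ρ E b loc
  rw [Fintype.card_fin] at c1
  have hmain : ∀ K T, Tree (cnfOf E b loc) K (fun _ => false) T → 2 ^ q ≤ T * K := by
    intro K T hT
    set ε : ℝ := epsf (numS (Fin (2 * n)) (8 * q)) n q (2 ^ t) with hε
    have hε0 : 0 ≤ ε := epsf_nonneg (Nat.cast_nonneg _) _ _ _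
    refine htree ((Fin n × Fin r₀) ⊕ Fin N) (Fin n → Fin r₀ → Bool) (Fin N → Bool)
      inferInstance inferInstance inferInstance inferInstance (cnfOf E b loc)
      (fun σ w => joinA σ w)
      (fun σ w => dens E b (8 * q) (fun i => bv (loc i (σ i)) w))
      (fun σ => Function.Injective fun p : Fin n × Cell (8 * (4 * t)) ρ => loc p.1 (σ p.1) p.2)
      (fun σ A => (univ.filter fun i => Bad (4 * t) (pre A) (loc i (σ i))).card ≤ q)
      ε q hq hε0 ?_ ?_ ?_ ?_ ?_ K T hT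
    · intro σ hσ
      exact hroot (Fin n) (Fin (2 * n)) (Fin N) inferInstance inferInstance inferInstance
        inferInstance inferInstance inferInstance _ _ (8 * q) h3 E b hE
        (fun i => loc i (σ i)) hσ
    · intro σ hσ C hC
      obtain ⟨c, hca, hcb⟩ := hc2 (Fin n) (Fin (2 * n)) (Fin N) inferInstance inferInstance
        inferInstance inferInstance inferInstance inferInstance r₀ (8 * (4 * t)) ρ E b loc σ C hC
      have h := hleaf (Fin n) (Fin (2 * n)) (Fin N) inferInstance inferInstance inferInstance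
        inferInstance inferInstance inferInstance _ _ (8 * q) h3 (by omega) E b hE
        (fun i => loc i (σ i)) hσ c (fun w => ¬ Sat (joinA σ w) C) hca hcb
      refine Eq.trans ?_ h
      congr 1
      funext w
      by_cases hs : Sat (joinA σ w) C
      · simp [hs]
      · simp [hs]
    · intro σ hσ A hA R hR
      have h := hrect (Fin n) (Fin (2 * n)) (Fin N) inferInstance inferInstance inferInstance
        inferInstance inferInstance inferInstance _ _ t q h3 E b hE (fun i => loc i (σ i)) hσ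
        (pre A) hA (by rw [Fintype.card_fin]; exact hn1)
        (by rw [Fintype.card_fin]; exact h2) (fun w => R (joinA σ w)) (by
          intro x y hx hy
          rw [← mix_joinA]
          exact hR _ _ hx hy)
      rw [Fintype.card_fin] at h
      exact h
    · intro L hL hLb
      obtain ⟨σ, hσ1, hσ2⟩ := hchoice (Fin n) (Fin r₀ → Bool) (Fin N) inferInstance
        inferInstance inferInstance inferInstance inferInstance inferInstance inferInstance
        inferInstance inferInstance (4 * t) (8 * (4 * t)) ρ q loc hR1 hR2 (L.map pre)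
        (by rw [List.length_map]; exact hL) (by
          intro A hA
          obtain ⟨A', hA', rfl⟩ := List.mem_map.1 hA
          exact hbal (Fin n) (Fin N) inferInstance inferInstance inferInstance inferInstance r₀
            (by rw [Fintype.card_fin, Fintype.card_fin]; exact h7) A' (hLb A' hA'))
      exact ⟨σ, hσ1, fun A hA => hσ2 (pre A) (List.mem_map_of_mem hA)⟩
    · have hH : ((numS (Fin (2 * n)) (8 * q) : ℕ) : ℝ) ≤ (2 * n + 1 : ℝ) ^ (8 * q) := by
        have := hnums (Fin (2 * n)) inferInstance inferInstance (8 * q)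
        rw [Fintype.card_fin] at this
        exact_mod_cast this
      have h9 := epsf_mono hH n q (2 ^ t)
      have h10 : (0 : ℝ) ≤ 2 ^ q := by positivity
      have h11 : 2 * ε * 2 ^ q ≤ 2 * epsf ((2 * n + 1 : ℝ) ^ (8 * q)) n q (2 ^ t) * 2 ^ q := by
        refine mul_le_mul_of_nonneg_right ?_ h10
        linarith
      exact h11.trans h8
  have hcard : 2 ≤ Fintype.card ((Fin n × Fin r₀) ⊕ Fin N) := by
    rw [Fintype.card_sum, Fintype.card_fin]
    have : 8 ≤ N := by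
      have : 0 < (n * Fintype.card (Cell (8 * (4 * t)) ρ)) ^ 2 := by
        have : 0 < Fintype.card (Cell (8 * (4 * t)) ρ) := by
          refine Fintype.card_pos_iff.2 ⟨Sum.inr (fun _ => false, ⟨0, h3⟩)⟩
        positivity
      omega
    omega
  refine ⟨cnfOf E b loc, c1, c2, c3 hns, hmain, fun s σ T hT => ?_⟩
  obtain ⟨T', hTT', hT'⟩ := otree_tree hobdd hcard hT
  exact (hmain _ _ hT').trans (Nat.mul_le_mul_right _ hTT')

theorem final (hrect : StmtRectPos) (hroot : StmtRoot) (hleaf : StmtLeaf) (htree : StmtTree)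
    (hexpd : StmtExpd) (hnums : StmtNumS) (hloc : StmtLoc) (hchoice : StmtChoice)
    (hc1 : StmtCnf1) (hc2 : StmtCnf2) (hbal : StmtBal) (hobdd : StmtObdd)
    (hnum : StmtNum) : Stmt := by
  obtain ⟨e, he⟩ := hnum
  refine ⟨e, ?_⟩
  filter_upwards [he] with q hq
  obtain ⟨k, h1, h2, h3, h4, h5, h6, h7, h8, h9, h10, h11⟩ := hq
  obtain ⟨F, f1, f2, f3, f4, f5⟩ := assemble hrect hroot hleaf htree hexpd hnums hloc
    hchoice hc1 hc2 hbal hobdd (4 * q + 4) (2 ^ (6 * k)) (60 * k) (7680 * k) (3870 * k) (2 ^ (3860 * k))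
    (by omega) h1 h2 h3 h4 (by push_cast; exact h5) h6 h7 (by push_cast; exact h8)
  refine ⟨(Fin (2 ^ (6 * k)) × Fin (3870 * k)) ⊕ Fin (2 ^ (3860 * k)), inferInstance,
    inferInstance, F, ?_, f1.trans h10, ?_, f3, ?_, ?_⟩
  · rw [Fintype.card_sum, Fintype.card_prod, Fintype.card_fin, Fintype.card_fin,
      Fintype.card_fin]
    exact h9
  · intro C hC
    exact ⟨(f2 C hC).1.trans h11, (f2 C hC).2⟩
  · intro K T hT
    exact (Nat.pow_le_pow_right (by norm_num) (by omega)).trans (f4 K T hT)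
  · intro s σ T hT
    have h := f5 s σ T hT
    have h12 : 2 ^ (4 * q + 1) * 8 ≤ T * s ^ 3 * 8 := by
      calc 2 ^ (4 * q + 1) * 8 = 2 ^ (4 * q + 4) := by rw [pow_add, pow_add]; ring
        _ ≤ T * (8 * s ^ 3) := h
        _ = T * s ^ 3 * 8 := by ring
    have h13 : 2 ^ (4 * q + 1) ≤ T * s ^ 3 := Nat.le_of_mul_le_mul_right h12 (by norm_num)
    exact (Nat.pow_le_pow_right (by norm_num) (by omega)).trans h13

end Pool.Agent.OB
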