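import Pool.Agent.Lib_helper80.OB.Stmts

/-!
# Hoeffding's inequality for signs
-/

namespace Pool.Agent.OB

open Finset Pool.Agent.SR

theorem hoeff_av_prod {T : Type} [Fintype T] [DecidableEq T] (g : T → Bool → ℝ) :
    av (fun y : T → Bool => ∏ z, g z (y z)) = ∏ z, ((g z true + g z false) / 2) := by
  unfold av
  have h1 : ∑ y : T → Bool, ∏ z, g z (y z) = ∏ z, ∑ x : Bool, g z x := by
    rw [Finset.prod_univ_sum, Fintype.piFinset_univ]
  rw [h1, Fintype.card_fun, Fintype.card_bool, Finset.prod_div_distrib, Finset.prod_const,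
    Finset.card_univ]
  simp only [Fintype.sum_bool]
  push_cast
  rfl

theorem hoeff_av_exp {T : Type} [Fintype T] [DecidableEq T] (b : T → ℝ) (t : ℝ) :
    av (fun y : T → Bool => Real.exp (t * ∑ z, sg (y z) * b z)) ≤
      Real.exp (t ^ 2 * (∑ z, b z ^ 2) / 2) := by
  have h1 : (fun y : T → Bool => Real.exp (t * ∑ z, sg (y z) * b z)) =
      fun y : T → Bool => ∏ z, Real.exp (t * (sg (y z) * b z)) := by
    funext y
    rw [Finset.mul_sum, Real.exp_sum]
  rw [h1, hoeff_av_prod (fun z x => Real.exp (t * (sg x * b z)))]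
  have h2 : Real.exp (t ^ 2 * (∑ z, b z ^ 2) / 2) = ∏ z, Real.exp ((t * b z) ^ 2 / 2) := by
    rw [← Real.exp_sum]
    congr 1
    rw [Finset.mul_sum, Finset.sum_div]
    exact Finset.sum_congr rfl fun z _ => by ring
  rw [h2]
  refine Finset.prod_le_prod (fun z _ => by positivity) fun z _ => ?_
  have h3 := Real.cosh_le_exp_half_sq (t * b z)
  rw [Real.cosh_eq] at h3
  refine le_trans (le_of_eq ?_) h3
  have e1 : t * (sg true * b z) = -(t * b z) := by
    unfold sg
    simp
  have e2 : t * (sg false * b z) = t * b z := by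
    unfold sg
    simp
  simp only [e1, e2]
  ring

theorem hoeff_one {T : Type} [Fintype T] [DecidableEq T] (b : T → ℝ) (v L : ℝ) (hv : 0 < v)
    (hb : ∑ z, b z ^ 2 ≤ v ^ 2) (hL : 0 ≤ L) :
    fr (fun y : T → Bool => L * v < ∑ z, sg (y z) * b z) ≤ Real.exp (-(L ^ 2 / 2)) := by
  have h1 := markov (f := fun y : T → Bool => Real.exp (L / v * ∑ z, sg (y z) * b z))
    (fun y => (Real.exp_pos _).le) (c := Real.exp (L ^ 2))
    (fun y : T → Bool => L * v < ∑ z, sg (y z) * b z) (fun y hy => by
      refine Real.exp_le_exp.2 ?_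
      have h2 : L ^ 2 = L / v * (L * v) := by
        field_simp
      rw [h2]
      exact mul_le_mul_of_nonneg_left hy.le (by positivity))
  have h2 := hoeff_av_exp b (L / v)
  have h3 : Real.exp ((L / v) ^ 2 * (∑ z, b z ^ 2) / 2) ≤ Real.exp (L ^ 2 / 2) := by
    refine Real.exp_le_exp.2 ?_
    have h4 : (L / v) ^ 2 * (∑ z, b z ^ 2) ≤ (L / v) ^ 2 * v ^ 2 :=
      mul_le_mul_of_nonneg_left hb (by positivity)
    have h5 : (L / v) ^ 2 * v ^ 2 = L ^ 2 := by
      field_simp
    rw [h5] at h4
    linarith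
  have h6 : fr (fun y : T → Bool => L * v < ∑ z, sg (y z) * b z) * Real.exp (L ^ 2) ≤
      Real.exp (-(L ^ 2 / 2)) * Real.exp (L ^ 2) := by
    rw [← Real.exp_add]
    refine (h1.trans h2).trans (h3.trans (Real.exp_le_exp.2 (le_of_eq (by ring))))
  exact le_of_mul_le_mul_right h6 (Real.exp_pos _)

theorem hoeff : StmtHoeff := by
  intro T _ _ b v L hv hb hL
  rcases hv.eq_or_lt with hv0 | hv0
  · subst hv0
    have h1 : ∀ z, b z = 0 := by
      intro z
      have h2 : b z ^ 2 ≤ ∑ z, b z ^ 2 :=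
        Finset.single_le_sum (f := fun z => b z ^ 2) (fun z _ => sq_nonneg _) (Finset.mem_univ z)
      have h3 : b z ^ 2 ≤ 0 := by
        refine h2.trans (hb.trans ?_)
        norm_num
      exact pow_eq_zero_iff (n := 2) (by norm_num) |>.1 (le_antisymm h3 (sq_nonneg _))
    have h2 : fr (fun y : T → Bool => L * 0 < |∑ z, sg (y z) * b z|) ≤
        fr (fun _ : T → Bool => False) := by
      refine fr_mono fun y hy => ?_
      simp only [h1, mul_zero, Finset.sum_const_zero, abs_zero, lt_irrefl] at hy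
    have h3 : fr (fun _ : T → Bool => False) = 0 := by
      classical
      rw [fr_eq]
      simp
    rw [h3] at h2
    exact h2.trans (by positivity)
  · have h1 : fr (fun y : T → Bool => L * v < |∑ z, sg (y z) * b z|) ≤
        fr (fun y : T → Bool => L * v < ∑ z, sg (y z) * b z ∨
          L * v < ∑ z, sg (y z) * (-b z)) := by
      refine fr_mono fun y hy => ?_
      rcases lt_abs.1 hy with h | h
      · exact Or.inl h
      · refine Or.inr ?_
        simpa only [mul_neg, Finset.sum_neg_distrib] using h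
    have h2 := hoeff_one b v L hv0 hb hL
    have h3 := hoeff_one (fun z => -b z) v L hv0 (by simpa using hb) hL
    calc _ ≤ _ := h1
      _ ≤ _ := fr_or_le _ _
      _ ≤ Real.exp (-(L ^ 2 / 2)) + Real.exp (-(L ^ 2 / 2)) := add_le_add h2 h3
      _ = 2 * Real.exp (-(L ^ 2 / 2)) := by ring

end Pool.Agent.OB
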