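import Pool.Agent.Lib_helper80.OB.Stmts

/-!
# Existence of the placements and choice of the selectors
-/

namespace Pool.Agent.OB

open Finset Pool.Agent.SR

/-- Fractions are invariant under equivalences. -/
theorem locl_equiv {Ω Ω' : Type*} [Fintype Ω] [Fintype Ω'] (e : Ω ≃ Ω') (p : Ω' → Prop) :
    fr (fun ω => p (e ω)) = fr p := by
  classical
  rw [fr_eq, fr_eq, Fintype.card_congr e]
  congr 2
  refine Finset.card_bij (fun ω _ => e ω) ?_ ?_ ?_
  · intro ω hω
    simpa using hω
  · intro a _ b _ h
    exact e.injective h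
  · intro b hb
    exact ⟨e.symm b, by simpa using hb, by simp⟩

/-- Fractions of events which depend on the first coordinate. -/
theorem locl_fst {Ω Ω' : Type*} [Fintype Ω] [Fintype Ω'] [Nonempty Ω'] (p : Ω → Prop) :
    fr (fun ω : Ω × Ω' => p ω.1) = fr p := by
  classical
  rw [fr_eq, fr_eq]
  have h1 : (univ.filter fun ω : Ω × Ω' => p ω.1) = (univ.filter p) ×ˢ (univ : Finset Ω') := by
    ext ω
    simp
  rw [h1, Finset.card_product, Finset.card_univ, Fintype.card_prod]
  have h0 : (Fintype.card Ω' : ℝ) ≠ 0 := by exact_mod_cast Fintype.card_ne_zero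
  push_cast
  rw [mul_div_mul_right _ _ h0]

/-- The marginal of the uniform function along an injective map is uniform. -/
theorem locl_marg {D D' P : Type*} [Fintype D] [DecidableEq D] [Fintype D'] [DecidableEq D']
    [Fintype P] [Nonempty P] (g : D → D') (hg : Function.Injective g) (Q : (D → P) → Prop) :
    fr (fun f : D' → P => Q fun d => f (g d)) = fr Q := by
  classical
  let e1 : D' ≃ D ⊕ ((Set.range g)ᶜ : Set D') :=
    (Equiv.Set.sumCompl (Set.range g)).symm.trans
      (Equiv.sumCongr (Equiv.ofInjective g hg).symm (Equiv.refl _))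
  have he1 : ∀ d, e1 (g d) = Sum.inl d := by
    intro d
    have h1 : (Equiv.Set.sumCompl (Set.range g)).symm (g d) =
        Sum.inl (⟨g d, d, rfl⟩ : Set.range g) :=
      Equiv.Set.sumCompl_symm_apply_of_mem (Set.mem_range_self d)
    simp only [e1, Equiv.trans_apply, h1, Equiv.sumCongr_apply, Sum.map_inl]
    congr 1
    rw [Equiv.symm_apply_eq]
    rfl
  let e2 : (D' → P) ≃ (D → P) × (((Set.range g)ᶜ : Set D') → P) :=
    (Equiv.arrowCongr e1 (Equiv.refl P)).trans (Equiv.sumArrowEquivProdArrow _ _ _)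
  have he2 : ∀ f d, (e2 f).1 d = f (g d) := by
    intro f d
    change f (e1.symm (Sum.inl d)) = f (g d)
    rw [← he1 d, Equiv.symm_apply_apply]
  rw [← locl_fst (Ω := D → P) (Ω' := ((Set.range g)ᶜ : Set D') → P) Q, ← locl_equiv e2]
  refine fr_congr fun f => ?_
  have : (e2 f).1 = fun d => f (g d) := funext fun d => he2 f d
  rw [this]

/-- Exchange of averages. -/
theorem locl_swap {Ω Ω' : Type*} [Fintype Ω] [Fintype Ω'] (p : Ω → Ω' → Prop) :
    av (fun ω => fr (p ω)) = av (fun ω' => fr fun ω => p ω ω') := by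
  classical
  have h1 : ∀ ω, fr (p ω) = av (fun ω' => if p ω ω' then (1 : ℝ) else 0) := fun ω => fr_eq_av _
  have h2 : ∀ ω', fr (fun ω => p ω ω') = av (fun ω => if p ω ω' then (1 : ℝ) else 0) :=
    fun ω' => fr_eq_av _
  simp only [h1, h2]
  unfold av
  rw [← Finset.sum_div, ← Finset.sum_div, Finset.sum_comm, div_div, div_div, mul_comm]

theorem locl_av_le {Ω : Type*} [Fintype Ω] [Nonempty Ω] (f : Ω → ℝ) (c : ℝ)
    (h : ∀ ω, f ω ≤ c) : av f ≤ c := by
  have h2 : (av fun _ : Ω => c) = c := by
    have := av_const_mul (Ω := Ω) c fun _ => (1 : ℝ)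
    simp only [mul_one] at this
    rw [this, av_one, mul_one]
  rw [← h2]
  exact av_mono h

theorem locl_exp_half : Real.exp (1 / 2) ≤ 2 := by
  have h := Real.exp_one_lt_d9
  have h1 : Real.exp (1 / 2) ^ 2 = Real.exp 1 := by
    rw [← Real.exp_nat_mul]
    norm_num
  have h2 : Real.exp (1 / 2) ^ 2 ≤ 2 ^ 2 := by
    rw [h1]
    linarith
  exact le_of_sq_le_sq h2 (by norm_num)

/-- The existence of the placements for an abstract type of cells and abstract notions of balanced
sets and bad placements. -/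
theorem locl_abs (tail : StmtTail) (injp : StmtInjp) {ι S P C : Type} [Fintype ι] [DecidableEq ι]
    [Fintype S] [DecidableEq S] [Fintype P] [DecidableEq P] [Fintype C] [DecidableEq C]
    [Nonempty ι] [Nonempty S] [Nonempty P] (Bal : Finset P → Prop) (B : Finset P → (C → P) → Prop)
    (η₀ : ℝ) (hη₀0 : 0 ≤ η₀) (badp : ∀ A, Bal A → fr (B A) ≤ η₀)
    (h1 : 8 * (Fintype.card ι * Fintype.card C) ^ 2 ≤ Fintype.card P)
    (h2 : 24 * (Fintype.card ι : ℝ) * η₀ ≤ 1)
    (h3 : 4 * Fintype.card ι * (Fintype.card P + Fintype.card ι + 3) ≤ Fintype.card S) :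
    ∃ loc : ι → S → C → P,
      (1 / 2 : ℝ) ≤ fr (fun σ : ι → S =>
        Function.Injective fun p : ι × C => loc p.1 (σ p.1) p.2) ∧
      ∀ A : Finset P, Bal A → ∀ i, fr (fun s : S => B A (loc i s)) ≤
        1 / (4 * Fintype.card ι) := by
  classical
  set n : ℕ := Fintype.card ι with hn
  have hn0 : 0 < n := Fintype.card_pos
  have hP0 : 0 < Fintype.card P := Fintype.card_pos
  have hS0 : 0 < Fintype.card S := Fintype.card_pos
  have hnR : (0 : ℝ) < n := by exact_mod_cast hn0
  have hPR : (0 : ℝ) < Fintype.card P := by exact_mod_cast hP0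
  have hSR : (0 : ℝ) < Fintype.card S := by exact_mod_cast hS0
  -- the first bad event
  let inj : (ι → S → C → P) → (ι → S) → Prop := fun loc σ =>
    Function.Injective fun p : ι × C => loc p.1 (σ p.1) p.2
  have e1 : fr (fun loc : ι → S → C → P => ¬ (1 / 2 : ℝ) ≤ fr (inj loc)) ≤ 1 / 4 := by
    have hm := markov (Ω := ι → S → C → P) (f := fun loc => fr fun σ => ¬ inj loc σ)
      (fun loc => fr_nonneg _) (c := 1 / 2) (fun loc => ¬ (1 / 2 : ℝ) ≤ fr (inj loc)) (by
        intro loc hl
        rw [fr_not]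
        linarith)
    have hs : av (fun loc : ι → S → C → P => fr fun σ => ¬ inj loc σ) ≤ 1 / 8 := by
      rw [locl_swap]
      refine locl_av_le _ _ fun σ => ?_
      -- fixed selectors
      have hmarg : fr (fun loc : ι → S → C → P => ¬ inj loc σ) =
          fr (fun f : ι × C → P => ¬ Function.Injective f) := by
        rw [← locl_marg (D := ι × C) (D' := ι × S × C)
          (fun p => (p.1, σ p.1, p.2)) (by
            rintro ⟨i, x⟩ ⟨j, y⟩ hxy
            simp only [Prod.mk.injEq] at hxy
            exact Prod.ext hxy.1 hxy.2.2) (fun f => ¬ Function.Injective f)]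
        let e : (ι × S × C → P) ≃ (ι → S → C → P) :=
          (Equiv.curry ι (S × C) P).trans (Equiv.piCongrRight fun _ => Equiv.curry S C P)
        rw [← locl_equiv e]
        rfl
      rw [hmarg]
      refine (injp (ι × C) P inferInstance inferInstance inferInstance inferInstance
        inferInstance).trans ?_
      rw [Fintype.card_prod, div_le_iff₀ hPR]
      have h1' : (8 : ℝ) * ((n : ℝ) * Fintype.card C) ^ 2 ≤ Fintype.card P := by
        exact_mod_cast h1
      push_cast
      linarith
    linarith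
  -- the second bad event
  have hj : ∀ (A : Finset P) (_ : Bal A) (i : ι),
      fr (fun loc : ι → S → C → P =>
        ¬ fr (fun s : S => B A (loc i s)) ≤ 1 / (4 * n)) ≤
      1 / 2 ^ (Fintype.card P + n + 3) := by
    intro A hA i
    set j : ℕ := Fintype.card S / (4 * n) + 1 with hj
    have hj1 : Fintype.card P + n + 3 ≤ j := by
      have : Fintype.card P + n + 3 ≤ Fintype.card S / (4 * n) := by
        rw [Nat.le_div_iff_mul_le (by positivity)]
        calc (Fintype.card P + n + 3) * (4 * n) = 4 * n * (Fintype.card P + n + 3) := by ring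
          _ ≤ _ := h3
      omega
    have hj2 : (Fintype.card S : ℝ) / (4 * n) ≤ j := by
      rw [div_le_iff₀ (by positivity)]
      have : Fintype.card S < j * (4 * n) := by
        rw [hj]
        exact (Nat.div_lt_iff_lt_mul (by positivity)).1 (Nat.lt_succ_self _)
      exact_mod_cast this.le
    have hmarg : fr (fun loc : ι → S → C → P =>
        ¬ fr (fun s : S => B A (loc i s)) ≤ 1 / (4 * n)) =
        fr (fun f : S → C → P => ¬ fr (fun s : S => B A (f s)) ≤ 1 / (4 * n)) := by
      have m1 := locl_marg (D := Unit) (D' := ι) (P := S → C → P) (fun _ => i)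
        (fun _ _ _ => rfl) (fun f => ¬ fr (fun s : S => B A (f () s)) ≤ 1 / (4 * n))
      have m2 := locl_equiv (Equiv.funUnique Unit (S → C → P))
        (fun f => ¬ fr (fun s : S => B A (f s)) ≤ 1 / (4 * n))
      exact m1.trans m2
    rw [hmarg]
    have ht := tail S (C → P) inferInstance inferInstance inferInstance
      inferInstance (fun _ pl => B A pl) η₀ 4 hη₀0
      (by norm_num) (fun _ => badp A hA) j
    have hmono : fr (fun f : S → C → P =>
        ¬ fr (fun s : S => B A (f s)) ≤ 1 / (4 * n)) ≤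
        fr (fun f : S → C → P => j ≤ Set.ncard {i | B A (f i)}) := by
      refine fr_mono fun f hf => ?_
      rw [not_le, fr_eq, div_lt_div_iff₀ (by positivity) hSR, one_mul] at hf
      have hc : Set.ncard {i | B A (f i)} = (univ.filter fun s : S => B A (f s)).card := by
        rw [← Set.ncard_coe_finset]
        congr 1
        ext s
        simp
      rw [hc]
      have hf' : Fintype.card S < (univ.filter fun s : S => B A (f s)).card * (4 * n) := by
        exact_mod_cast hf
      have : Fintype.card S / (4 * n) < (univ.filter fun s : S => B A (f s)).card := by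
        rw [Nat.div_lt_iff_lt_mul (by positivity)]
        exact hf'
      omega
    refine hmono.trans (ht.trans ?_)
    have hexp : Real.exp ((4 - 1) * η₀ * Fintype.card S) ≤ 2 ^ j := by
      have hle : (4 - 1) * η₀ * (Fintype.card S : ℝ) ≤ (j : ℝ) * (1 / 2) := by
        have h24 : η₀ ≤ 1 / (24 * n) := by
          rw [le_div_iff₀ (by positivity)]
          linarith
        calc (4 - 1) * η₀ * (Fintype.card S : ℝ) ≤ (4 - 1) * (1 / (24 * n)) * Fintype.card S := by
              gcongr
          _ = (Fintype.card S : ℝ) / (4 * n) * (1 / 2) := by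
              field_simp
              norm_num
          _ ≤ _ := by gcongr
      calc Real.exp ((4 - 1) * η₀ * Fintype.card S) ≤ Real.exp ((j : ℝ) * (1 / 2)) :=
            Real.exp_le_exp.2 hle
        _ = Real.exp (1 / 2) ^ j := Real.exp_nat_mul _ _
        _ ≤ 2 ^ j := pow_le_pow_left₀ (Real.exp_pos _).le locl_exp_half j
    calc Real.exp ((4 - 1) * η₀ * Fintype.card S) / 4 ^ j ≤ 2 ^ j / 4 ^ j := by gcongr
      _ = 1 / 2 ^ j := by
        have : (4 : ℝ) ^ j = 2 ^ j * 2 ^ j := by
          rw [← mul_pow]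
          norm_num
        rw [this]
        field_simp
      _ ≤ 1 / 2 ^ (Fintype.card P + n + 3) := by
        gcongr
        norm_num
  have e2 : fr (fun loc : ι → S → C → P => ∃ p ∈ ((univ.filter fun A : Finset P =>
      Bal A) ×ˢ (univ : Finset ι)), ¬ fr (fun s : S => B p.1 (loc p.2 s)) ≤ 1 / (4 * n)) ≤
      1 / 8 := by
    refine (fr_exists_le _ _).trans ?_
    refine (Finset.sum_le_card_nsmul _ _ (1 / 2 ^ (Fintype.card P + n + 3)) ?_).trans ?_
    · intro p hp
      exact hj p.1 (Finset.mem_filter.1 (Finset.mem_product.1 hp).1).2 p.2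
    · rw [nsmul_eq_mul]
      have hcard : ((univ.filter fun A : Finset P => Bal A) ×ˢ (univ : Finset ι)).card ≤
          2 ^ Fintype.card P * 2 ^ n := by
        rw [Finset.card_product]
        refine Nat.mul_le_mul ?_ ?_
        · refine (Finset.card_le_univ _).trans ?_
          rw [Fintype.card_finset]
        · rw [Finset.card_univ]
          exact Nat.lt_two_pow_self.le
      have hcardR : (((univ.filter fun A : Finset P => Bal A) ×ˢ (univ : Finset ι)).card : ℝ) ≤
          2 ^ Fintype.card P * 2 ^ n := by exact_mod_cast hcard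
      calc _ ≤ (2 ^ Fintype.card P * 2 ^ n : ℝ) * (1 / 2 ^ (Fintype.card P + n + 3)) := by
            gcongr
        _ = 1 / 8 := by
            rw [pow_add, pow_add]
            field_simp
            norm_num
  obtain ⟨loc, hloc⟩ := exists_not_of_fr_lt (Ω := ι → S → C → P)
    (p := fun loc => (¬ (1 / 2 : ℝ) ≤ fr (inj loc)) ∨ ∃ p ∈ ((univ.filter fun A : Finset P =>
      Bal A) ×ˢ (univ : Finset ι)), ¬ fr (fun s : S => B p.1 (loc p.2 s)) ≤ 1 / (4 * n)) (by
      refine (fr_or_le _ _).trans_lt ?_
      linarith)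
  push Not at hloc
  refine ⟨loc, hloc.1, fun A hA i => ?_⟩
  exact hloc.2 (A, i) (Finset.mem_product.2 ⟨Finset.mem_filter.2 ⟨mem_univ _, hA⟩, mem_univ _⟩)

theorem loc_exists (tail : StmtTail) (badp : StmtBadp) (injp : StmtInjp) : StmtLoc := by
  intro ι S P _ _ _ _ _ _ _ _ _ a ρ h1 h2 h3
  exact locl_abs tail injp (ι := ι) (S := S) (P := P) (C := Cell (8 * a) ρ)
    PBal (fun A pl => Bad a A pl) _ (by positivity)
    (fun A hA => badp P inferInstance inferInstance inferInstance a ρ A hA) h1 h2 h3

theorem locl_exp : Real.exp (7 / 4) ≤ 6 := by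
  have h := Real.exp_one_lt_d9
  have h1 : Real.exp (7 / 4) ^ 4 = Real.exp 1 ^ 7 := by
    rw [← Real.exp_nat_mul, ← Real.exp_nat_mul]
    norm_num
  have h2 : Real.exp (7 / 4) ^ 4 ≤ 6 ^ 4 := by
    rw [h1]
    calc Real.exp 1 ^ 7 ≤ (2.7182818286 : ℝ) ^ 7 :=
          pow_le_pow_left₀ (Real.exp_pos _).le h.le 7
      _ ≤ 6 ^ 4 := by norm_num
  exact le_of_pow_le_pow_left₀ (by norm_num) (by norm_num) h2

theorem choice (tail : StmtTail) : StmtChoice := by
  classical
  intro ι S P _ _ _ _ _ _ _ _ _ a l ρ q loc h1 h2 L hL hbal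
  have hn0 : 0 < Fintype.card ι := Fintype.card_pos
  have hnR : (0 : ℝ) < Fintype.card ι := by exact_mod_cast hn0
  let inj : (ι → S) → Prop := fun σ =>
    Function.Injective fun p : ι × Cell l ρ => loc p.1 (σ p.1) p.2
  have e1 : fr (fun σ => ¬ inj σ) ≤ 1 / 2 := by
    rw [fr_not]
    linarith
  have hA : ∀ A ∈ L.toFinset, fr (fun σ : ι → S =>
      ¬ (univ.filter fun i => Bad a A (loc i (σ i))).card ≤ q) ≤ 6 / 8 ^ (q + 1) := by
    intro A hA
    have ht := tail ι S inferInstance inferInstance inferInstance inferInstance (fun i s => Bad a A (loc i s)) (1 / (4 * Fintype.card ι)) 8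
      (by positivity) (by norm_num) (fun i => h2 A (hbal A (List.mem_toFinset.1 hA)) i) (q + 1)
    have hmono : fr (fun σ : ι → S =>
        ¬ (univ.filter fun i => Bad a A (loc i (σ i))).card ≤ q) ≤
        fr (fun σ : ι → S => q + 1 ≤ Set.ncard {i | Bad a A (loc i (σ i))}) := by
      refine fr_mono fun σ hσ => ?_
      have hc : Set.ncard {i | Bad a A (loc i (σ i))} =
          (univ.filter fun i => Bad a A (loc i (σ i))).card := by
        rw [← Set.ncard_coe_finset]
        congr 1
        ext s
        simp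
      rw [hc]
      omega
    refine hmono.trans (ht.trans ?_)
    have : (8 - 1) * (1 / (4 * (Fintype.card ι : ℝ))) * (Fintype.card ι : ℝ) = 7 / 4 := by
      field_simp
      norm_num
    rw [this]
    gcongr
    exact locl_exp
  have e2 : fr (fun σ : ι → S => ∃ A ∈ L.toFinset,
      ¬ (univ.filter fun i => Bad a A (loc i (σ i))).card ≤ q) < 1 / 2 := by
    refine ((fr_exists_le _ _).trans (Finset.sum_le_card_nsmul _ _ (6 / 8 ^ (q + 1)) hA)).trans_lt
      ?_
    rw [nsmul_eq_mul]
    have hlen : L.toFinset.card + 1 ≤ 2 ^ q := (L.toFinset_card_le).trans_lt hL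
    have hnum : 12 * L.toFinset.card < 8 ^ (q + 1) := by
      rcases Nat.eq_zero_or_pos q with rfl | hq
      · simp at hlen ⊢
        simp [hlen]
      · have h8 : 8 ^ (q + 1) = 2 ^ q * (4 ^ q * 8) := by
          rw [pow_succ, show (8 : ℕ) = 2 * 4 by norm_num, mul_pow]
          ring
        have h4 : 4 ≤ 4 ^ q := by
          calc 4 = 4 ^ 1 := by norm_num
            _ ≤ 4 ^ q := Nat.pow_le_pow_right (by norm_num) hq
        rw [h8]
        nlinarith [Nat.mul_le_mul hlen (Nat.mul_le_mul_right 8 h4)]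
    have hnumR : (12 : ℝ) * L.toFinset.card < 8 ^ (q + 1) := by exact_mod_cast hnum
    rw [← mul_div_assoc, div_lt_div_iff₀ (by positivity) (by norm_num)]
    linarith
  obtain ⟨σ, hσ⟩ := exists_not_of_fr_lt (Ω := ι → S)
    (p := fun σ => (¬ inj σ) ∨ ∃ A ∈ L.toFinset,
      ¬ (univ.filter fun i => Bad a A (loc i (σ i))).card ≤ q) (by
      refine (fr_or_le _ _).trans_lt ?_
      linarith)
  push Not at hσ
  refine ⟨σ, hσ.1, fun A hA => ?_⟩
  have := hσ.2 A (List.mem_toFinset.2 hA)
  convert this using 2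

end Pool.Agent.OB
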