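import Mathlib
import Pool.Agent.Lib_helper80.OB.Stmts

/-!
# The choice of the parameters
-/

namespace Pool.Agent.OB

open Finset Pool.Agent.SR

/-- The cardinality of the type of cells. -/
theorem num_card_cell (l ρ : ℕ) : Fintype.card (Cell l ρ) = l + 2 ^ l * ρ := by
  simp [Cell]

/-- Clause 1. -/
theorem num1 (Q n : ℕ) (hQ : 31850496 ≤ Q) (hn : n ≤ Q) : 4 * (24 * n) ^ 5 ≤ Q ^ 6 := by
  have h1 : n ^ 5 ≤ Q ^ 5 := Nat.pow_le_pow_left hn 5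
  calc 4 * (24 * n) ^ 5 = 31850496 * n ^ 5 := by ring
    _ ≤ Q * Q ^ 5 := Nat.mul_le_mul hQ h1
    _ = Q ^ 6 := by ring

/-- Absorbing a factor into a power. -/
theorem num_abs (Q c a b : ℕ) (hc : c ≤ Q) (hab : a + 1 ≤ b) (hQ : 1 ≤ Q) :
    c * Q ^ a ≤ Q ^ b := by
  calc c * Q ^ a ≤ Q * Q ^ a := Nat.mul_le_mul_right _ hc
    _ = Q ^ (a + 1) := by rw [pow_succ, mul_comm]
    _ ≤ Q ^ b := Nat.pow_le_pow_right hQ hab

/-- Clause 4. -/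
theorem num4 (Q k : ℕ) (hQ : 31850496 ≤ Q) (hk : k ≤ Q) :
    8 * (Q ^ 6 * (8 * (4 * (60 * k)) + Q ^ 1920 * (7680 * k))) ^ 2 ≤ Q ^ 3860 := by
  have hQ1 : 1 ≤ Q := by omega
  have h0 : 1 ≤ Q ^ 1920 := Nat.one_le_pow _ _ hQ1
  have h1 : 8 * (4 * (60 * k)) + Q ^ 1920 * (7680 * k) ≤ Q ^ 1922 := by
    calc 8 * (4 * (60 * k)) + Q ^ 1920 * (7680 * k)
        ≤ Q ^ 1920 * (8 * (4 * (60 * k))) + Q ^ 1920 * (7680 * k) :=
          Nat.add_le_add_right (Nat.le_mul_of_pos_left _ h0) _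
      _ = 9600 * k * Q ^ 1920 := by ring
      _ ≤ (Q * Q) * Q ^ 1920 :=
          Nat.mul_le_mul_right _ (Nat.mul_le_mul (by omega) hk)
      _ = Q ^ 1922 := by ring
  calc 8 * (Q ^ 6 * (8 * (4 * (60 * k)) + Q ^ 1920 * (7680 * k))) ^ 2
      ≤ 8 * (Q ^ 6 * Q ^ 1922) ^ 2 :=
        Nat.mul_le_mul_left _ (Nat.pow_le_pow_left (Nat.mul_le_mul_left _ h1) 2)
    _ = 8 * Q ^ 3856 := by ring
    _ ≤ Q ^ 3860 := num_abs Q 8 _ _ (by omega) (by norm_num) hQ1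

/-- Clause 6. -/
theorem num6 (Q : ℕ) (hQ : 31850496 ≤ Q) :
    4 * Q ^ 6 * (Q ^ 3860 + Q ^ 6 + 3) ≤ Q ^ 3870 := by
  have hQ1 : 1 ≤ Q := by omega
  have h1 : Q ^ 6 ≤ Q ^ 3860 := Nat.pow_le_pow_right hQ1 (by norm_num)
  have h2 : 1 ≤ Q ^ 3860 := Nat.one_le_pow _ _ hQ1
  calc 4 * Q ^ 6 * (Q ^ 3860 + Q ^ 6 + 3) ≤ 4 * Q ^ 6 * (5 * Q ^ 3860) :=
        Nat.mul_le_mul_left _ (by omega)
    _ = 20 * Q ^ 3866 := by ring
    _ ≤ Q ^ 3870 := num_abs Q 20 _ _ (by omega) (by norm_num) hQ1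

/-- Clause 7. -/
theorem num7 (Q k : ℕ) (hQ : 31850496 ≤ Q) (hk : k ≤ Q) :
    8 * (Q ^ 6 * (3870 * k)) ≤ Q ^ 3860 := by
  have hQ1 : 1 ≤ Q := by omega
  calc 8 * (Q ^ 6 * (3870 * k)) = 30960 * (Q ^ 6 * k) := by ring
    _ ≤ 30960 * (Q ^ 6 * Q) := Nat.mul_le_mul_left _ (Nat.mul_le_mul_left _ hk)
    _ = 30960 * Q ^ 7 := by ring
    _ ≤ Q ^ 3860 := num_abs Q 30960 _ _ (by omega) (by norm_num) hQ1

/-- Clause 9. -/
theorem num9 (Q k : ℕ) (hQ : 31850496 ≤ Q) (hk : k ≤ Q) :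
    Q ^ 6 * (3870 * k) + Q ^ 3860 ≤ Q ^ 67360 := by
  have hQ1 : 1 ≤ Q := by omega
  have h1 := num7 Q k hQ hk
  calc Q ^ 6 * (3870 * k) + Q ^ 3860 ≤ 2 * Q ^ 3860 := by omega
    _ ≤ Q ^ 67360 := num_abs Q 2 _ _ (by omega) (by norm_num) hQ1

/-- Clause 10. -/
theorem num10 (Q : ℕ) (hQ : 31850496 ≤ Q) :
    2 * Q ^ 6 * (Q ^ 3870 * (Q ^ 1920 * Q ^ 7680)) ^ 5 ≤ Q ^ 67360 := by
  have hQ1 : 1 ≤ Q := by omega
  calc 2 * Q ^ 6 * (Q ^ 3870 * (Q ^ 1920 * Q ^ 7680)) ^ 5 = 2 * Q ^ 67356 := by ring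
    _ ≤ Q ^ 67360 := num_abs Q 2 _ _ (by omega) (by norm_num) hQ1

/-- Clause 5. -/
theorem num5 (k : ℕ) (hk : 1 ≤ k) :
    24 * ((2 : ℝ) ^ (6 * k)) *
      ((2 : ℝ) ^ (4 * (60 * k)) * (7 / 8) ^ (8 * (4 * (60 * k))) +
        (2 : ℝ) ^ (8 * (4 * (60 * k))) * (3 / 4) ^ (7680 * k)) ≤ 1 := by
  have e1 : (2 : ℝ) ^ (4 * (60 * k)) * (7 / 8) ^ (8 * (4 * (60 * k))) ≤ (1 / 2) ^ (80 * k) := by
    calc (2 : ℝ) ^ (4 * (60 * k)) * (7 / 8) ^ (8 * (4 * (60 * k)))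
        = (2 * (7 / 8) ^ 8) ^ (4 * (60 * k)) := by
          rw [mul_pow, pow_mul (7 / 8 : ℝ) 8]
      _ ≤ (3 / 4 : ℝ) ^ (4 * (60 * k)) := by
          apply pow_le_pow_left₀ (by positivity); norm_num
      _ = ((3 / 4 : ℝ) ^ 3) ^ (80 * k) := by
          rw [← pow_mul]; congr 1; ring
      _ ≤ (1 / 2) ^ (80 * k) := by
          apply pow_le_pow_left₀ (by positivity); norm_num
  have e2 : (2 : ℝ) ^ (8 * (4 * (60 * k))) * (3 / 4) ^ (7680 * k) ≤ (1 / 2) ^ (80 * k) := by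
    calc (2 : ℝ) ^ (8 * (4 * (60 * k))) * (3 / 4) ^ (7680 * k)
        = (2 * (3 / 4) ^ 4) ^ (8 * (4 * (60 * k))) := by
          rw [mul_pow, ← pow_mul]
          congr 2
          ring
      _ ≤ (3 / 4 : ℝ) ^ (8 * (4 * (60 * k))) := by
          apply pow_le_pow_left₀ (by positivity); norm_num
      _ = ((3 / 4 : ℝ) ^ 3) ^ (640 * k) := by
          rw [← pow_mul]; congr 1; ring
      _ ≤ (1 / 2) ^ (640 * k) := by
          apply pow_le_pow_left₀ (by positivity); norm_num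
      _ ≤ (1 / 2) ^ (80 * k) := by
          apply pow_le_pow_of_le_one (by norm_num) (by norm_num)
          omega
  have e3 : 24 * ((2 : ℝ) ^ (6 * k)) * (2 * (1 / 2) ^ (80 * k)) ≤ 1 := by
    have h1 : (80 : ℕ) * k = 6 * k + 74 * k := by ring
    rw [h1, pow_add]
    have h2 : (2 : ℝ) ^ (6 * k) * (1 / 2) ^ (6 * k) = 1 := by
      rw [← mul_pow]; norm_num
    have h3 : ((1 : ℝ) / 2) ^ (74 * k) ≤ (1 / 2) ^ 74 :=
      pow_le_pow_of_le_one (by norm_num) (by norm_num) (by omega)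
    calc 24 * ((2 : ℝ) ^ (6 * k)) * (2 * ((1 / 2) ^ (6 * k) * (1 / 2) ^ (74 * k)))
        = 48 * ((2 : ℝ) ^ (6 * k) * (1 / 2) ^ (6 * k)) * (1 / 2) ^ (74 * k) := by ring
      _ ≤ 48 * (1 / 2) ^ 74 := by
          rw [h2, mul_one]
          exact mul_le_mul_of_nonneg_left h3 (by norm_num)
      _ ≤ 1 := by norm_num
  calc 24 * ((2 : ℝ) ^ (6 * k)) *
      ((2 : ℝ) ^ (4 * (60 * k)) * (7 / 8) ^ (8 * (4 * (60 * k))) +
        (2 : ℝ) ^ (8 * (4 * (60 * k))) * (3 / 4) ^ (7680 * k))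
      ≤ 24 * ((2 : ℝ) ^ (6 * k)) * (2 * (1 / 2) ^ (80 * k)) := by
        apply mul_le_mul_of_nonneg_left _ (by positivity)
        linarith
    _ ≤ 1 := e3

/-- Clause 8: the error terms. Here `n` stands for `4 q + 4`. -/
theorem num8 (Q k n : ℕ) (hQk : Q = 2 ^ k) (hQ : 31850496 ≤ Q) (hk : k ≤ Q) (hn : n ≤ Q)
    (hn1 : 1 ≤ n) :
    2 * epsf ((2 * (Q : ℝ) ^ 6 + 1) ^ (8 * n)) (Q ^ 6) n (Q ^ 60) * 2 ^ n ≤ 1 := by
  have hQr : (31850496 : ℝ) ≤ Q := by exact_mod_cast hQ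
  have hQ0 : (0 : ℝ) < Q := by linarith
  have hQ1 : (1 : ℝ) ≤ Q := by linarith
  have hkr : (k : ℝ) ≤ Q := by exact_mod_cast hk
  have hnr : (n : ℝ) ≤ Q := by exact_mod_cast hn
  have hQe : (Q : ℝ) ≤ Real.exp k := by
    have h1 : (Q : ℝ) = 2 ^ k := by rw [hQk]; push_cast; rfl
    rw [h1]
    have h2 : (2 : ℝ) ≤ Real.exp 1 := by
      have := Real.add_one_le_exp (1 : ℝ)
      linarith
    calc (2 : ℝ) ^ k ≤ (Real.exp 1) ^ k := pow_le_pow_left₀ (by norm_num) h2 k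
      _ = Real.exp k := by rw [← Real.exp_nat_mul, mul_one]
  have hpow : ∀ m : ℕ, (Q : ℝ) ^ m ≤ Real.exp (m * k) := by
    intro m
    calc (Q : ℝ) ^ m ≤ (Real.exp k) ^ m := pow_le_pow_left₀ hQ0.le hQe m
      _ = Real.exp (m * k) := by rw [← Real.exp_nat_mul]
  have hH0 : (0 : ℝ) ≤ (2 * (Q : ℝ) ^ 6 + 1) ^ (8 * n) := by positivity
  have hH : (2 * (Q : ℝ) ^ 6 + 1) ^ (8 * n) ≤ (Q : ℝ) ^ (56 * n) := by
    have h1 : 2 * (Q : ℝ) ^ 6 + 1 ≤ (Q : ℝ) ^ 7 := by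
      have h2 : (1 : ℝ) ≤ (Q : ℝ) ^ 6 := one_le_pow₀ hQ1
      have h3 : (3 : ℝ) * (Q : ℝ) ^ 6 ≤ Q * (Q : ℝ) ^ 6 :=
        mul_le_mul_of_nonneg_right (by linarith) (by positivity)
      have h4 : (Q : ℝ) * (Q : ℝ) ^ 6 = (Q : ℝ) ^ 7 := by ring
      linarith
    calc (2 * (Q : ℝ) ^ 6 + 1) ^ (8 * n) ≤ ((Q : ℝ) ^ 7) ^ (8 * n) :=
          pow_le_pow_left₀ (by positivity) h1 _
      _ = (Q : ℝ) ^ (56 * n) := by rw [← pow_mul]; congr 1; ring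
  -- term 3
  have t3 : (2 * (Q : ℝ) ^ 6 + 1) ^ (8 * n) / ((Q ^ 60 : ℕ) : ℝ) ^ n ≤ 1 / (Q : ℝ) ^ (4 * n) := by
    have h1 : ((Q ^ 60 : ℕ) : ℝ) ^ n = (Q : ℝ) ^ (56 * n) * (Q : ℝ) ^ (4 * n) := by
      rw [Nat.cast_pow, ← pow_mul, ← pow_add]; congr 1; ring
    rw [h1, div_le_div_iff₀ (by positivity) (by positivity), one_mul]
    exact mul_le_mul_of_nonneg_right hH (by positivity)
  -- term 1
  have t1 : (2 * (Q : ℝ) ^ 6 + 1) ^ (8 * n) * (((Q ^ 6 : ℕ) : ℝ) / ((Q ^ 60 : ℕ) : ℝ)) ^ (2 * n) ≤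
      1 / (Q : ℝ) ^ (4 * n) := by
    have h1 : ((Q ^ 6 : ℕ) : ℝ) / ((Q ^ 60 : ℕ) : ℝ) = 1 / (Q : ℝ) ^ 54 := by
      push_cast
      rw [div_eq_div_iff (by positivity) (by positivity)]
      ring
    rw [h1, div_pow, one_pow, ← pow_mul, mul_one_div,
      div_le_div_iff₀ (by positivity) (by positivity), one_mul]
    calc (2 * (Q : ℝ) ^ 6 + 1) ^ (8 * n) * (Q : ℝ) ^ (4 * n)
        ≤ (Q : ℝ) ^ (56 * n) * (Q : ℝ) ^ (4 * n) :=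
          mul_le_mul_of_nonneg_right hH (by positivity)
      _ = (Q : ℝ) ^ (60 * n) := by rw [← pow_add]; congr 1; ring
      _ ≤ (Q : ℝ) ^ (54 * (2 * n)) := pow_le_pow_right₀ hQ1 (by omega)
  -- term 2
  have t2 : (2 * (Q : ℝ) ^ 6 + 1) ^ (8 * n) * (2 * Real.exp (-(((Q ^ 6 : ℕ) : ℝ) ^ 2 / 2)) *
      (((Q ^ 60 : ℕ) : ℝ) ^ 4 + 2) ^ (Q ^ 6)) ≤ 1 / (Q : ℝ) ^ (4 * n) := by
    have h1 : (((Q ^ 60 : ℕ) : ℝ) ^ 4 + 2) ^ (Q ^ 6) ≤ Real.exp (241 * (Q : ℝ) ^ 7) := by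
      have h2 : ((Q ^ 60 : ℕ) : ℝ) ^ 4 + 2 ≤ (Q : ℝ) ^ 241 := by
        have h3 : ((Q ^ 60 : ℕ) : ℝ) ^ 4 = (Q : ℝ) ^ 240 := by
          push_cast
          rw [← pow_mul]
        have h4 : (1 : ℝ) ≤ (Q : ℝ) ^ 240 := one_le_pow₀ hQ1
        have h5 : (3 : ℝ) * (Q : ℝ) ^ 240 ≤ Q * (Q : ℝ) ^ 240 :=
          mul_le_mul_of_nonneg_right (by linarith) (by positivity)
        have h6 : (Q : ℝ) * (Q : ℝ) ^ 240 = (Q : ℝ) ^ 241 := by ring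
        rw [h3]
        linarith
      calc (((Q ^ 60 : ℕ) : ℝ) ^ 4 + 2) ^ (Q ^ 6) ≤ ((Q : ℝ) ^ 241) ^ (Q ^ 6) :=
            pow_le_pow_left₀ (by positivity) h2 _
        _ = (Q : ℝ) ^ (241 * Q ^ 6) := by rw [← pow_mul]
        _ ≤ Real.exp ((241 * Q ^ 6 : ℕ) * k) := hpow _
        _ ≤ Real.exp (241 * (Q : ℝ) ^ 7) := by
            apply Real.exp_le_exp.mpr
            push_cast
            calc 241 * (Q : ℝ) ^ 6 * k ≤ 241 * (Q : ℝ) ^ 6 * Q :=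
                  mul_le_mul_of_nonneg_left hkr (by positivity)
              _ = 241 * (Q : ℝ) ^ 7 := by ring
    have h2 : (Q : ℝ) ^ (60 * n) ≤ Real.exp (60 * (Q : ℝ) ^ 2) := by
      calc (Q : ℝ) ^ (60 * n) ≤ Real.exp ((60 * n : ℕ) * k) := hpow _
        _ ≤ Real.exp (60 * (Q : ℝ) ^ 2) := by
            apply Real.exp_le_exp.mpr
            push_cast
            calc 60 * (n : ℝ) * k ≤ 60 * Q * Q :=
                  mul_le_mul (mul_le_mul_of_nonneg_left hnr (by norm_num)) hkr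
                    (by positivity) (by positivity)
              _ = 60 * (Q : ℝ) ^ 2 := by ring
    have h3 : (2 : ℝ) ≤ Real.exp 1 := by
      have := Real.add_one_le_exp (1 : ℝ)
      linarith
    rw [le_div_iff₀ (by positivity)]
    have h4 : (((Q ^ 6 : ℕ) : ℝ)) ^ 2 / 2 = (Q : ℝ) ^ 12 / 2 := by
      push_cast; rw [← pow_mul]
    rw [h4]
    have h5 : 60 * (Q : ℝ) ^ 2 + 1 + 241 * (Q : ℝ) ^ 7 ≤ (Q : ℝ) ^ 12 / 2 := by
      have h6 : (Q : ℝ) ^ 2 ≤ (Q : ℝ) ^ 7 := pow_le_pow_right₀ hQ1 (by norm_num)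
      have h7 : (1 : ℝ) ≤ (Q : ℝ) ^ 7 := one_le_pow₀ hQ1
      have h8 : (604 : ℝ) * (Q : ℝ) ^ 7 ≤ Q * (Q : ℝ) ^ 7 :=
        mul_le_mul_of_nonneg_right (by linarith) (by positivity)
      have h9 : (Q : ℝ) * (Q : ℝ) ^ 7 = (Q : ℝ) ^ 8 := by ring
      have h10 : (Q : ℝ) ^ 8 ≤ (Q : ℝ) ^ 12 := pow_le_pow_right₀ hQ1 (by norm_num)
      linarith
    set A := (2 * (Q : ℝ) ^ 6 + 1) ^ (8 * n) with hA
    set B := (((Q ^ 60 : ℕ) : ℝ) ^ 4 + 2) ^ (Q ^ 6) with hB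
    have hB0 : 0 ≤ B := by positivity
    calc A * (2 * Real.exp (-((Q : ℝ) ^ 12 / 2)) * B) * (Q : ℝ) ^ (4 * n)
        = (A * (Q : ℝ) ^ (4 * n)) * 2 * B * Real.exp (-((Q : ℝ) ^ 12 / 2)) := by ring
      _ ≤ (Real.exp (60 * (Q : ℝ) ^ 2)) * Real.exp 1 * Real.exp (241 * (Q : ℝ) ^ 7) *
            Real.exp (-((Q : ℝ) ^ 12 / 2)) := by
          apply mul_le_mul_of_nonneg_right _ (Real.exp_nonneg _)
          apply mul_le_mul _ h1 hB0 (by positivity)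
          apply mul_le_mul _ h3 (by norm_num) (by positivity)
          calc A * (Q : ℝ) ^ (4 * n) ≤ (Q : ℝ) ^ (56 * n) * (Q : ℝ) ^ (4 * n) :=
                mul_le_mul_of_nonneg_right hH (by positivity)
            _ = (Q : ℝ) ^ (60 * n) := by rw [← pow_add]; congr 1; ring
            _ ≤ _ := h2
      _ = Real.exp (60 * (Q : ℝ) ^ 2 + 1 + 241 * (Q : ℝ) ^ 7 + -((Q : ℝ) ^ 12 / 2)) := by
          rw [Real.exp_add, Real.exp_add, Real.exp_add]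
      _ ≤ Real.exp 0 := by
          apply Real.exp_le_exp.mpr
          linarith
      _ = 1 := Real.exp_zero
  have hsum : epsf ((2 * (Q : ℝ) ^ 6 + 1) ^ (8 * n)) (Q ^ 6) n (Q ^ 60) ≤
      3 * (1 / (Q : ℝ) ^ (4 * n)) := by
    unfold epsf
    linarith
  calc 2 * epsf ((2 * (Q : ℝ) ^ 6 + 1) ^ (8 * n)) (Q ^ 6) n (Q ^ 60) * 2 ^ n
      ≤ 2 * (3 * (1 / (Q : ℝ) ^ (4 * n))) * 2 ^ n :=
        mul_le_mul_of_nonneg_right (mul_le_mul_of_nonneg_left hsum (by norm_num)) (by positivity)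
    _ = 6 * 2 ^ n / (Q : ℝ) ^ (4 * n) := by ring
    _ ≤ 1 := by
        rw [div_le_one (by positivity)]
        calc (6 : ℝ) * 2 ^ n ≤ Q * (Q : ℝ) ^ n :=
              mul_le_mul (by linarith) (pow_le_pow_left₀ (by norm_num) (by linarith) n)
                (by positivity) (by positivity)
          _ = (Q : ℝ) ^ (n + 1) := by ring
          _ ≤ (Q : ℝ) ^ (4 * n) := pow_le_pow_right₀ hQ1 (by omega)

/-- NUM. -/
theorem num : StmtNum := by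
  refine ⟨134720, ?_⟩
  filter_upwards [Filter.eventually_ge_atTop 31850496] with q hq
  obtain ⟨k, Q, hQk, hQlo, hQhi, hkpos⟩ :
      ∃ k Q : ℕ, Q = 2 ^ k ∧ 4 * q + 4 ≤ Q ∧ Q ≤ 8 * q + 8 ∧ 1 ≤ k := by
    refine ⟨Nat.clog 2 (4 * q + 4), 2 ^ Nat.clog 2 (4 * q + 4), rfl,
      Nat.le_pow_clog (by norm_num) _, ?_, Nat.clog_pos (by norm_num) (by omega)⟩
    have h1 := Nat.pow_pred_clog_lt_self (b := 2) (by norm_num) (x := 4 * q + 4) (by omega)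
    have h2 : 0 < Nat.clog 2 (4 * q + 4) := Nat.clog_pos (by norm_num) (by omega)
    obtain ⟨m, hm⟩ : ∃ m, Nat.clog 2 (4 * q + 4) = m + 1 := ⟨_, (Nat.succ_pred_eq_of_pos h2).symm⟩
    rw [hm] at h1 ⊢
    simp only [Nat.pred_succ] at h1
    rw [pow_succ]
    omega
  have hQ : 31850496 ≤ Q := by omega
  have hQ1 : 1 ≤ Q := by omega
  have hkQ : k ≤ Q := by rw [hQk]; exact Nat.lt_two_pow_self.le
  have hQq : Q ≤ q ^ 2 := by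
    calc Q ≤ 8 * q + 8 := hQhi
      _ ≤ 9 * q := by omega
      _ ≤ q * q := Nat.mul_le_mul_right _ (by omega)
      _ = q ^ 2 := by ring
  have hpq : Q ^ 67360 ≤ q ^ 134720 := by
    calc Q ^ 67360 ≤ (q ^ 2) ^ 67360 := Nat.pow_le_pow_left hQq _
      _ = q ^ 134720 := by rw [← pow_mul]
  have p6 : (2 : ℕ) ^ (6 * k) = Q ^ 6 := by rw [pow_mul', hQk]
  have p60 : (2 : ℕ) ^ (60 * k) = Q ^ 60 := by rw [pow_mul', hQk]
  have p3860 : (2 : ℕ) ^ (3860 * k) = Q ^ 3860 := by rw [pow_mul', hQk]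
  have p3870 : (2 : ℕ) ^ (3870 * k) = Q ^ 3870 := by rw [pow_mul', hQk]
  have p7680 : (2 : ℕ) ^ (7680 * k) = Q ^ 7680 := by rw [pow_mul', hQk]
  have e1920 : 8 * (4 * (60 * k)) = 1920 * k := by ring
  have p1920 : (2 : ℕ) ^ (8 * (4 * (60 * k))) = Q ^ 1920 := by rw [e1920, pow_mul', hQk]
  have r6 : (2 : ℝ) ^ (6 * k) = (Q : ℝ) ^ 6 := by
    rw [pow_mul', hQk]; push_cast; rfl
  refine ⟨k, ?_, ?_, ?_, ?_, ?_, ?_, ?_, ?_, ?_, ?_, ?_⟩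
  · rw [p6]
    exact num1 Q _ hQ hQlo
  · rw [p6, p60]
    calc 2 * (Q ^ 6) ^ 2 = 2 * Q ^ 12 := by rw [← pow_mul]
      _ ≤ Q ^ 60 := num_abs Q 2 _ _ (by omega) (by norm_num) hQ1
  · omega
  · rw [num_card_cell, p6, p1920, p3860]
    exact num4 Q k hQ hkQ
  · exact num5 k hkpos
  · rw [p6, p3860, p3870]
    exact num6 Q hQ
  · rw [p6, p3860]
    exact num7 Q k hQ hkQ
  · rw [p6, p60, r6]
    exact num8 Q k (4 * q + 4) hQk hQ hkQ hQlo (by omega)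
  · rw [p6, p3860]
    exact (num9 Q k hQ hkQ).trans hpq
  · rw [p6, p3870, p1920, p7680]
    exact (num10 Q hQ).trans hpq
  · have hL : k ≤ Nat.log 2 q + 4 := by
      have h1 : q < 2 ^ (Nat.log 2 q + 1) := Nat.lt_pow_succ_log_self (by norm_num) q
      have h2 : 2 ^ k < 2 ^ (Nat.log 2 q + 5) := by
        calc 2 ^ k = Q := hQk.symm
          _ ≤ 8 * q + 8 := hQhi
          _ ≤ 16 * q := by omega
          _ < 16 * 2 ^ (Nat.log 2 q + 1) := by omega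
          _ = 2 ^ (Nat.log 2 q + 5) := by ring
      have h3 := (Nat.pow_lt_pow_iff_right (by norm_num : 1 < 2)).mp h2
      omega
    have hL4 : 4 ≤ Nat.log 2 q := by
      apply (Nat.le_log_iff_pow_le (by norm_num) (by omega)).mpr
      omega
    omega

end Pool.Agent.OB
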