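import Pool.Agent.Lib_helper80.OB.Stmts

/-!
# Lines of OBDD derivations with the same order are simple
-/

namespace Pool.Agent.OB

open Finset Pool.Agent.SR

set_option linter.unusedSectionVars false

section

variable {V : Type} [Fintype V] [DecidableEq V] {s : ℕ}

/-- From the node `i` the computation on `x` reaches the node `j`, which is a sink or tests a
variable outside `A`, and all variables tested before are in `A`. -/
inductive ObSt (D : BDD V s) (A : Finset V) (x : V → Bool) : Fin s → Fin s → Prop
  | stop {i : Fin s} : (∀ v lo hi, D.node i = Sum.inr (v, lo, hi) → v ∉ A) → ObSt D A x i i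
  | step {i j lo hi : Fin s} {v : V} : D.node i = Sum.inr (v, lo, hi) → v ∈ A →
      ObSt D A x (if x v = true then hi else lo) j → ObSt D A x i j

theorem ObSt.exists_of_out {D : BDD V s} {A : Finset V} {x : V → Bool} {i : Fin s} {b : Bool}
    (h : D.Out x i b) : ∃ j, ObSt D A x i j ∧ D.Out x j b := by
  induction h with
  | @sink i b hi =>
    refine ⟨i, ObSt.stop ?_, BDD.Out.sink hi⟩
    intro v lo hi' h
    rw [hi] at h
    exact absurd h (by simp)
  | @step i lo hi v b hi' hout ih =>
    by_cases hv : v ∈ A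
    · obtain ⟨j, hj, hjb⟩ := ih
      exact ⟨j, ObSt.step hi' hv hj, hjb⟩
    · refine ⟨i, ObSt.stop ?_, BDD.Out.step hi' hout⟩
      intro v' lo' hi'' h
      rw [hi'] at h
      simp only [Sum.inr.injEq, Prod.mk.injEq] at h
      rw [← h.1]
      exact hv

theorem ObSt.stopped {D : BDD V s} {A : Finset V} {x : V → Bool} {i j : Fin s}
    (h : ObSt D A x i j) : ∀ v lo hi, D.node j = Sum.inr (v, lo, hi) → v ∉ A := by
  induction h with
  | stop h => exact h
  | step _ _ _ ih => exact ih

theorem ObSt.det {D : BDD V s} {A : Finset V} {x x' : V → Bool} (hx : ∀ v ∈ A, x v = x' v)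
    {i j j' : Fin s} (h : ObSt D A x i j) (h' : ObSt D A x' i j') : j = j' := by
  induction h with
  | @stop i hs =>
    cases h' with
    | stop _ => rfl
    | step h1 h2 _ => exact absurd h2 (hs _ _ _ h1)
  | @step i j lo hi v h1 h2 h3 ih =>
    cases h' with
    | stop hs => exact absurd h2 (hs _ _ _ h1)
    | @step _ _ lo' hi' v' h1' h2' h3' =>
      rw [h1] at h1'
      simp only [Sum.inr.injEq, Prod.mk.injEq] at h1'
      obtain ⟨rfl, rfl, rfl⟩ := h1'
      apply ih
      rw [hx v h2]
      exact h3'

theorem ob_out_det {D : BDD V s} {x : V → Bool} {i : Fin s} {b b' : Bool}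
    (h : D.Out x i b) (h' : D.Out x i b') : b = b' := by
  induction h with
  | @sink i b hi =>
    cases h' with
    | sink hi' =>
      rw [hi] at hi'
      simpa using hi'
    | step hi' _ =>
      rw [hi] at hi'
      exact absurd hi' (by simp)
  | @step i lo hi v b hi' hout ih =>
    cases h' with
    | sink hi'' =>
      rw [hi'] at hi''
      exact absurd hi'' (by simp)
    | step hi'' hout' =>
      rw [hi'] at hi''
      simp only [Sum.inr.injEq, Prod.mk.injEq] at hi''
      obtain ⟨rfl, rfl, rfl⟩ := hi''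
      exact ih hout'

/-- the initial segment of the order -/
def obA (σ : V ≃ Fin (Fintype.card V)) : Finset V :=
  univ.filter fun v => (σ v : ℕ) < Fintype.card V / 2

theorem ob_out_off {D : BDD V s} {σ : V ≃ Fin (Fintype.card V)} (hD : D.Ordered σ)
    {x x' : V → Bool} (hx : ∀ v ∉ obA σ, x v = x' v) {i : Fin s} {b : Bool}
    (h : D.Out x i b) : (∀ v lo hi, D.node i = Sum.inr (v, lo, hi) → v ∉ obA σ) →
      D.Out x' i b := by
  induction h with
  | @sink i b hi => intro _; exact BDD.Out.sink hi
  | @step i lo hi v b hi' hout ih =>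
    intro hs
    have hv : v ∉ obA σ := hs _ _ _ hi'
    refine BDD.Out.step hi' ?_
    rw [← hx v hv]
    apply ih
    intro v' lo' hi'' hn hv'
    have hlt := hD i v lo hi hi' (if x v = true then hi else lo) (by
      by_cases hxv : x v = true
      · right; rw [if_pos hxv]
      · left; rw [if_neg hxv]) v' lo' hi'' hn
    apply hv
    simp only [obA, mem_filter, mem_univ, true_and] at hv' ⊢
    have : (σ v : ℕ) < (σ v' : ℕ) := hlt
    omega

/-- The state reached in the diagram after reading the first half of the variables. -/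
theorem ob_state {σ : V ≃ Fin (Fintype.card V)} {f : (V → Bool) → Bool} (h : HasOBDD σ s f) :
    ∃ st : (V → Bool) → Fin s,
      (∀ x x', (∀ v ∈ obA σ, x v = x' v) → st x = st x') ∧
      ∀ x y, st x = st y → f (mix (obA σ) x y) = f y := by
  obtain ⟨D, hD, hf⟩ := h
  have hex : ∀ x, ∃ j, ObSt D (obA σ) x D.root j ∧ D.Out x j (f x) :=
    fun x => ObSt.exists_of_out (hf x)
  choose st hst hout using hex
  refine ⟨st, ?_, ?_⟩
  · intro x x' hxx'
    exact (hst x).det hxx' (hst x')
  · intro x y hxy
    have h1 : st (mix (obA σ) x y) = st y := by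
      rw [← hxy]
      refine (hst _).det ?_ (hst x)
      intro v hv
      simp [mix, hv]
    have h2 := hout (mix (obA σ) x y)
    rw [h1] at h2
    have h3 : D.Out (mix (obA σ) x y) (st y) (f y) := by
      refine ob_out_off hD ?_ (hout y) (hst y).stopped
      intro v hv
      simp [mix, hv]
    exact ob_out_det h2 h3

theorem ob_card (σ : V ≃ Fin (Fintype.card V)) : (obA σ).card = Fintype.card V / 2 := by
  have h : (obA σ).map σ.toEmbedding = univ.filter fun i : Fin (Fintype.card V) =>
      (i : ℕ) < Fintype.card V / 2 := by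
    ext i
    simp only [obA, mem_map, mem_filter, mem_univ, true_and, Equiv.toEmbedding_apply]
    constructor
    · rintro ⟨v, hv, rfl⟩
      exact hv
    · intro hi
      exact ⟨σ.symm i, by simpa using hi, by simp⟩
  rw [← card_map σ.toEmbedding, h]
  have := Fin.card_filter_val_lt (n := Fintype.card V) (m := Fintype.card V / 2)
  omega

end

theorem obdd : StmtObdd := by
  intro V _ _ hV σ f g h s₁ s₂ s₃ M hf hg hh hs₁ hs₂ hs₃
  obtain ⟨st₁, h₁, h₁'⟩ := ob_state hf
  obtain ⟨st₂, h₂, h₂'⟩ := ob_state hg
  obtain ⟨st₃, h₃, h₃'⟩ := ob_state hh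
  have hcard : Fintype.card (Fin s₁ × Fin s₂ × Fin s₃ × Bool × Bool × Bool) ≤
      Fintype.card (Fin (8 * M ^ 3)) := by
    simp only [Fintype.card_prod, Fintype.card_fin, Fintype.card_bool]
    calc s₁ * (s₂ * (s₃ * (2 * (2 * 2)))) ≤ M * (M * (M * (2 * (2 * 2)))) := by gcongr
      _ = 8 * M ^ 3 := by ring
  obtain ⟨emb⟩ := Function.Embedding.nonempty_of_card_le hcard
  refine ⟨obA σ, ?_, fun x => emb (st₁ x, st₂ x, st₃ x, f x, g x, h x), ?_, ?_⟩
  · unfold Balanced
    rw [ob_card]
    omega
  · intro x y hxy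
    have hxy' := emb.injective hxy
    simp only [Prod.mk.injEq] at hxy'
    obtain ⟨e1, e2, e3, e4, e5, e6⟩ := hxy'
    have hm : ∀ v ∈ obA σ, mix (obA σ) x y v = x v := by
      intro v hv
      simp [mix, hv]
    refine congrArg emb ?_
    simp only [Prod.mk.injEq]
    refine ⟨h₁ _ _ hm, h₂ _ _ hm, h₃ _ _ hm, ?_, ?_, ?_⟩
    · rw [h₁' x y e1, e4]
    · rw [h₂' x y e2, e5]
    · rw [h₃' x y e3, e6]
  · intro F hF x y hxy
    have hxy' := emb.injective hxy
    simp only [Prod.mk.injEq] at hxy'
    obtain ⟨e1, e2, e3, e4, e5, e6⟩ := hxy'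
    simp only [List.mem_cons, List.not_mem_nil, or_false] at hF
    rcases hF with rfl | rfl | rfl
    · exact e4
    · exact e5
    · exact e6

end Pool.Agent.OB
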