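import Pool.Agent.Lib_helper80.OB.Stmts

/-!
# Averaging over overridden assignments
-/

namespace Pool.Agent.OB

open Finset Pool.Agent.SR

section

variable {ι K P : Type} {act : ι → Prop} {e : ι → K → P}

theorem ovr_act (h : ∀ i k i' k', act i → act i' → e i k = e i' k' → i = i' ∧ k = k')
    (w : P → Bool) (t : ι → K → Bool) {i : ι} (k : K) (hi : act i) :
    ovr act e w t (e i k) = t i k := by
  have hp : ∃ z : ι × K, act z.1 ∧ e z.1 z.2 = e i k := ⟨(i, k), hi, rfl⟩
  unfold ovr
  rw [dif_pos hp]
  obtain ⟨h1, h2⟩ := h _ _ _ _ hp.choose_spec.1 hi hp.choose_spec.2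
  rw [h1, h2]

theorem ovr_not (w : P → Bool) (t : ι → K → Bool) {p : P}
    (hp : ¬ ∃ z : ι × K, act z.1 ∧ e z.1 z.2 = p) : ovr act e w t p = w p := by
  unfold ovr
  rw [dif_neg hp]

open Classical in
/-- The exchange of the values of `w` at the active positions with `t`. -/
noncomputable def exch (act : ι → Prop) (e : ι → K → P)
    (z : (P → Bool) × (ι → K → Bool)) : (P → Bool) × (ι → K → Bool) :=
  (ovr act e z.1 z.2, fun i k => if act i then z.1 (e i k) else z.2 i k)

theorem exch_exch (h : ∀ i k i' k', act i → act i' → e i k = e i' k' → i = i' ∧ k = k')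
    (z : (P → Bool) × (ι → K → Bool)) : exch act e (exch act e z) = z := by
  obtain ⟨w, t⟩ := z
  refine Prod.ext (funext fun p => ?_) (funext fun i => funext fun k => ?_)
  · by_cases hp : ∃ z : ι × K, act z.1 ∧ e z.1 z.2 = p
    · obtain ⟨⟨i, k⟩, hi, rfl⟩ := hp
      simp only [exch]
      rw [ovr_act h _ _ k hi, if_pos hi]
    · simp only [exch]
      rw [ovr_not _ _ hp, ovr_not _ _ hp]
  · simp only [exch]
    by_cases hi : act i
    · rw [if_pos hi, ovr_act h _ _ k hi]
    · rw [if_neg hi, if_neg hi]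

end

theorem over' : StmtOver := by
  classical
  intro ι K P _ _ _ _ _ _ act e h F
  have h1 : ∑ z : (P → Bool) × (ι → K → Bool), F (ovr act e z.1 z.2) =
      ∑ z : (P → Bool) × (ι → K → Bool), F z.1 := by
    exact Function.Bijective.sum_comp (Function.Involutive.bijective (exch_exch h))
      (fun z : (P → Bool) × (ι → K → Bool) => F z.1)
  rw [Fintype.sum_prod_type, Fintype.sum_prod_type] at h1
  simp only [Finset.sum_const, Finset.card_univ, nsmul_eq_mul] at h1
  unfold av
  rw [← Finset.sum_div, h1, ← Finset.mul_sum]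
  have h2 : (Fintype.card (ι → K → Bool) : ℝ) ≠ 0 := by
    exact_mod_cast Fintype.card_ne_zero
  field_simp

end Pool.Agent.OB
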