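import Pool.Agent.Lib_helper80.OB.Stmts

/-!
# The density-restoring partition
-/

namespace Pool.Agent.OB

open Finset Pool.Agent.SR

namespace PartAux

variable {ι U : Type} [Fintype ι] [DecidableEq ι] [Fintype U] [DecidableEq U]

/-- The number of functions which agree with `β` on `I`. -/
theorem card_agree (I : Finset ι) (β : ι → U) :
    (univ.filter fun u : ι → U => ∀ i ∈ I, u i = β i).card * Fintype.card U ^ I.card =
      Fintype.card (ι → U) := by
  have h1 : (univ.filter fun u : ι → U => ∀ i ∈ I, u i = β i) =
      Fintype.piFinset (fun i => if i ∈ I then {β i} else univ) := by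
    ext u
    simp only [mem_filter, mem_univ, true_and, Fintype.mem_piFinset]
    constructor
    · intro hu i
      by_cases hi : i ∈ I
      · simp [hi, hu i hi]
      · simp [hi]
    · intro hu i hi
      have := hu i
      simpa [hi] using this
  have h2 : Fintype.card U ^ I.card = ∏ i : ι, (if i ∈ I then Fintype.card U else 1) := by
    rw [prod_ite_mem, univ_inter, prod_const]
  rw [h1, Fintype.card_piFinset, h2, ← prod_mul_distrib, Fintype.card_pi, prod_congr rfl]
  intro i _
  by_cases hi : i ∈ I
  · simp [hi]
  · simp [hi]

theorem card_le (X : Finset (ι → U)) (I : Finset ι) (β : ι → U) :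
    (X.filter fun u => ∀ i ∈ I, u i = β i).card * Fintype.card U ^ I.card ≤
      Fintype.card (ι → U) := by
  rw [← card_agree I β]
  refine Nat.mul_le_mul_right _ (card_le_card ?_)
  exact filter_subset_filter _ (subset_univ X)

end PartAux

/-- The density-restoring partition. -/
theorem part : StmtPart := by
  intro ι U _ _ _ _ h q hh hU G φ H e hφ he hyp X
  have hUpos : 0 < Fintype.card U := by
    rw [hU]
    positivity
  have : Nonempty U := Fintype.card_pos_iff.mp hUpos
  have hH : 0 ≤ H := (abs_nonneg _).trans (hφ (Classical.arbitrary _))
  have hhR : (0 : ℝ) < (h : ℝ) ^ q := by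
    have : (0 : ℝ) < h := by exact_mod_cast hh
    positivity
  induction hn : X.card using Nat.strong_induction_on generalizing X with
  | _ n ih =>
    by_cases hsmall : X.card * h ^ q ≤ Fintype.card (ι → U)
    · have h1 : -(H * X.card) ≤ ∑ u ∈ X, φ u := by
        have : ∑ u ∈ X, (-H) ≤ ∑ u ∈ X, φ u :=
          sum_le_sum fun u _ => (abs_le.mp (hφ u)).1
        rw [sum_const, nsmul_eq_mul] at this
        linarith
      have h2 : (X.card : ℝ) ≤ (Fintype.card (ι → U) : ℝ) / (h : ℝ) ^ q := by
        rw [le_div_iff₀ hhR]
        exact_mod_cast hsmall
      have h3 := mul_le_mul_of_nonneg_left h2 hH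
      have h4 : 0 ≤ e * X.card := by positivity
      rw [hn] at h1 h3 h4
      linarith
    · push Not at hsmall
      let S : Finset (Finset ι) := by
        classical
        exact G.powerset.filter fun I => ∃ β : ι → U,
          X.card ≤ (X.filter fun u => ∀ i ∈ I, u i = β i).card * h ^ (3 * I.card)
      have hS : ∀ I, I ∈ S ↔ I ⊆ G ∧ ∃ β : ι → U,
          X.card ≤ (X.filter fun u => ∀ i ∈ I, u i = β i).card * h ^ (3 * I.card) := by
        intro I
        simp [S]
      have hne : S.Nonempty := by
        refine ⟨∅, (hS ∅).mpr ⟨empty_subset _, Classical.arbitrary _, ?_⟩⟩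
        simp
      obtain ⟨I, hI, hmax⟩ := exists_max_image S card hne
      obtain ⟨hIG, β, hβ⟩ := (hS I).mp hI
      set X' := X.filter fun u => ∀ i ∈ I, u i = β i with hX'
      have hXpos : 0 < X.card := by
        by_contra h0
        have h0' : X.card = 0 := by omega
        rw [h0'] at hsmall
        simp at hsmall
      have hX'pos : 0 < X'.card := by
        by_contra h0
        have h0' : X'.card = 0 := by omega
        rw [h0'] at hβ
        omega
      have hIq : I.card ≤ q := by
        by_contra hq
        push Not at hq
        have h1 := PartAux.card_le X I β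
        rw [hU, ← pow_mul, ← hX'] at h1
        have h2 : X.card * h ^ q ≤ X'.card * h ^ (4 * I.card) := by
          calc X.card * h ^ q ≤ X'.card * h ^ (3 * I.card) * h ^ q :=
                Nat.mul_le_mul_right _ hβ
            _ ≤ X'.card * h ^ (3 * I.card) * h ^ I.card :=
                Nat.mul_le_mul_left _ (Nat.pow_le_pow_right hh hq.le)
            _ = X'.card * h ^ (4 * I.card) := by
                rw [mul_assoc, ← pow_add]
                congr 2
                ring
        omega
      have hagree : ∀ u ∈ X', ∀ v ∈ X', ∀ i ∈ I, u i = v i := by
        intro u hu v hv i hi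
        rw [hX', mem_filter] at hu hv
        rw [hu.2 i hi, hv.2 i hi]
      have hdens : ∀ J : Finset ι, J ⊆ G → Disjoint J I → ∀ β' : ι → U,
          (X'.filter fun u => ∀ i ∈ J, u i = β' i).card * h ^ (3 * J.card) ≤ X'.card := by
        intro J hJG hJI β'
        by_contra hcon
        push Not at hcon
        rcases J.eq_empty_or_nonempty with hJ | hJ
        · subst hJ
          simp at hcon
        · have hmem : I ∪ J ∈ S := by
            refine (hS _).mpr ⟨union_subset hIG hJG, fun i => if i ∈ I then β i else β' i, ?_⟩
            have e1 : (X.filter fun u => ∀ i ∈ I ∪ J, u i = if i ∈ I then β i else β' i) =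
                X'.filter fun u => ∀ i ∈ J, u i = β' i := by
              ext u
              simp only [hX', mem_filter, mem_union, and_assoc]
              refine and_congr_right fun _ => ?_
              constructor
              · intro hu
                refine ⟨fun i hi => ?_, fun i hi => ?_⟩
                · have := hu i (Or.inl hi)
                  rwa [if_pos hi] at this
                · have := hu i (Or.inr hi)
                  have hiI : i ∉ I := disjoint_left.mp hJI hi
                  rwa [if_neg hiI] at this
              · rintro ⟨hu1, hu2⟩ i hi
                by_cases hiI : i ∈ I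
                · rw [if_pos hiI]
                  exact hu1 i hiI
                · rw [if_neg hiI]
                  exact hu2 i (hi.resolve_left hiI)
            rw [e1, card_union_of_disjoint hJI.symm]
            calc X.card ≤ X'.card * h ^ (3 * I.card) := hβ
              _ ≤ (X'.filter fun u => ∀ i ∈ J, u i = β' i).card * h ^ (3 * J.card) *
                    h ^ (3 * I.card) := Nat.mul_le_mul_right _ hcon.le
              _ = _ := by
                rw [mul_assoc, ← pow_add]
                congr 2
                ring
          have h1 := hmax _ hmem
          rw [card_union_of_disjoint hJI.symm] at h1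
          have := hJ.card_pos
          omega
      have hmain := hyp X' I hIG hIq hagree hdens
      have hsub : X' ⊆ X := filter_subset _ _
      have hcard : (X \ X').card + X'.card = X.card := card_sdiff_add_card_eq_card hsub
      have hrest := ih (X \ X').card (by omega) (X \ X') rfl
      have hsum : ∑ u ∈ X \ X', φ u + ∑ u ∈ X', φ u = ∑ u ∈ X, φ u := sum_sdiff hsub
      have hcardR : ((X \ X').card : ℝ) + X'.card = X.card := by exact_mod_cast hcard
      rw [← hsum]
      rw [hn] at hcardR
      have : e * ((X \ X').card : ℝ) + e * X'.card = e * n := by
        rw [← mul_add, hcardR]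
      linarith

end Pool.Agent.OB
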