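import Mathlib
import Pool.Agent.Lib_helper80.OB.Stmts

/-!
# Elementary probability estimates (NUMS, TAIL, BADP, INJP)
-/

namespace Pool.Agent.OB

open Finset Pool.Agent.SR

/-- NUMS. -/
theorem numS_le : StmtNumS := by
  intro κ _ _ r
  unfold numS
  have h : (univ.filter fun s : Finset κ => s.card ≤ r) ⊆
      (univ : Finset (Fin r → Option κ)).image
        (fun f => univ.filter fun c => ∃ i, f i = some c) := by
    intro s hs
    rw [Finset.mem_filter] at hs
    rw [Finset.mem_image]
    refine ⟨fun i => if h : i.1 < s.card then some (s.equivFin.symm ⟨i.1, h⟩ : κ) else none,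
      Finset.mem_univ _, ?_⟩
    ext c
    simp only [Finset.mem_filter, Finset.mem_univ, true_and]
    constructor
    · rintro ⟨i, hi⟩
      split_ifs at hi with h
      rw [Option.some.injEq] at hi
      rw [← hi]
      exact (s.equivFin.symm ⟨i.1, h⟩).2
    · intro hc
      refine ⟨⟨(s.equivFin ⟨c, hc⟩).1, lt_of_lt_of_le (s.equivFin ⟨c, hc⟩).2 hs.2⟩, ?_⟩
      rw [dif_pos (s.equivFin ⟨c, hc⟩).2]
      simp
  calc _ ≤ _ := Finset.card_le_card h
    _ ≤ (univ : Finset (Fin r → Option κ)).card := Finset.card_image_le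
    _ = _ := by rw [Finset.card_univ, Fintype.card_fun, Fintype.card_option, Fintype.card_fin]

/-- The average of a product over independent coordinates. -/
theorem prob_av_pi {ι Ω : Type} [Fintype ι] [DecidableEq ι] [Fintype Ω] (g : ι → Ω → ℝ) :
    av (fun f : ι → Ω => ∏ i, g i (f i)) = ∏ i, av (g i) := by
  classical
  unfold av
  rw [Finset.prod_div_distrib, Finset.prod_univ_sum, Fintype.piFinset_univ]
  congr 1
  rw [Fintype.card_fun, Finset.prod_const, Finset.card_univ]
  push_cast
  rfl

/-- The average of a two valued function. -/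
theorem prob_av_ite {Ω : Type} [Fintype Ω] [Nonempty Ω] (p : Ω → Prop) [DecidablePred p]
    (z : ℝ) : av (fun x => if p x then z else 1) = 1 + (z - 1) * fr p := by
  have e1 : (fun x : Ω => if p x then z else 1) =
      fun x => (fun _ => (1 : ℝ)) x + (fun x => (z - 1) * if p x then (1 : ℝ) else 0) x := by
    funext x
    beta_reduce
    by_cases h : p x
    · rw [if_pos h, if_pos h]; ring
    · rw [if_neg h, if_neg h]; ring
  rw [e1, av_add, av_one, av_const_mul, ← fr_eq_av p]

/-- TAIL. -/
theorem tail : StmtTail := by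
  classical
  intro ι Ω _ _ _ _ p η z hη hz hp j
  have h1 := markov (Ω := ι → Ω)
    (f := fun f => ∏ i, (fun i x => if p i x then z else 1) i (f i))
    (fun f => Finset.prod_nonneg fun i _ => by
      beta_reduce; split_ifs
      · linarith
      · norm_num) (c := z ^ j)
    (fun f : ι → Ω => j ≤ Set.ncard {i | p i (f i)}) (by
      intro f hf
      beta_reduce
      rw [Finset.prod_ite, Finset.prod_const_one, mul_one, Finset.prod_const]
      have hc : (univ.filter fun i => p i (f i)).card = Set.ncard {i | p i (f i)} := by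
        rw [← Set.ncard_coe_finset]
        congr 1
        ext i; simp
      rw [hc]
      exact pow_le_pow_right₀ hz hf)
  rw [prob_av_pi (fun i x => if p i x then z else 1)] at h1
  rw [le_div_iff₀ (by positivity)]
  refine h1.trans ?_
  have h2 : ∀ i, av (fun x => if p i x then z else 1) ≤ Real.exp ((z - 1) * η) := by
    intro i
    rw [prob_av_ite]
    have h3 : (z - 1) * fr (p i) ≤ (z - 1) * η := by
      apply mul_le_mul_of_nonneg_left (hp i); linarith
    have h4 := Real.add_one_le_exp ((z - 1) * η)
    linarith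
  have h5 : ∀ i, 0 ≤ av (fun x => if p i x then z else 1) := fun i =>
    av_nonneg fun x => by
      split_ifs
      · linarith
      · norm_num
  calc ∏ i, av (fun x => if p i x then z else 1) ≤ ∏ i : ι, Real.exp ((z - 1) * η) :=
        Finset.prod_le_prod (fun i _ => h5 i) (fun i _ => h2 i)
    _ = Real.exp ((z - 1) * η * Fintype.card ι) := by
        rw [Finset.prod_const, Finset.card_univ, ← Real.exp_nat_mul]
        congr 1; ring

/-- The fraction of functions with all values at the points of `D` in `A`. -/
theorem prob_fr_all {D P ι : Type} [Fintype D] [DecidableEq D] [Fintype P] [DecidableEq P]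
    [Nonempty P] [Fintype ι] (e : ι → D) (he : Function.Injective e) (A : Finset P) :
    fr (fun f : D → P => ∀ j, f (e j) ∈ A) =
      ((A.card : ℝ) / Fintype.card P) ^ Fintype.card ι := by
  classical
  have h1 : fr (fun f : D → P => ∀ j, f (e j) ∈ A) =
      fr (fun f : D → P => ∀ d, (d ∈ univ.image e → f d ∈ A)) := by
    refine fr_congr fun f => ?_
    constructor
    · intro h d hd
      obtain ⟨j, _, rfl⟩ := Finset.mem_image.1 hd
      exact h j
    · intro h j
      exact h _ (Finset.mem_image_of_mem _ (Finset.mem_univ j))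
  rw [h1, fr_pi (fun d (x : P) => d ∈ univ.image e → x ∈ A)]
  have h2 : ∀ d, fr (fun x : P => d ∈ univ.image e → x ∈ A) =
      if d ∈ univ.image e then (A.card : ℝ) / Fintype.card P else 1 := by
    intro d
    split_ifs with hd
    · rw [← fr_mem]
      exact fr_congr fun x => ⟨fun h => h hd, fun h _ => h⟩
    · rw [← fr_true (Ω := P)]
      exact fr_congr fun x => ⟨fun _ => trivial, fun _ h => absurd h hd⟩
  simp_rw [h2]
  rw [Finset.prod_ite_mem, Finset.univ_inter, Finset.prod_const,
    Finset.card_image_of_injective _ he, Finset.card_univ]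

/-- BADP. -/
theorem badp : StmtBadp := by
  classical
  intro P _ _ _ a ρ A hA
  have hP0 : (0 : ℝ) < Fintype.card P := by exact_mod_cast Fintype.card_pos
  have hA1 : (1 / 4 : ℝ) ≤ (A.card : ℝ) / Fintype.card P := by
    rw [le_div_iff₀ hP0]
    have : (Fintype.card P : ℝ) ≤ 4 * A.card := by exact_mod_cast hA.1
    linarith
  have hA2 : (A.card : ℝ) / Fintype.card P ≤ 3 / 4 := by
    rw [div_le_iff₀ hP0]
    have : 4 * (A.card : ℝ) ≤ 3 * Fintype.card P := by exact_mod_cast hA.2
    linarith
  unfold Bad
  refine (fr_or_le _ _).trans (add_le_add ?_ ?_)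
  · -- the pointer bits
    have h1 := markov (Ω := Cell (8 * a) ρ → P)
      (f := fun f => ∏ c, (fun (c : Cell (8 * a) ρ) (x : P) =>
        if (c.isLeft = true ∧ x ∈ A) then (1 / 2 : ℝ) else 1) c (f c))
      (fun f => Finset.prod_nonneg fun i _ => by beta_reduce; split_ifs <;> norm_num)
      (c := (1 / 2) ^ a)
      (fun pl : Cell (8 * a) ρ → P =>
        (univ.filter fun j : Fin (8 * a) => pl (Sum.inl j) ∈ A).card < a) (by
        intro f hf
        beta_reduce
        rw [Finset.prod_ite, Finset.prod_const_one, mul_one, Finset.prod_const]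
        refine pow_le_pow_of_le_one (by norm_num) (by norm_num) ?_
        refine le_trans ?_ hf.le
        have : (univ.filter fun c : Cell (8 * a) ρ => c.isLeft = true ∧ f c ∈ A) ⊆
            (univ.filter fun j : Fin (8 * a) => f (Sum.inl j) ∈ A).image Sum.inl := by
          intro c hc
          rw [Finset.mem_filter] at hc
          rcases c with j | c
          · exact Finset.mem_image_of_mem _ (Finset.mem_filter.2 ⟨Finset.mem_univ _, hc.2.2⟩)
          · simp at hc
        exact (Finset.card_le_card this).trans Finset.card_image_le)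
    rw [prob_av_pi (fun (c : Cell (8 * a) ρ) (x : P) =>
        if (c.isLeft = true ∧ x ∈ A) then (1 / 2 : ℝ) else 1)] at h1
    have h2 : ∏ c : Cell (8 * a) ρ, av (fun x : P =>
        if (c.isLeft = true ∧ x ∈ A) then (1 / 2 : ℝ) else 1) ≤ (7 / 8) ^ (8 * a) := by
      rw [Fintype.prod_sum_type]
      have h3 : ∀ j : Fin (8 * a), av (fun x : P =>
          if ((Sum.inl j : Cell (8 * a) ρ).isLeft = true ∧ x ∈ A) then (1 / 2 : ℝ) else 1)
            ≤ 7 / 8 := by
        intro j
        rw [prob_av_ite (fun x : P => ((Sum.inl j : Cell (8 * a) ρ).isLeft = true ∧ x ∈ A))]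
        have : fr (fun x : P => ((Sum.inl j : Cell (8 * a) ρ).isLeft = true ∧ x ∈ A)) =
            (A.card : ℝ) / Fintype.card P := by
          rw [← fr_mem]
          exact fr_congr fun x => by simp
        rw [this]
        linarith
      have h4 : ∀ c : (Fin (8 * a) → Bool) × Fin ρ, av (fun x : P =>
          if ((Sum.inr c : Cell (8 * a) ρ).isLeft = true ∧ x ∈ A) then (1 / 2 : ℝ) else 1)
            = 1 := by
        intro c
        simp only [Sum.isLeft_inr, Bool.false_eq_true, false_and, if_false]
        exact av_one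
      simp_rw [h4]
      rw [Finset.prod_const_one, mul_one]
      calc _ ≤ ∏ _j : Fin (8 * a), (7 / 8 : ℝ) :=
            Finset.prod_le_prod (fun j _ => av_nonneg fun x => by split_ifs <;> norm_num)
              (fun j _ => h3 j)
        _ = _ := by rw [Finset.prod_const, Finset.card_univ, Fintype.card_fin]
    have h3 := h1.trans h2
    have h5 : (2 : ℝ) ^ a * (1 / 2) ^ a = 1 := by rw [← mul_pow]; norm_num
    calc fr (fun pl : Cell (8 * a) ρ → P =>
        (univ.filter fun j : Fin (8 * a) => pl (Sum.inl j) ∈ A).card < a)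
        = (2 : ℝ) ^ a * (fr (fun pl : Cell (8 * a) ρ → P =>
        (univ.filter fun j : Fin (8 * a) => pl (Sum.inl j) ∈ A).card < a) * (1 / 2) ^ a) := by
          rw [mul_comm (fr _), ← mul_assoc, h5, one_mul]
      _ ≤ _ := mul_le_mul_of_nonneg_left h3 (by positivity)
  · -- the tables
    have h1 : fr (fun pl : Cell (8 * a) ρ → P =>
        ∃ x : Fin (8 * a) → Bool, ∀ j : Fin ρ, pl (Sum.inr (x, j)) ∈ A) ≤
        ∑ x : Fin (8 * a) → Bool, fr (fun pl : Cell (8 * a) ρ → P =>
          ∀ j : Fin ρ, pl (Sum.inr (x, j)) ∈ A) := by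
      refine le_trans (fr_mono fun pl h => ?_) (fr_exists_le univ _)
      obtain ⟨x, hx⟩ := h
      exact ⟨x, Finset.mem_univ _, hx⟩
    refine h1.trans ?_
    have h2 : ∀ x : Fin (8 * a) → Bool, fr (fun pl : Cell (8 * a) ρ → P =>
          ∀ j : Fin ρ, pl (Sum.inr (x, j)) ∈ A) ≤ (3 / 4) ^ ρ := by
      intro x
      rw [prob_fr_all (fun j : Fin ρ => (Sum.inr (x, j) : Cell (8 * a) ρ))
        (fun j j' h => by simpa using h) A, Fintype.card_fin]
      exact pow_le_pow_left₀ (by positivity) hA2 ρ
    calc _ ≤ ∑ _x : Fin (8 * a) → Bool, (3 / 4 : ℝ) ^ ρ := Finset.sum_le_sum fun x _ => h2 x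
      _ = _ := by
        rw [Finset.sum_const, Finset.card_univ, Fintype.card_fun, Fintype.card_fin,
          Fintype.card_bool, nsmul_eq_mul]
        push_cast
        rfl

/-- INJP. -/
theorem injp : StmtInjp := by
  classical
  intro D P _ _ _ _ _
  have hP0 : (0 : ℝ) < Fintype.card P := by exact_mod_cast Fintype.card_pos
  have hpair : ∀ x y : D, x ≠ y → fr (fun f : D → P => f x = f y) ≤ 1 / Fintype.card P := by
    intro x y hxy
    have h1 : fr (fun f : D → P => f x = f y) ≤
        ∑ v : P, fr (fun f : D → P => ∀ j : Fin 2, f (![x, y] j) ∈ ({v} : Finset P)) := by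
      refine le_trans (fr_mono fun f h => ?_) (fr_exists_le univ _)
      refine ⟨f x, Finset.mem_univ _, fun j => ?_⟩
      rw [Finset.mem_singleton]
      fin_cases j
      · rfl
      · exact h.symm
    refine h1.trans ?_
    have h2 : ∀ v : P, fr (fun f : D → P => ∀ j : Fin 2, f (![x, y] j) ∈ ({v} : Finset P)) =
        (1 / (Fintype.card P : ℝ)) ^ 2 := by
      intro v
      rw [prob_fr_all (![x, y]) (by
        intro i j h
        fin_cases i <;> fin_cases j <;> simp_all [Ne.symm]) {v}, Fintype.card_fin]
      simp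
    simp_rw [h2]
    rw [Finset.sum_const, Finset.card_univ, nsmul_eq_mul]
    apply le_of_eq
    field_simp
  have h1 : fr (fun f : D → P => ¬ Function.Injective f) ≤
      ∑ p ∈ (univ : Finset (D × D)).filter (fun p => p.1 ≠ p.2),
        fr (fun f : D → P => f p.1 = f p.2) := by
    refine le_trans (fr_mono fun f h => ?_) (fr_exists_le _ _)
    rw [Function.Injective] at h
    push Not at h
    obtain ⟨x, y, h2, h3⟩ := h
    exact ⟨(x, y), Finset.mem_filter.2 ⟨Finset.mem_univ _, h3⟩, h2⟩
  refine h1.trans ?_
  calc _ ≤ ∑ p ∈ (univ : Finset (D × D)).filter (fun p => p.1 ≠ p.2),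
        (1 / (Fintype.card P : ℝ)) :=
        Finset.sum_le_sum fun p hp => hpair p.1 p.2 (Finset.mem_filter.1 hp).2
    _ = (((univ : Finset (D × D)).filter (fun p => p.1 ≠ p.2)).card : ℝ) *
        (1 / (Fintype.card P : ℝ)) := by rw [Finset.sum_const, nsmul_eq_mul]
    _ ≤ ((Fintype.card D : ℝ) ^ 2) * (1 / (Fintype.card P : ℝ)) := by
        refine mul_le_mul_of_nonneg_right ?_ (by positivity)
        have := Finset.card_le_univ ((univ : Finset (D × D)).filter (fun p => p.1 ≠ p.2))
        rw [Fintype.card_prod] at this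
        have h3 : (((univ : Finset (D × D)).filter (fun p => p.1 ≠ p.2)).card : ℝ) ≤
          (Fintype.card D : ℝ) * Fintype.card D := by exact_mod_cast this
        rw [sq]; exact h3
    _ = _ := by rw [mul_one_div]

end Pool.Agent.OB
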