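import Mathlib
import Pool.Agent.Lib_helper80.OB.Rect

/-!
# The positivity lemma: conditioning
-/

namespace Pool.Agent.OB

open Finset Pool.Agent.SR

theorem le_av {Ω : Type*} [Fintype Ω] [Nonempty Ω] {c : ℝ} {f : Ω → ℝ} (h : ∀ ω, c ≤ f ω) :
    c ≤ av f := by
  have h1 : av (fun _ : Ω => c * 1) = c := by rw [av_const_mul, av_one, mul_one]
  rw [← h1]
  exact av_mono fun ω => by rw [mul_one]; exact h ω

theorem av_comm {Ω Ω' : Type*} [Fintype Ω] [Fintype Ω'] (f : Ω → Ω' → ℝ) :
    av (fun x => av (fun y => f x y)) = av (fun y => av (fun x => f x y)) := by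
  unfold av
  simp_rw [← Finset.sum_div]
  rw [Finset.sum_comm, div_div, div_div, mul_comm (Fintype.card Ω' : ℝ)]

theorem rect (halg : StmtAlg) (hchaos : StmtChaos) (hpart : StmtPart) (hover : StmtOver) :
    StmtRectPos := by
  intro ι κ P _ _ _ _ _ _ l ρ t q hρ E b hE pl hpl A hbad hn1 hn2 R hR
  classical
  have hpl' : ∀ i c i' c', pl i c = pl i' c' → i = i' ∧ c = c' := by
    intro i c i' c' h
    have := @hpl (i, c) (i', c') h
    exact ⟨congrArg Prod.fst this, congrArg Prod.snd this⟩
  have hι : Nonempty ι := Fintype.card_pos_iff.1 hn1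
  obtain ⟨i₀⟩ := hι
  set act : ι → Prop := fun i => ¬ Bad (4 * t) A (pl i) with hact
  -- the free pointer positions
  have hex1 : ∀ i, ∃ e : Fin (4 * t) → P, act i → ∃ f : Fin (4 * t) → Fin l,
      Function.Injective f ∧ (∀ k, e k = pl i (Sum.inl (f k))) ∧ ∀ k, e k ∈ A := by
    intro i
    by_cases hi : act i
    · have h1 : 4 * t ≤ (univ.filter fun j : Fin l => pl i (Sum.inl j) ∈ A).card := by
        by_contra hlt
        exact hi (Or.inl (not_le.1 hlt))
      obtain ⟨emb⟩ : Nonempty (Fin (4 * t) ↪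
          {j // j ∈ (univ.filter fun j : Fin l => pl i (Sum.inl j) ∈ A)}) := by
        refine Function.Embedding.nonempty_of_card_le ?_
        rw [Fintype.card_fin, Fintype.card_coe]
        exact h1
      refine ⟨fun k => pl i (Sum.inl (emb k).1), fun _ => ⟨fun k => (emb k).1, ?_, fun _ => rfl,
        fun k => ?_⟩⟩
      · intro k k' hk
        exact emb.injective (Subtype.ext hk)
      · exact (Finset.mem_filter.1 (emb k).2).2
    · exact ⟨fun _ => pl i₀ (Sum.inr (fun _ => false, ⟨0, hρ⟩)), fun h => absurd h hi⟩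
  choose e₁ he₁ using hex1
  have hex2 : ∀ i (x : Fin l → Bool), ∃ j : Fin ρ, act i → pl i (Sum.inr (x, j)) ∉ A := by
    intro i x
    by_cases hi : act i
    · by_contra hno
      push Not at hno
      exact hi (Or.inr ⟨x, fun j => (hno j).2⟩)
    · exact ⟨⟨0, hρ⟩, fun h => absurd h hi⟩
  choose jst hjst using hex2
  set e₂ : ι → (Fin l → Bool) → P := fun i x => pl i (Sum.inr (x, jst i x)) with he₂
  have inj1 : ∀ i k i' k', act i → act i' → e₁ i k = e₁ i' k' → i = i' ∧ k = k' := by
    intro i k i' k' hi hi' h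
    obtain ⟨f, hf1, hf2, -⟩ := he₁ i hi
    obtain ⟨f', hf1', hf2', -⟩ := he₁ i' hi'
    rw [hf2, hf2'] at h
    obtain ⟨h3, h4⟩ := hpl' _ _ _ _ h
    subst h3
    have h5 : e₁ i k = e₁ i k' := by rw [hf2, hf2', h4]
    rw [hf2, hf2] at h5
    exact ⟨rfl, hf1 (Sum.inl_injective (hpl' _ _ _ _ h5).2)⟩
  have inj2 : ∀ i k i' k', act i → act i' → e₂ i k = e₂ i' k' → i = i' ∧ k = k' := by
    intro i k i' k' _ _ h
    obtain ⟨h3, h4⟩ := hpl' _ _ _ _ h
    exact ⟨h3, congrArg Prod.fst (Sum.inr_injective h4)⟩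
  rw [hover ι (Fin (4 * t)) P inferInstance inferInstance inferInstance inferInstance
    inferInstance inferInstance act e₁ inj1,
    hover ι (Fin l → Bool) P inferInstance inferInstance inferInstance inferInstance
    inferInstance inferInstance act e₂ inj2]
  refine le_av fun w => ?_
  -- the two parts of the rectangle
  set f : (ι → Fin (4 * t) → Bool) → Prop := fun u =>
    ∃ x, R x ∧ ∀ p ∈ A, x p = ovr act e₁ w u p with hf
  set g : (ι → (Fin l → Bool) → Bool) → Prop := fun y =>
    ∃ x, R x ∧ ∀ p, p ∉ A → x p = ovr act e₂ w y p with hg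
  have hA1 : ∀ (v : P → Bool) (u : ι → Fin (4 * t) → Bool) p, p ∉ A →
      ovr act e₁ v u p = v p := by
    intro v u p hp
    refine ovr_off v u fun i k hi h => ?_
    obtain ⟨f', -, -, hf3⟩ := he₁ i hi
    exact hp (h ▸ hf3 k)
  have hA2 : ∀ (v : P → Bool) (y : ι → (Fin l → Bool) → Bool) p, p ∈ A →
      ovr act e₂ v y p = v p := by
    intro v y p hp
    refine ovr_off v y fun i k hi h => ?_
    have h' : pl i (Sum.inr (k, jst i k)) = p := h
    exact hjst i k hi (by rw [h']; exact hp)
  have hA3 : ∀ (y : ι → (Fin l → Bool) → Bool) (u : ι → Fin (4 * t) → Bool) p, p ∈ A →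
      ovr act e₁ (ovr act e₂ w y) u p = ovr act e₁ w u p := by
    intro y u p hp
    by_cases h : ∃ i k, act i ∧ e₁ i k = p
    · obtain ⟨i, k, hi, rfl⟩ := h
      rw [ovr_at inj1 _ _ hi, ovr_at inj1 _ _ hi]
    · push Not at h
      rw [ovr_off _ _ h, ovr_off _ _ h, hA2 _ _ _ hp]
  have hRiff : ∀ (y : ι → (Fin l → Bool) → Bool) (u : ι → Fin (4 * t) → Bool),
      R (ovr act e₁ (ovr act e₂ w y) u) ↔ f u ∧ g y := by
    intro y u
    constructor
    · intro h
      exact ⟨⟨_, h, fun p hp => hA3 y u p hp⟩, ⟨_, h, fun p hp => hA1 _ u p hp⟩⟩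
    · rintro ⟨⟨x₁, h1, h2⟩, ⟨x₂, h3, h4⟩⟩
      have h5 := hR x₁ x₂ h1 h3
      have h6 : mix A x₁ x₂ = ovr act e₁ (ovr act e₂ w y) u := by
        funext p
        unfold mix
        split_ifs with hp
        · rw [h2 p hp, hA3 y u p hp]
        · rw [h4 p hp, hA1 _ u p hp]
      rw [← h6]; exact h5
  -- the signs
  set X : ι → (Fin (4 * t) → Bool) → (Fin l → Bool) := fun i v =>
    ptr (pl i) (ovr act e₁ w (fun _ => v)) with hX
  set a : ι → (Fin (4 * t) → Bool) → ℝ := fun i v =>
    ∏ j ∈ univ.erase (jst i (X i v)), sg (w (pl i (Sum.inr (X i v, j)))) with ha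
  set z₀ : ι → ℝ := fun i => bv (pl i) w with hz₀
  set G : Finset ι := univ.filter act with hG
  have ha' : ∀ i v, a i v = 1 ∨ a i v = -1 := fun i v => pm_prod _ _ fun _ _ => sg_eq _
  have hz' : ∀ i, z₀ i = 1 ∨ z₀ i = -1 := fun i => bv_pm _ _
  have hXinj : ∀ i ∈ G, Function.Injective (X i) := by
    intro i hi v v' hv
    have hi' : act i := (Finset.mem_filter.1 hi).2
    obtain ⟨f', hf1, hf2, -⟩ := he₁ i hi'
    funext k
    have h1 := congrFun hv (f' k)
    simp only [hX, ptr] at h1
    rw [← hf2, ovr_at inj1 _ _ hi', ovr_at inj1 _ _ hi'] at h1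
    exact h1
  have hptr : ∀ (y : ι → (Fin l → Bool) → Bool) (u : ι → Fin (4 * t) → Bool) i,
      ptr (pl i) (ovr act e₁ (ovr act e₂ w y) u) = X i (u i) := by
    intro y u i
    funext j
    simp only [hX, ptr]
    by_cases h : ∃ i' k, act i' ∧ e₁ i' k = pl i (Sum.inl j)
    · obtain ⟨i', k, hi', h1⟩ := h
      obtain ⟨f', hf1, hf2, -⟩ := he₁ i' hi'
      rw [hf2] at h1
      obtain ⟨h2, h3⟩ := hpl' _ _ _ _ h1
      subst h2
      rw [← h3, ← hf2, ovr_at inj1 _ _ hi', ovr_at inj1 _ _ hi']
    · push Not at h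
      rw [ovr_off _ _ h, ovr_off _ _ h, ovr_off _ _ ?_]
      intro i' k _ h1
      have := (hpl' _ _ _ _ h1).2
      cases this
  have htab1 : ∀ (v : P → Bool) (u : ι → Fin (4 * t) → Bool) i c,
      ovr act e₁ v u (pl i (Sum.inr c)) = v (pl i (Sum.inr c)) := by
    intro v u i c
    refine ovr_off v u fun i' k hi' h => ?_
    obtain ⟨f', -, hf2, -⟩ := he₁ i' hi'
    rw [hf2] at h
    have := (hpl' _ _ _ _ h).2
    cases this
  have hbv : ∀ (y : ι → (Fin l → Bool) → Bool) (u : ι → Fin (4 * t) → Bool) i,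
      bv (pl i) (ovr act e₁ (ovr act e₂ w y) u) = zf G X a z₀ y u i := by
    intro y u i
    by_cases hi : act i
    · have hiG : i ∈ G := Finset.mem_filter.2 ⟨Finset.mem_univ _, hi⟩
      unfold bv zf
      rw [if_pos hiG, hptr y u i]
      rw [← Finset.mul_prod_erase univ _ (Finset.mem_univ (jst i (X i (u i))))]
      congr 1
      · rw [htab1]
        have := ovr_at (e := e₂) inj2 w y hi (X i (u i))
        rw [← this]
      · simp only [ha]
        refine Finset.prod_congr rfl fun j hj => ?_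
        rw [htab1, ovr_off]
        intro i' x _ h
        obtain ⟨h1, h2⟩ := hpl' _ _ _ _ h
        subst h1
        have h3 := Sum.inr_injective h2
        have h4 : x = X i' (u i') := congrArg Prod.fst h3
        have h5 : jst i' x = j := congrArg Prod.snd h3
        rw [h4] at h5
        exact (Finset.mem_erase.1 hj).1 h5.symm
    · have hiG : i ∉ G := fun h => hi (Finset.mem_filter.1 h).2
      unfold zf
      rw [if_neg hiG]
      simp only [hz₀]
      have h1 : ∀ c, ovr act e₁ (ovr act e₂ w y) u (pl i c) = w (pl i c) := by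
        intro c
        rw [ovr_off, ovr_off]
        · intro i' x hi' h
          obtain ⟨h2, -⟩ := hpl' _ _ _ _ h
          exact hi (h2 ▸ hi')
        · intro i' k hi' h
          obtain ⟨f', -, hf2, -⟩ := he₁ i' hi'
          rw [hf2] at h
          obtain ⟨h2, -⟩ := hpl' _ _ _ _ h
          exact hi (h2 ▸ hi')
      have h2 : ptr (pl i) (ovr act e₁ (ovr act e₂ w y) u) = ptr (pl i) w := by
        funext j
        exact h1 _
      unfold bv
      rw [h2]
      exact Finset.prod_congr rfl fun j _ => by rw [h1]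
  -- rewrite the average
  have hU : Fintype.card (Fin (4 * t) → Bool) = (2 ^ t) ^ 4 := by
    rw [Fintype.card_fun, Fintype.card_bool, Fintype.card_fin, ← pow_mul, mul_comm]
  set φ : (ι → Fin (4 * t) → Bool) → ℝ := fun u =>
    av (fun y : ι → (Fin l → Bool) → Bool => (if g y then (1 : ℝ) else 0) *
      dens E b (8 * q) (zf G X a z₀ y u)) with hφ
  have hval : av (fun y : ι → (Fin l → Bool) → Bool =>
      av (fun u : ι → Fin (4 * t) → Bool =>
        (if R (ovr act e₁ (ovr act e₂ w y) u) then (1 : ℝ) else 0) *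
        dens E b (8 * q) (fun i => bv (pl i) (ovr act e₁ (ovr act e₂ w y) u)))) =
      (∑ u ∈ univ.filter f, φ u) / (Fintype.card (ι → Fin (4 * t) → Bool) : ℝ) := by
    rw [av_comm]
    have h1 : ∀ u : ι → Fin (4 * t) → Bool,
        av (fun y : ι → (Fin l → Bool) → Bool =>
          (if R (ovr act e₁ (ovr act e₂ w y) u) then (1 : ℝ) else 0) *
          dens E b (8 * q) (fun i => bv (pl i) (ovr act e₁ (ovr act e₂ w y) u))) =
        if f u then φ u else 0 := by
      intro u
      have h2 : ∀ y : ι → (Fin l → Bool) → Bool,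
          (if R (ovr act e₁ (ovr act e₂ w y) u) then (1 : ℝ) else 0) *
          dens E b (8 * q) (fun i => bv (pl i) (ovr act e₁ (ovr act e₂ w y) u)) =
          (if f u then (1 : ℝ) else 0) *
            ((if g y then (1 : ℝ) else 0) * dens E b (8 * q) (zf G X a z₀ y u)) := by
        intro y
        have h3 : (fun i => bv (pl i) (ovr act e₁ (ovr act e₂ w y) u)) = zf G X a z₀ y u :=
          funext fun i => hbv y u i
        rw [h3, ← mul_assoc]
        congr 1
        by_cases hfu : f u <;> by_cases hgy : g y <;> simp [hRiff, hfu, hgy]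
      simp_rw [h2]
      rw [av_const_mul]
      split_ifs
      · rw [one_mul]
      · rw [zero_mul]
    simp_rw [h1]
    unfold av
    rw [Finset.sum_filter]
  rw [hval]
  -- apply the partition
  set H : ℝ := (numS κ (8 * q) : ℝ) with hH
  set h : ℕ := 2 ^ t with hh
  have hh1 : 1 ≤ h := Nat.one_le_two_pow
  set e : ℝ := H * ((Fintype.card ι : ℝ) / h) ^ (2 * q) +
    H * (2 * Real.exp (-((Fintype.card ι : ℝ) ^ 2 / 2)) * ((h : ℝ) ^ 4 + 2) ^ Fintype.card ι)
    with he
  have hH0 : 0 ≤ H := Nat.cast_nonneg _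
  have he0 : 0 ≤ e := by positivity
  have hGc : (univ \ G).card ≤ q := by
    refine le_trans (Finset.card_le_card ?_) hbad
    intro i hi
    refine Finset.mem_filter.2 ⟨Finset.mem_univ _, ?_⟩
    by_contra hno
    exact (Finset.mem_sdiff.1 hi).2 (Finset.mem_filter.2 ⟨Finset.mem_univ _, hno⟩)
  have hmain := hpart ι (Fin (4 * t) → Bool) inferInstance inferInstance inferInstance
    inferInstance h q hh1 hU G φ H e (by
      intro u
      simp only [hφ]
      have h1 : ∀ y : ι → (Fin l → Bool) → Bool,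
          |(if g y then (1 : ℝ) else 0) * dens E b (8 * q) (zf G X a z₀ y u)| ≤ H := by
        intro y
        rw [abs_mul]
        have h2 := abs_dens_le E b (8 * q) (zf_pm (G := G) (X := X) ha' hz' y u)
        split_ifs
        · rw [abs_one, one_mul]; exact h2
        · rw [abs_zero, zero_mul]; exact hH0
      rw [abs_le]
      constructor
      · exact le_av fun y => (abs_le.1 (h1 y)).1
      · have h3 : av (fun _ : ι → (Fin l → Bool) → Bool => H * 1) = H := by
          rw [av_const_mul, av_one, mul_one]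
        rw [← h3]
        exact av_mono fun y => by rw [mul_one]; exact (abs_le.1 (h1 y)).2) he0 (by
      intro X' I hIG hI hfix hdense
      exact piece_bound halg hchaos E b hE hh1 hU hn2 G hGc X hXinj a ha' z₀ hz'
        (fun y => if g y then (1 : ℝ) else 0) (fun y => by
          by_cases hgy : g y
          · right; exact if_pos hgy
          · left; exact if_neg hgy) X' I hIG hI hfix hdense)
    (univ.filter f)
  have hcard0 : (0 : ℝ) < (Fintype.card (ι → Fin (4 * t) → Bool) : ℝ) := by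
    exact_mod_cast Fintype.card_pos
  rw [le_div_iff₀ hcard0]
  refine le_trans ?_ hmain
  have hXc : ((univ.filter f).card : ℝ) ≤ (Fintype.card (ι → Fin (4 * t) → Bool) : ℝ) := by
    exact_mod_cast Finset.card_le_univ _
  have h7 : e * ((univ.filter f).card : ℝ) ≤
      e * (Fintype.card (ι → Fin (4 * t) → Bool) : ℝ) := mul_le_mul_of_nonneg_left hXc he0
  have h8 : epsf H (Fintype.card ι) q h = e + H / (h : ℝ) ^ q := rfl
  rw [h8]
  have h9 : H * ((Fintype.card (ι → Fin (4 * t) → Bool) : ℝ) / (h : ℝ) ^ q) =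
      H / (h : ℝ) ^ q * (Fintype.card (ι → Fin (4 * t) → Bool) : ℝ) := by ring
  rw [h9]
  nlinarith

end Pool.Agent.OB
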