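import Mathlib
import Pool.Agent.Lib_helper80.OB.Stmts

/-!
# SUPP: the product of the rows in `s` is, up to sign, the product over the odd support
-/

namespace Pool.Agent.OB

open Finset Pool.Agent.SR

theorem supp_row {ι κ : Type} [Fintype ι] [DecidableEq ι] (E : κ → Fin 5 → ι) (c : κ)
    (ζ : ι → ℝ) :
    ∏ j, ζ (E c j) = ∏ i : ι, ζ i ^ (univ.filter fun j => E c j = i).card := by
  rw [← Finset.prod_fiberwise (s := univ) (g := fun j => E c j) (f := fun j => ζ (E c j))]
  refine Finset.prod_congr rfl fun i _ => ?_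
  rw [Finset.prod_congr rfl (g := fun _ => ζ i)]
  · rw [Finset.prod_const]
  · intro j hj
    rw [(Finset.mem_filter.1 hj).2]

theorem supp_pow {x : ℝ} (hx : x = 1 ∨ x = -1) (n : ℕ) : x ^ n = if Odd n then x else 1 := by
  rcases hx with rfl | rfl
  · simp
  · split_ifs with h
    · exact h.neg_one_pow
    · exact (Nat.not_odd_iff_even.1 h).neg_one_pow

theorem supp : StmtSupp := by
  intro ι κ _ _ _ _ E b s ζ hζ
  unfold prs rowv
  rw [Finset.prod_mul_distrib]
  congr 1
  rw [Finset.prod_congr rfl (fun c _ => supp_row E c ζ), Finset.prod_comm]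
  unfold os
  rw [Finset.prod_filter]
  refine Finset.prod_congr rfl fun i _ => ?_
  rw [Finset.prod_pow_eq_pow_sum, supp_pow (hζ i)]

end Pool.Agent.OB
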