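import Mathlib
import Pool.Agent.Lib_helper80.OB.Stmts
import Pool.Agent.Lib_helper80.OB.Supp

/-!
# ROOT and LEAF: the signed measure has total mass 1 and vanishes on falsified clauses
-/

namespace Pool.Agent.OB

open Finset Pool.Agent.SR

theorem rl_sg_not (x : Bool) : sg (!x) = - sg x := by
  cases x <;> simp [sg]

theorem rl_sg_cases (x : Bool) : sg x = 1 ∨ sg x = -1 := by
  cases x <;> simp [sg]

section Flip

variable {ι κ P : Type} [DecidableEq P] {l ρ : ℕ}

omit [DecidableEq P] in
/-- The sign of a block is a sign. -/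
theorem rl_bv_cases (pl : Cell l ρ → P) (w : P → Bool) : bv pl w = 1 ∨ bv pl w = -1 := by
  unfold bv
  refine Finset.prod_induction (fun j : Fin ρ => sg (w (pl (Sum.inr (ptr pl w, j)))))
    (fun x : ℝ => x = 1 ∨ x = -1) ?_ (Or.inl rfl) (fun j _ => rl_sg_cases _)
  rintro a b (rfl | rfl) (rfl | rfl) <;> simp

/-- The cell which is flipped. -/
def rlCell (hρ : 0 < ρ) (pl : ι → Cell l ρ → P) (i : ι) (w : P → Bool) : P :=
  pl i (Sum.inr (ptr (pl i) w, ⟨0, hρ⟩))

/-- Negating the table cell `0` at the address given by the pointer of block `i`. -/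
def rlFlip (hρ : 0 < ρ) (pl : ι → Cell l ρ → P) (i : ι) (w : P → Bool) : P → Bool :=
  Function.update w (rlCell hρ pl i w) (!w (rlCell hρ pl i w))

variable {hρ : 0 < ρ} {pl : ι → Cell l ρ → P}

theorem rlFlip_of_ne {i : ι} {w : P → Bool} {p : P} (h : p ≠ rlCell hρ pl i w) :
    rlFlip hρ pl i w p = w p := by
  unfold rlFlip
  rw [Function.update_of_ne h]

theorem rlFlip_self {i : ι} {w : P → Bool} :
    rlFlip hρ pl i w (rlCell hρ pl i w) = !w (rlCell hρ pl i w) := by
  unfold rlFlip
  rw [Function.update_self]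

theorem rl_ptr (hpl : Function.Injective fun p : ι × Cell l ρ => pl p.1 p.2) (i i' : ι)
    (w : P → Bool) : ptr (pl i') (rlFlip hρ pl i w) = ptr (pl i') w := by
  funext j
  unfold ptr
  apply rlFlip_of_ne
  intro h
  have := @hpl (i', Sum.inl j) (i, Sum.inr (ptr (pl i) w, ⟨0, hρ⟩)) h
  simp at this

theorem rl_cell (hpl : Function.Injective fun p : ι × Cell l ρ => pl p.1 p.2) (i : ι)
    (w : P → Bool) : rlCell hρ pl i (rlFlip hρ pl i w) = rlCell hρ pl i w := by
  unfold rlCell
  rw [rl_ptr hpl]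

theorem rlFlip_flip (hpl : Function.Injective fun p : ι × Cell l ρ => pl p.1 p.2) (i : ι) :
    Function.Involutive (rlFlip hρ pl i) := by
  intro w
  funext p
  by_cases h : p = rlCell hρ pl i w
  · subst h
    have h1 : rlFlip hρ pl i (rlFlip hρ pl i w) (rlCell hρ pl i (rlFlip hρ pl i w)) =
      !rlFlip hρ pl i w (rlCell hρ pl i (rlFlip hρ pl i w)) := rlFlip_self
    rw [rl_cell hpl] at h1
    rw [h1, rlFlip_self, Bool.not_not]
  · rw [rlFlip_of_ne, rlFlip_of_ne h]
    rwa [rl_cell hpl]

theorem rl_bv_ne (hpl : Function.Injective fun p : ι × Cell l ρ => pl p.1 p.2) {i i' : ι}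
    (h : i' ≠ i) (w : P → Bool) : bv (pl i') (rlFlip hρ pl i w) = bv (pl i') w := by
  unfold bv
  rw [rl_ptr hpl]
  refine Finset.prod_congr rfl fun j _ => ?_
  rw [rlFlip_of_ne]
  intro h'
  have := @hpl (i', Sum.inr (ptr (pl i') w, j)) (i, Sum.inr (ptr (pl i) w, ⟨0, hρ⟩)) h'
  exact h (Prod.mk.inj this).1

theorem rl_bv_self (hpl : Function.Injective fun p : ι × Cell l ρ => pl p.1 p.2) (i : ι)
    (w : P → Bool) : bv (pl i) (rlFlip hρ pl i w) = - bv (pl i) w := by
  classical
  unfold bv
  rw [rl_ptr hpl, ← Finset.mul_prod_erase univ _ (Finset.mem_univ (⟨0, hρ⟩ : Fin ρ)),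
    ← Finset.mul_prod_erase univ (fun j : Fin ρ => sg (w (pl i (Sum.inr (ptr (pl i) w, j)))))
    (Finset.mem_univ (⟨0, hρ⟩ : Fin ρ)), ← neg_mul]
  congr 1
  · have h : rlFlip hρ pl i w (rlCell hρ pl i w) = !w (rlCell hρ pl i w) := rlFlip_self
    unfold rlCell at h
    rw [h, rl_sg_not]
  · refine Finset.prod_congr rfl fun j hj => ?_
    rw [rlFlip_of_ne]
    intro h'
    have := @hpl (i, Sum.inr (ptr (pl i) w, j)) (i, Sum.inr (ptr (pl i) w, ⟨0, hρ⟩)) h'
    simp only [Prod.mk.injEq, Sum.inr.injEq, true_and] at this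
    exact (Finset.mem_erase.1 hj).1 this

end Flip

section Main

variable {ι κ P : Type} [Fintype ι] [DecidableEq ι] [Fintype κ] [DecidableEq κ]
  [Fintype P] [DecidableEq P] {l ρ : ℕ} {hρ : 0 < ρ} {pl : ι → Cell l ρ → P}
  {E : κ → Fin 5 → ι} {b : κ → Bool}

omit [Fintype P] in
theorem rl_prs (hsupp : StmtSupp)
    (hpl : Function.Injective fun p : ι × Cell l ρ => pl p.1 p.2)
    {i : ι} {s : Finset κ} (hi : i ∈ os E s) (w : P → Bool) :
    prs E b s (fun i' => bv (pl i') (rlFlip hρ pl i w)) =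
      - prs E b s (fun i' => bv (pl i') w) := by
  have e1 := hsupp ι κ inferInstance inferInstance inferInstance inferInstance E b s
    (fun i' => bv (pl i') (rlFlip hρ pl i w)) (fun i' => rl_bv_cases (pl i') _)
  have e2 := hsupp ι κ inferInstance inferInstance inferInstance inferInstance E b s
    (fun i' => bv (pl i') w) (fun i' => rl_bv_cases (pl i') _)
  rw [e1, e2,
    ← Finset.mul_prod_erase _ _ hi,
    ← Finset.mul_prod_erase _ (fun i' => bv (pl i') w) hi, rl_bv_self hpl]
  have : ∏ x ∈ (os E s).erase i, bv (pl x) (rlFlip hρ pl i w) =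
      ∏ x ∈ (os E s).erase i, bv (pl x) w :=
    Finset.prod_congr rfl fun x hx => rl_bv_ne hpl (Finset.mem_erase.1 hx).1 w
  rw [this]
  ring

/-- A term with an odd block outside of the support of the weight vanishes. -/
theorem rl_zero (hsupp : StmtSupp) (hρ : 0 < ρ)
    (hpl : Function.Injective fun p : ι × Cell l ρ => pl p.1 p.2)
    {i : ι} {s : Finset κ} (hi : i ∈ os E s) (G : (P → Bool) → ℝ)
    (hG : ∀ w, G (rlFlip hρ pl i w) = G w) :
    av (fun w : P → Bool => G w * prs E b s (fun i' => bv (pl i') w)) = 0 := by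
  unfold av
  have h1 : ∑ w : P → Bool, G w * prs E b s (fun i' => bv (pl i') w) =
      ∑ w : P → Bool, G (rlFlip hρ pl i w) *
        prs E b s (fun i' => bv (pl i') (rlFlip hρ pl i w)) :=
    (Equiv.sum_comp (rlFlip_flip (hρ := hρ) hpl i).toPerm
      (fun w : P → Bool => G w * prs E b s (fun i' => bv (pl i') w))).symm
  have h2 : ∑ w : P → Bool, G w * prs E b s (fun i' => bv (pl i') w) =
      - ∑ w : P → Bool, G w * prs E b s (fun i' => bv (pl i') w) := by
    rw [← Finset.sum_neg_distrib]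
    refine h1.trans (Finset.sum_congr rfl fun w _ => ?_)
    rw [hG, rl_prs hsupp hpl hi]
    ring
  have h3 : ∑ w : P → Bool, G w * prs E b s (fun i' => bv (pl i') w) = 0 := by linarith
  rw [h3, zero_div]

theorem rl_av_sum {Ω α : Type*} [Fintype Ω] (S : Finset α) (f : α → Ω → ℝ) :
    av (fun w => ∑ s ∈ S, f s w) = ∑ s ∈ S, av (f s) := by
  unfold av
  rw [Finset.sum_comm, Finset.sum_div]

end Main

theorem root' (hsupp : StmtSupp) : StmtRoot := by
  intro ι κ P _ _ _ _ _ _ l ρ r hρ E b hE pl hpl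
  unfold dens
  rw [rl_av_sum, Finset.sum_eq_single (∅ : Finset κ)]
  · have : (fun w : P → Bool => prs E b ∅ fun i => bv (pl i) w) = fun _ => (1 : ℝ) := by
      funext w
      unfold prs
      simp
    rw [this, av_one]
  · intro s hs hne
    have hs' := (Finset.mem_filter.1 hs).2
    have hpos : 0 < (os E s).card :=
      lt_of_lt_of_le (Finset.card_pos.2 (Finset.nonempty_iff_ne_empty.2 hne)) (hE s hs')
    obtain ⟨i, hi⟩ := Finset.card_pos.1 hpos
    have := rl_zero (b := b) hsupp hρ hpl hi (fun _ => 1) (fun _ => rfl)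
    simpa using this
  · intro h
    exact absurd (Finset.mem_filter.2 ⟨Finset.mem_univ _, by simp⟩) h

/-- On an assignment with `rowv c = -1` the terms with and without `c` cancel. -/
theorem rl_cancel {ι κ : Type} [Fintype ι] [DecidableEq ι] [Fintype κ] [DecidableEq κ]
    (E : κ → Fin 5 → ι) (b : κ → Bool) (r : ℕ) (c : κ) (ζ : ι → ℝ)
    (h : rowv E b c ζ = -1) :
    dens E b r ζ =
      ∑ s ∈ univ.filter (fun s : Finset κ => s.card = r ∧ c ∉ s), prs E b s ζ := by
  unfold dens
  rw [← Finset.sum_filter_add_sum_filter_not (univ.filter fun s : Finset κ => s.card ≤ r)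
    (fun s => c ∈ s)]
  have h1 : ∑ s ∈ (univ.filter fun s : Finset κ => s.card ≤ r).filter (fun s => c ∈ s),
      prs E b s ζ =
      - ∑ s ∈ (univ.filter fun s : Finset κ => s.card < r ∧ c ∉ s), prs E b s ζ := by
    rw [← Finset.sum_neg_distrib]
    refine Finset.sum_bij' (fun s _ => s.erase c) (fun s _ => insert c s) ?_ ?_ ?_ ?_ ?_
    · intro s hs
      simp only [Finset.mem_filter, Finset.mem_univ, true_and] at hs ⊢
      have := Finset.card_erase_add_one hs.2
      exact ⟨by omega, Finset.notMem_erase c s⟩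
    · intro s hs
      simp only [Finset.mem_filter, Finset.mem_univ, true_and] at hs ⊢
      rw [Finset.card_insert_of_notMem hs.2]
      exact ⟨by omega, Finset.mem_insert_self c s⟩
    · intro s hs
      simp only [Finset.mem_filter, Finset.mem_univ, true_and] at hs
      exact Finset.insert_erase hs.2
    · intro s hs
      simp only [Finset.mem_filter, Finset.mem_univ, true_and] at hs
      exact Finset.erase_insert hs.2
    · intro s hs
      simp only [Finset.mem_filter, Finset.mem_univ, true_and] at hs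
      unfold prs
      rw [← Finset.mul_prod_erase s _ hs.2, h]
      ring
  have h2 : ∑ s ∈ (univ.filter fun s : Finset κ => s.card ≤ r).filter (fun s => ¬ c ∈ s),
      prs E b s ζ =
      ∑ s ∈ (univ.filter fun s : Finset κ => s.card < r ∧ c ∉ s), prs E b s ζ +
      ∑ s ∈ (univ.filter fun s : Finset κ => s.card = r ∧ c ∉ s), prs E b s ζ := by
    rw [← Finset.sum_union]
    · refine Finset.sum_congr ?_ fun _ _ => rfl
      ext s
      simp only [Finset.mem_filter, Finset.mem_univ, true_and, Finset.mem_union]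
      constructor
      · rintro ⟨h1, h2⟩
        rcases Nat.lt_or_eq_of_le h1 with h | h
        · exact Or.inl ⟨h, h2⟩
        · exact Or.inr ⟨h, h2⟩
      · rintro (⟨h1, h2⟩ | ⟨h1, h2⟩)
        · exact ⟨h1.le, h2⟩
        · exact ⟨h1.le, h2⟩
    · rw [Finset.disjoint_left]
      intro s hs hs'
      simp only [Finset.mem_filter, Finset.mem_univ, true_and] at hs hs'
      omega
  rw [h1, h2]
  ring

theorem leaf' (hsupp : StmtSupp) : StmtLeaf := by
  classical
  intro ι κ P _ _ _ _ _ _ l ρ r hρ hr E b hE pl hpl c Ev hEv hdep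
  have h1 : (fun w : P → Bool => (if Ev w then (1 : ℝ) else 0) *
      dens E b r (fun i => bv (pl i) w)) = fun w : P → Bool =>
      ∑ s ∈ univ.filter (fun s : Finset κ => s.card = r ∧ c ∉ s),
        (if Ev w then (1 : ℝ) else 0) * prs E b s (fun i => bv (pl i) w) := by
    funext w
    rw [← Finset.mul_sum]
    by_cases hw : Ev w
    · rw [rl_cancel E b r c _ (hEv w hw)]
    · simp [hw]
  rw [h1, rl_av_sum]
  refine Finset.sum_eq_zero fun s hs => ?_
  have hs' := (Finset.mem_filter.1 hs).2
  have hcard : 5 < (os E s).card := lt_of_lt_of_le (by omega) (hE s hs'.1.le)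
  have hex : ∃ i ∈ os E s, i ∉ (univ.image (E c) : Finset ι) := by
    by_contra hcon
    push Not at hcon
    have h2 : (os E s).card ≤ (univ.image (E c) : Finset ι).card :=
      Finset.card_le_card fun i hi => hcon i hi
    have h3 : (univ.image (E c) : Finset ι).card ≤ 5 := by
      refine le_trans Finset.card_image_le ?_
      simp
    omega
  obtain ⟨i, hi, hic⟩ := hex
  refine rl_zero (b := b) hsupp hρ hpl hi (fun w => if Ev w then (1 : ℝ) else 0) ?_
  have key : ∀ w : P → Bool, ∀ j x,
      w (pl (E c j) x) = rlFlip hρ pl i w (pl (E c j) x) := by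
    intro w j x
    rw [rlFlip_of_ne]
    intro h'
    have := @hpl (E c j, x) (i, Sum.inr (ptr (pl i) w, ⟨0, hρ⟩)) h'
    exact hic (Finset.mem_image.2 ⟨j, Finset.mem_univ _, (Prod.mk.inj this).1⟩)
  intro w
  have hiff : Ev (rlFlip hρ pl i w) ↔ Ev w :=
    ⟨hdep _ _ fun j x => (key w j x).symm, hdep _ _ fun j x => key w j x⟩
  simp only [hiff]

theorem root : StmtRoot := root' supp

theorem leaf : StmtLeaf := leaf' supp

end Pool.Agent.OB
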