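import Pool.Agent.Lib_helper80.OB.Stmts

/-!
# TREE: the induction over the tree
-/

namespace Pool.Agent.OB

open Finset Pool.Agent.SR

section

variable {W : Type} [Fintype W]

theorem tree_av_sum {ι : Type*} (s : Finset ι) (f : ι → W → ℝ) :
    av (fun w => ∑ i ∈ s, f i w) = ∑ i ∈ s, av (f i) := by
  classical
  unfold av
  rw [Finset.sum_comm, Finset.sum_div]

theorem tree_av_sub (f g : W → ℝ) : av (fun w => f w - g w) = av f - av g := by
  unfold av
  rw [Finset.sum_sub_distrib, sub_div]

end

section

variable {V : Type} [Fintype V] [DecidableEq V]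

/-- every derivation has at least one line -/
theorem tree_pos {F : CNF V} {K T : ℕ} {f : (V → Bool) → Bool} (h : Tree F K f T) : 1 ≤ T := by
  cases h <;> omega

/-- a derivation with an inference has `K ≥ 1` -/
theorem tree_K {F : CNF V} {K T : ℕ} {f : (V → Bool) → Bool} (h : Tree F K f T) :
    T = 1 ∨ 1 ≤ K := by
  have key : ∀ fs : List ((V → Bool) → Bool), Simple K fs → 1 ≤ K := by
    rintro fs ⟨A, -, c, -, -⟩
    have := (c fun _ => false).2
    omega
  cases h with
  | ax _ _ => exact Or.inl rfl
  | one _ _ hs => exact Or.inr (key _ hs)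
  | two _ _ _ hs => exact Or.inr (key _ hs)

end

open Classical in
/-- a function with values in `{0, 1, 2}` which is constant on the classes of a simple inference -/
theorem tree_classes {V W : Type} [Fintype V] [DecidableEq V] [Fintype W]
    {J : W → V → Bool} {D : W → ℝ} {ε : ℝ} {A : Finset V} {K : ℕ}
    (hpos : ∀ R : (V → Bool) → Prop, (∀ x y, R x → R y → R (mix A x y)) →
      -ε ≤ av (fun w => (if R (J w) then 1 else 0) * D w))
    {c : (V → Bool) → Fin K} (hc : ∀ x y, c x = c y → c (mix A x y) = c x)
    {ψ : (V → Bool) → ℕ} (hψ : ∀ x y, c x = c y → ψ x = ψ y) (h2 : ∀ x, ψ x ≤ 2) :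
    -(2 * K * ε) ≤ av (fun w => (ψ (J w) : ℝ) * D w) := by
  have h1 : (fun w => (ψ (J w) : ℝ) * D w) = fun w => ∑ k : Fin K, ∑ j ∈ range 2,
      (if (c (J w) = k ∧ j < ψ (J w)) then (1 : ℝ) else 0) * D w := by
    funext w
    rw [Finset.sum_eq_single (c (J w))]
    · have hw := h2 (J w)
      simp only [true_and, Finset.sum_range_succ, Finset.sum_range_zero, zero_add]
      have h3 : ψ (J w) = 0 ∨ ψ (J w) = 1 ∨ ψ (J w) = 2 := by omega
      rcases h3 with h3 | h3 | h3 <;> rw [h3] <;> norm_num
      ring
    · intro k _ hk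
      refine Finset.sum_eq_zero fun j _ => ?_
      rw [if_neg (fun h => hk h.1.symm), zero_mul]
    · intro h; exact absurd (mem_univ _) h
  rw [h1, tree_av_sum]
  have h3 : ∀ k ∈ (univ : Finset (Fin K)), -(2 * ε) ≤ av (fun w => ∑ j ∈ range 2,
      (if (c (J w) = k ∧ j < ψ (J w)) then (1 : ℝ) else 0) * D w) := by
    intro k _
    rw [tree_av_sum]
    have h4 : ∀ j ∈ range 2, -ε ≤ av (fun w =>
        (if (c (J w) = k ∧ j < ψ (J w)) then (1 : ℝ) else 0) * D w) := by
      intro j _
      have h6 := hpos (fun x => c x = k ∧ j < ψ x) (by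
        rintro x y ⟨hx, hx'⟩ ⟨hy, _⟩
        have h5 : c (mix A x y) = c x := hc x y (hx.trans hy.symm)
        exact ⟨h5.trans hx, by rw [hψ _ _ h5]; exact hx'⟩)
      convert h6
    calc -(2 * ε) = ∑ _j ∈ range 2, (-ε) := by simp
      _ ≤ _ := Finset.sum_le_sum h4
  calc -(2 * K * ε) = ∑ _k : Fin K, (-(2 * ε)) := by simp; ring
    _ ≤ _ := Finset.sum_le_sum h3

open Classical in
/-- the induction -/
theorem tree_induction {V Ω W : Type} [Fintype V] [DecidableEq V] [Fintype W]
    {F : CNF V} {J : Ω → W → V → Bool} {Dn : Ω → W → ℝ} {Valid : Ω → Prop}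
    {Good : Ω → Finset V → Prop} {ε : ℝ} (hε : 0 ≤ ε)
    (hleaf : ∀ ω, Valid ω → ∀ C ∈ F,
      av (fun w => (if Sat (J ω w) C then 0 else 1) * Dn ω w) = 0)
    (hpos : ∀ ω, Valid ω → ∀ A, Good ω A → ∀ R : (V → Bool) → Prop,
      (∀ x y, R x → R y → R (mix A x y)) →
      -ε ≤ av (fun w => (if R (J ω w) then 1 else 0) * Dn ω w))
    {K T : ℕ} {f : (V → Bool) → Bool} (h : Tree F K f T) :
    ∃ L : List (Finset V), L.length + 1 ≤ T ∧ (∀ A ∈ L, Balanced A) ∧
      ∀ ω, Valid ω → (∀ A ∈ L, Good ω A) →
        av (fun w => (if f (J ω w) = true then 0 else 1) * Dn ω w) ≤ 2 * K * ε * (T - 1) := by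
  induction h with
  | @ax C f hC hf =>
    refine ⟨[], by simp, by simp, fun ω hω _ => ?_⟩
    have h1 := hleaf ω hω C hC
    have h2 : (fun w => (if f (J ω w) = true then (0 : ℝ) else 1) * Dn ω w)
        = fun w => (if Sat (J ω w) C then (0 : ℝ) else 1) * Dn ω w := by
      funext w
      congr 1
      by_cases hs : Sat (J ω w) C
      · rw [if_pos hs, if_pos ((hf _).2 hs)]
      · rw [if_neg hs, if_neg fun h => hs ((hf _).1 h)]
    rw [h2, h1]
    simp
  | @one f h T hT hfh hs ih =>
    obtain ⟨L, hL1, hL2, hL3⟩ := ih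
    obtain ⟨A, hA, c, hc, hcf⟩ := hs
    refine ⟨A :: L, by simp only [List.length_cons]; omega, ?_, fun ω hω hg => ?_⟩
    · intro B hB
      rcases List.mem_cons.1 hB with rfl | hB
      · exact hA
      · exact hL2 B hB
    · have hgA := hg A (List.mem_cons_self)
      have ih' := hL3 ω hω fun B hB => hg B (List.mem_cons_of_mem _ hB)
      have h1 := tree_classes (ψ := fun x => (if f x = true then 0 else 1) -
        (if h x = true then 0 else 1)) (hpos ω hω A hgA) hc (by
          intro x y hxy
          rw [hcf f (by simp) x y hxy, hcf h (by simp) x y hxy]) (by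
          intro x
          split_ifs <;> omega)
      have h2 : (fun w => (((if f (J ω w) = true then 0 else 1) -
          (if h (J ω w) = true then 0 else 1) : ℕ) : ℝ) * Dn ω w)
          = fun w => (if f (J ω w) = true then (0 : ℝ) else 1) * Dn ω w
            - (if h (J ω w) = true then (0 : ℝ) else 1) * Dn ω w := by
        funext w
        have h3 := hfh (J ω w)
        by_cases hf : f (J ω w) = true
        · simp [hf, h3 hf]
        · by_cases hh : h (J ω w) = true
          · simp [hf, hh]
          · simp [hf, hh]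
      rw [h2, tree_av_sub] at h1
      push_cast
      linarith
  | @two f g h T T' hT hT' hfgh hs ih ih' =>
    obtain ⟨L, hL1, hL2, hL3⟩ := ih
    obtain ⟨L', hL1', hL2', hL3'⟩ := ih'
    obtain ⟨A, hA, c, hc, hcf⟩ := hs
    refine ⟨A :: (L ++ L'), by simp only [List.length_cons, List.length_append]; omega,
      ?_, fun ω hω hg => ?_⟩
    · intro B hB
      rcases List.mem_cons.1 hB with rfl | hB
      · exact hA
      · rcases List.mem_append.1 hB with hB | hB
        · exact hL2 B hB
        · exact hL2' B hB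
    · have hgA := hg A (List.mem_cons_self)
      have ih1 := hL3 ω hω fun B hB =>
        hg B (List.mem_cons_of_mem _ (List.mem_append.2 (Or.inl hB)))
      have ih2 := hL3' ω hω fun B hB =>
        hg B (List.mem_cons_of_mem _ (List.mem_append.2 (Or.inr hB)))
      have h1 := tree_classes (ψ := fun x => (if f x = true then 0 else 1) +
        (if g x = true then 0 else 1) - (if h x = true then 0 else 1)) (hpos ω hω A hgA) hc (by
          intro x y hxy
          rw [hcf f (by simp) x y hxy, hcf g (by simp) x y hxy, hcf h (by simp) x y hxy]) (by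
          intro x
          split_ifs <;> omega)
      have h2 : (fun w => (((if f (J ω w) = true then 0 else 1) +
          (if g (J ω w) = true then 0 else 1) -
          (if h (J ω w) = true then 0 else 1) : ℕ) : ℝ) * Dn ω w)
          = fun w => ((if f (J ω w) = true then (0 : ℝ) else 1) * Dn ω w
            + (if g (J ω w) = true then (0 : ℝ) else 1) * Dn ω w)
            - (if h (J ω w) = true then (0 : ℝ) else 1) * Dn ω w := by
        funext w
        have h3 := hfgh (J ω w)
        by_cases hf : f (J ω w) = true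
        · by_cases hg' : g (J ω w) = true
          · simp [hf, hg', h3 hf hg']
          · by_cases hh : h (J ω w) = true
            · simp [hf, hg', hh]
            · simp [hf, hg', hh]
        · by_cases hg' : g (J ω w) = true
          · by_cases hh : h (J ω w) = true
            · simp [hf, hg', hh]
            · simp [hf, hg', hh]
          · by_cases hh : h (J ω w) = true
            · simp [hf, hg', hh]; ring
            · simp [hf, hg', hh]
      rw [h2, tree_av_sub, av_add] at h1
      push_cast
      have hKe : 0 ≤ 2 * (K : ℝ) * ε := by positivity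
      linarith

theorem tree : StmtTree := by
  classical
  intro V Ω W _ _ _ _ F J Dn Valid Good ε q hq hε hroot hleaf hpos hchoice h2 K T hT
  have hT1 := tree_pos hT
  by_cases hlt : T < 2 ^ q
  · obtain ⟨L, hL1, hL2, hL3⟩ := tree_induction (Dn := Dn) (Valid := Valid) (Good := Good)
      (ε := ε) (J := J) hε (fun ω hω C hC => by
        convert hleaf ω hω C hC) (fun ω hω A hA R hR => by
        convert hpos ω hω A hA R hR) hT
    obtain ⟨ω, hω, hg⟩ := hchoice L (by omega) hL2
    have h3 := hL3 ω hω hg
    have h4 : (fun w => (if ((fun _ => false) (J ω w) : Bool) = true then (0 : ℝ) else 1) * Dn ω w)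
        = Dn ω := by
      funext w; simp
    rw [h4, hroot ω hω] at h3
    have hK : (0 : ℝ) ≤ K := Nat.cast_nonneg K
    have hTr : (1 : ℝ) ≤ T := by exact_mod_cast hT1
    have h5 : (1 : ℝ) ≤ 2 * ε * (K * T) := by
      have : 2 * (K : ℝ) * ε * (T - 1) ≤ 2 * ε * (K * T) := by nlinarith [mul_nonneg hK hε]
      linarith
    have hpow : (0 : ℝ) < 2 ^ q := by positivity
    have hKT : (0 : ℝ) ≤ K * T := by positivity
    have h6 : (2 : ℝ) ^ q ≤ T * K := by
      calc (2 : ℝ) ^ q = 1 * 2 ^ q := by ring
        _ ≤ (2 * ε * (K * T)) * 2 ^ q := mul_le_mul_of_nonneg_right h5 hpow.le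
        _ = (2 * ε * 2 ^ q) * (K * T) := by ring
        _ ≤ 1 * (K * T) := mul_le_mul_of_nonneg_right h2 hKT
        _ = T * K := by ring
    exact_mod_cast h6
  · push Not at hlt
    have h1 : 2 ≤ 2 ^ q := by
      calc 2 = 2 ^ 1 := by norm_num
        _ ≤ 2 ^ q := Nat.pow_le_pow_right (by norm_num) hq
    rcases tree_K hT with hT' | hK
    · omega
    · calc 2 ^ q ≤ T := hlt
        _ = T * 1 := (mul_one T).symm
        _ ≤ T * K := Nat.mul_le_mul_left T hK

end Pool.Agent.OB
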