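import Pool.Agent.Lib_helper80.OB.Final
import Pool.Agent.Lib_helper80.OB.Rect2
import Pool.Agent.Lib_helper80.OB.Alg
import Pool.Agent.Lib_helper80.OB.Chaos
import Pool.Agent.Lib_helper80.OB.Cnf
import Pool.Agent.Lib_helper80.OB.Expd
import Pool.Agent.Lib_helper80.OB.Hoeff
import Pool.Agent.Lib_helper80.OB.Loc
import Pool.Agent.Lib_helper80.OB.Num
import Pool.Agent.Lib_helper80.OB.Obdd
import Pool.Agent.Lib_helper80.OB.Over
import Pool.Agent.Lib_helper80.OB.Part
import Pool.Agent.Lib_helper80.OB.Prob
import Pool.Agent.Lib_helper80.OB.RootLeaf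
import Pool.Agent.Lib_helper80.OB.Supp
import Pool.Agent.Lib_helper80.OB.Tree

/-!
# The lower bound
-/

namespace Pool.Agent.OB

theorem main : Stmt :=
  final (rect (alg supp) (chaos hoeff) part over') root leaf tree expd numS_le
    (loc_exists tail badp injp) (choice tail) cnf1 cnf2 bal obdd num

end Pool.Agent.OB
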